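import Mathlib

set_option autoImplicit false

/-!
# Independent sets with activity: identities
-/

namespace Pool.Agent.K1H34.UHC

open Finset Classical

variable {V : Type} [Fintype V] (G : SimpleGraph V)

set_option linter.unusedSectionVars false

/-- the neighbours of `u` in `X` -/
noncomputable def N (X : Finset V) (u : V) : Finset V := X.filter (fun w => G.Adj u w)

/-- the independent subsets of `H` -/
noncomputable def ind (H : Finset V) : Finset (Finset V) :=
  H.powerset.filter (fun I => ∀ u ∈ I, ∀ w ∈ I, ¬ G.Adj u w)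

/-- the vertices of `H` outside `I` without a neighbour in `I` -/
noncomputable def fr (H I : Finset V) : Finset V :=
  H.filter (fun u => u ∉ I ∧ ∀ w ∈ I, ¬ G.Adj u w)

/-- the independent subsets of `H` with `n` vertices -/
noncomputable def indn (H : Finset V) (n : ℕ) : Finset (Finset V) :=
  (ind G H).filter (fun I => I.card = n)

/-- the partition function -/
noncomputable def Z (lam : ℝ) (H : Finset V) : ℝ := ∑ I ∈ ind G H, lam ^ I.card

variable {G}

theorem mem_N {X : Finset V} {u w : V} : w ∈ N G X u ↔ w ∈ X ∧ G.Adj u w := by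
  simp [N]

theorem mem_ind {H I : Finset V} : I ∈ ind G H ↔ I ⊆ H ∧ ∀ u ∈ I, ∀ w ∈ I, ¬ G.Adj u w := by
  simp [ind]

theorem mem_fr {H I : Finset V} {u : V} :
    u ∈ fr G H I ↔ u ∈ H ∧ u ∉ I ∧ ∀ w ∈ I, ¬ G.Adj u w := by
  simp [fr]

theorem mem_indn {H I : Finset V} {n : ℕ} : I ∈ indn G H n ↔ I ∈ ind G H ∧ I.card = n := by
  simp [indn]

theorem empty_mem_ind (H : Finset V) : ∅ ∈ ind G H := by simp [mem_ind]

theorem ind_down {H I J : Finset V} (h : I ∈ ind G H) (hJ : J ⊆ I) : J ∈ ind G H := by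
  rw [mem_ind] at h ⊢
  exact ⟨hJ.trans h.1, fun u hu w hw => h.2 u (hJ hu) w (hJ hw)⟩

theorem ind_mono {H H' : Finset V} (h : H ⊆ H') : ind G H ⊆ ind G H' := by
  intro I hI
  rw [mem_ind] at hI ⊢
  exact ⟨hI.1.trans h, hI.2⟩

theorem insert_mem_ind {H I : Finset V} {u : V} (hI : I ∈ ind G H) (hu : u ∈ fr G H I) :
    insert u I ∈ ind G H := by
  rw [mem_ind] at hI ⊢
  rw [mem_fr] at hu
  refine ⟨Finset.insert_subset hu.1 hI.1, ?_⟩
  intro a ha b hb hab
  rcases Finset.mem_insert.1 ha with rfl | ha'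
  · rcases Finset.mem_insert.1 hb with rfl | hb'
    · exact G.irrefl hab
    · exact hu.2.2 b hb' hab
  · rcases Finset.mem_insert.1 hb with rfl | hb'
    · exact hu.2.2 a ha' hab.symm
    · exact hI.2 a ha' b hb' hab

/-- adding one vertex -/
theorem sum_insert {H : Finset V} (n : ℕ) (φ : Finset V → ℝ) :
    ∑ I ∈ indn G H n, ∑ u ∈ fr G H I, φ (insert u I) =
      ((n : ℝ) + 1) * ∑ J ∈ indn G H (n + 1), φ J := by
  have h1 : ((n : ℝ) + 1) * ∑ J ∈ indn G H (n + 1), φ J =
      ∑ J ∈ indn G H (n + 1), ∑ _u ∈ J, φ J := by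
    rw [Finset.mul_sum]
    refine Finset.sum_congr rfl fun J hJ => ?_
    rw [Finset.sum_const, (mem_indn.1 hJ).2]
    simp
  rw [h1, Finset.sum_sigma', Finset.sum_sigma']
  refine Finset.sum_bij' (fun p _ => (⟨insert p.2 p.1, p.2⟩ : (_ : Finset V) × V))
    (fun p _ => (⟨p.1.erase p.2, p.2⟩ : (_ : Finset V) × V)) ?_ ?_ ?_ ?_ ?_
  · rintro ⟨I, u⟩ hp
    simp only [Finset.mem_sigma] at hp ⊢
    have hI := mem_indn.1 hp.1
    have hu := mem_fr.1 hp.2
    refine ⟨mem_indn.2 ⟨insert_mem_ind hI.1 hp.2, ?_⟩, Finset.mem_insert_self _ _⟩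
    rw [Finset.card_insert_of_notMem hu.2.1, hI.2]
  · rintro ⟨J, u⟩ hp
    simp only [Finset.mem_sigma] at hp ⊢
    have hJ := mem_indn.1 hp.1
    have hu : u ∈ J := hp.2
    refine ⟨mem_indn.2 ⟨ind_down hJ.1 (Finset.erase_subset _ _), ?_⟩, mem_fr.2 ⟨(mem_ind.1 hJ.1).1 hu,
      Finset.notMem_erase _ _, ?_⟩⟩
    · rw [Finset.card_erase_of_mem hu, hJ.2]; rfl
    · intro w hw
      exact (mem_ind.1 hJ.1).2 u hu w (Finset.mem_of_mem_erase hw)
  · rintro ⟨I, u⟩ hp
    simp only [Finset.mem_sigma] at hp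
    have hu := mem_fr.1 hp.2
    simp [Finset.erase_insert hu.2.1]
  · rintro ⟨J, u⟩ hp
    simp only [Finset.mem_sigma] at hp
    have hu : u ∈ J := hp.2
    simp [Finset.insert_erase hu]
  · rintro ⟨I, u⟩ _
    rfl

theorem fr_insert {H I : Finset V} {u : V} :
    fr G H (insert u I) = (fr G H I).filter (fun w => w ≠ u ∧ ¬ G.Adj u w) := by
  ext w
  simp only [mem_fr, Finset.mem_filter, Finset.mem_insert, not_or, forall_eq_or_imp]
  constructor
  · rintro ⟨h1, ⟨h2, h3⟩, h4, h5⟩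
    exact ⟨⟨h1, h3, h5⟩, h2, fun h => h4 h.symm⟩
  · rintro ⟨⟨h1, h3, h5⟩, h2, h4⟩
    exact ⟨h1, ⟨h2, h3⟩, fun h => h4 h.symm, h5⟩

theorem card_fr_insert {H I : Finset V} {u : V} (hu : u ∈ fr G H I) :
    ((fr G H (insert u I)).card : ℝ) = (fr G H I).card - 1 - (N G (fr G H I) u).card := by
  rw [fr_insert]
  have h1 : (fr G H I).filter (fun w => w ≠ u ∧ ¬ G.Adj u w) =
      ((fr G H I) \ N G (fr G H I) u).erase u := by
    ext w
    simp only [Finset.mem_filter, Finset.mem_erase, Finset.mem_sdiff, mem_N]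
    tauto
  rw [h1, Finset.card_erase_of_mem, Finset.card_sdiff_of_subset]
  · have h2 : (N G (fr G H I) u).card + 1 ≤ (fr G H I).card := by
      have h3 : N G (fr G H I) u ⊆ (fr G H I).erase u := by
        intro w hw
        rw [mem_N] at hw
        rw [Finset.mem_erase]
        exact ⟨fun h => G.irrefl (h ▸ hw.2), hw.1⟩
      have h4 := Finset.card_le_card h3
      rw [Finset.card_erase_of_mem hu] at h4
      have h5 : 0 < (fr G H I).card := Finset.card_pos.2 ⟨u, hu⟩
      omega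
    have h6 : (fr G H I).card - (N G (fr G H I) u).card - 1 + 1 + (N G (fr G H I) u).card =
      (fr G H I).card := by omega
    have h7 : (((fr G H I).card - (N G (fr G H I) u).card - 1 : ℕ) : ℝ) + 1 +
      (N G (fr G H I) u).card = (fr G H I).card := by exact_mod_cast h6
    linarith
  · intro w hw
    exact (mem_N.1 hw).1
  · rw [Finset.mem_sdiff]
    exact ⟨hu, fun h => G.irrefl (mem_N.1 h).2⟩

/-- twice the number of edges inside `X` -/
noncomputable def E (G : SimpleGraph V) (X : Finset V) : ℝ := ∑ u ∈ X, ((N G X u).card : ℝ)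

theorem sum_fr_card {H : Finset V} (n : ℕ) :
    ∑ I ∈ indn G H n, ((fr G H I).card : ℝ) = ((n : ℝ) + 1) * (indn G H (n + 1)).card := by
  have h := sum_insert (G := G) (H := H) n (fun _ => 1)
  simpa using h

theorem sum_fr_sq {H : Finset V} (n : ℕ) :
    ((n : ℝ) + 1) * ∑ J ∈ indn G H (n + 1), ((fr G H J).card : ℝ) =
      ∑ I ∈ indn G H n, (((fr G H I).card : ℝ) ^ 2 - (fr G H I).card - E G (fr G H I)) := by
  rw [← sum_insert]
  refine Finset.sum_congr rfl fun I _ => ?_
  rw [Finset.sum_congr rfl (fun u hu => card_fr_insert hu)]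
  rw [Finset.sum_sub_distrib, Finset.sum_sub_distrib, E]
  simp
  ring

theorem decomp {H B : Finset V} (hB : B ⊆ H) (ψ : Finset V → ℝ) :
    ∑ I ∈ ind G H, ψ I = ∑ ω ∈ ind G (H \ B), ∑ I' ∈ ind G (fr G B ω), ψ (ω ∪ I') := by
  rw [Finset.sum_sigma']
  refine Finset.sum_bij' (fun I _ => (⟨I \ B, I ∩ B⟩ : (_ : Finset V) × Finset V))
    (fun p _ => p.1 ∪ p.2) ?_ ?_ ?_ ?_ ?_
  · intro I hI
    rw [mem_ind] at hI
    simp only [Finset.mem_sigma]
    refine ⟨mem_ind.2 ⟨Finset.sdiff_subset_sdiff hI.1 le_rfl, ?_⟩, mem_ind.2 ⟨?_, ?_⟩⟩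
    · intro u hu w hw
      exact hI.2 u (Finset.mem_sdiff.1 hu).1 w (Finset.mem_sdiff.1 hw).1
    · intro u hu
      rw [Finset.mem_inter] at hu
      rw [mem_fr]
      refine ⟨hu.2, ?_, ?_⟩
      · intro h
        exact (Finset.mem_sdiff.1 h).2 hu.2
      · intro w hw
        exact hI.2 u hu.1 w (Finset.mem_sdiff.1 hw).1
    · intro u hu w hw
      exact hI.2 u (Finset.mem_inter.1 hu).1 w (Finset.mem_inter.1 hw).1
  · rintro ⟨ω, I'⟩ hp
    simp only [Finset.mem_sigma, mem_ind] at hp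
    obtain ⟨⟨h1, h2⟩, h3, h4⟩ := hp
    rw [mem_ind]
    refine ⟨?_, ?_⟩
    · intro u hu
      rcases Finset.mem_union.1 hu with hu | hu
      · exact (Finset.mem_sdiff.1 (h1 hu)).1
      · exact hB (mem_fr.1 (h3 hu)).1
    · intro u hu w hw
      rcases Finset.mem_union.1 hu with hu | hu
      · rcases Finset.mem_union.1 hw with hw | hw
        · exact h2 u hu w hw
        · exact fun h => (mem_fr.1 (h3 hw)).2.2 u hu h.symm
      · rcases Finset.mem_union.1 hw with hw | hw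
        · exact (mem_fr.1 (h3 hu)).2.2 w hw
        · exact h4 u hu w hw
  · intro I _
    exact Finset.sdiff_union_inter I B
  · rintro ⟨ω, I'⟩ hp
    simp only [Finset.mem_sigma, mem_ind] at hp
    obtain ⟨⟨h1, h2⟩, h3, h4⟩ := hp
    have h5 : (ω ∪ I') \ B = ω := by
      ext u
      simp only [Finset.mem_sdiff, Finset.mem_union]
      constructor
      · rintro ⟨h | h, h'⟩
        · exact h
        · exact absurd (mem_fr.1 (h3 h)).1 h'
      · intro h
        exact ⟨Or.inl h, (Finset.mem_sdiff.1 (h1 h)).2⟩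
    have h6 : (ω ∪ I') ∩ B = I' := by
      ext u
      simp only [Finset.mem_inter, Finset.mem_union]
      constructor
      · rintro ⟨h | h, h'⟩
        · exact absurd h' (Finset.mem_sdiff.1 (h1 h)).2
        · exact h
      · intro h
        exact ⟨Or.inr h, (mem_fr.1 (h3 h)).1⟩
    simp only [h5, h6]
  · intro I _
    exact congrArg ψ (Finset.sdiff_union_inter I B).symm

/-- the parts of `decomp` are disjoint -/
theorem card_union' {H B ω I' : Finset V} (hω : ω ∈ ind G (H \ B)) (hI : I' ∈ ind G (fr G B ω)) :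
    (ω ∪ I').card = ω.card + I'.card := by
  apply Finset.card_union_of_disjoint
  rw [Finset.disjoint_left]
  intro u h1 h2
  exact (Finset.mem_sdiff.1 ((mem_ind.1 hω).1 h1)).2 (mem_fr.1 ((mem_ind.1 hI).1 h2)).1

/-- `decomp` with activities -/
theorem decomp_pow {H B : Finset V} (hB : B ⊆ H) (lam : ℝ) (ψ : Finset V → ℝ) :
    ∑ I ∈ ind G H, lam ^ I.card * ψ I =
      ∑ ω ∈ ind G (H \ B), lam ^ ω.card *
        ∑ I' ∈ ind G (fr G B ω), lam ^ I'.card * ψ (ω ∪ I') := by
  rw [decomp hB]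
  refine Finset.sum_congr rfl fun ω hω => ?_
  rw [Finset.mul_sum]
  refine Finset.sum_congr rfl fun I' hI' => ?_
  rw [card_union' hω hI', pow_add]
  ring

theorem Z_decomp {H B : Finset V} (hB : B ⊆ H) (lam : ℝ) :
    Z G lam H = ∑ ω ∈ ind G (H \ B), lam ^ ω.card * Z G lam (fr G B ω) := by
  have h := decomp_pow (G := G) hB lam (fun _ => 1)
  simpa [Z] using h

theorem fr_union {H B ω I' : Finset V} (hB : B ⊆ H) :
    fr G H (ω ∪ I') ∩ B = fr G (fr G B ω) I' := by
  ext u
  simp only [Finset.mem_inter, mem_fr, Finset.mem_union, not_or]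
  constructor
  · rintro ⟨⟨h1, ⟨h2, h3⟩, h4⟩, h5⟩
    exact ⟨⟨h5, h2, fun w hw => h4 w (Or.inl hw)⟩, h3, fun w hw => h4 w (Or.inr hw)⟩
  · rintro ⟨⟨h5, h2, h6⟩, h3, h7⟩
    exact ⟨⟨hB h5, ⟨h2, h3⟩, fun w hw => hw.elim (h6 w) (h7 w)⟩, h5⟩

theorem Z_pos {lam : ℝ} (hl : 0 < lam) (H : Finset V) : 0 < Z G lam H :=
  Finset.sum_pos (fun _ _ => pow_pos hl _) ⟨∅, empty_mem_ind H⟩

theorem one_le_Z {lam : ℝ} (hl : 0 < lam) (H : Finset V) : 1 ≤ Z G lam H := by
  have h := Finset.single_le_sum (f := fun I : Finset V => lam ^ I.card)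
    (fun I _ => (pow_pos hl _).le) (empty_mem_ind (G := G) H)
  simpa [Z] using h

theorem Z_eq_sum {lam : ℝ} (H : Finset V) :
    Z G lam H = ∑ n ∈ range (H.card + 1), lam ^ n * (indn G H n).card := by
  unfold Z
  rw [← Finset.sum_fiberwise_of_maps_to (t := range (H.card + 1)) (g := fun I => I.card)]
  · refine Finset.sum_congr rfl fun n _ => ?_
    show ∑ I ∈ indn G H n, lam ^ I.card = _
    rw [Finset.sum_congr rfl (fun I hI => by rw [(mem_indn.1 hI).2])]
    rw [Finset.sum_const, nsmul_eq_mul, mul_comm]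
  · intro I hI
    rw [Finset.mem_range]
    have := Finset.card_le_card (mem_ind.1 hI).1
    omega

theorem pow_mul_indn_le {lam : ℝ} (hl : 0 < lam) (H : Finset V) (n : ℕ) :
    lam ^ n * (indn G H n).card ≤ Z G lam H := by
  have h1 : lam ^ n * (indn G H n).card = ∑ I ∈ indn G H n, lam ^ I.card := by
    rw [Finset.sum_congr rfl (fun I hI => by rw [(mem_indn.1 hI).2])]
    rw [Finset.sum_const, nsmul_eq_mul, mul_comm]
  rw [h1]
  exact Finset.sum_le_sum_of_subset_of_nonneg (Finset.filter_subset _ _)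
    (fun _ _ _ => (pow_pos hl _).le)

theorem indn_zero (H : Finset V) : indn G H 0 = {∅} := by
  ext I
  simp only [mem_indn, Finset.card_eq_zero, Finset.mem_singleton]
  constructor
  · exact fun h => h.2
  · rintro rfl
    exact ⟨empty_mem_ind H, rfl⟩

end Pool.Agent.K1H34.UHC
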