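import Mathlib
import Pool.Agent.K1H34.UHC.Basic

set_option autoImplicit false

/-!
# Counting copies of `K_{t,t}`
-/

namespace Pool.Agent.K1H34.UHC

open Finset Classical

variable {V : Type} [Fintype V] {G : SimpleGraph V}

set_option linter.unusedSectionVars false

/-- tuples with values in `Y` -/
noncomputable def Tup (t : ℕ) (Y : Finset V) : Finset (Fin t → V) := Fintype.piFinset fun _ => Y

theorem mem_Tup {t : ℕ} {Y : Finset V} {x : Fin t → V} : x ∈ Tup t Y ↔ ∀ i, x i ∈ Y := by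
  simp [Tup]

theorem card_Tup (t : ℕ) (Y : Finset V) : (Tup t Y).card = Y.card ^ t := by
  simp [Tup]

variable (G)

/-- homomorphic copies of `K_{t,t}` in `Y` -/
noncomputable def Hc (t : ℕ) (Y : Finset V) : Finset ((Fin t → V) × (Fin t → V)) :=
  (Tup t Y ×ˢ Tup t Y).filter (fun p => ∀ i j, G.Adj (p.1 i) (p.2 j))

/-- copies of `K_{t,t}` in `Y` -/
noncomputable def K (t : ℕ) (Y : Finset V) : Finset ((Fin t → V) × (Fin t → V)) :=
  (Hc G t Y).filter (fun p => Function.Injective p.1 ∧ Function.Injective p.2)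

variable {G}

theorem mem_Hc {t : ℕ} {Y : Finset V} {p : (Fin t → V) × (Fin t → V)} :
    p ∈ Hc G t Y ↔ ((∀ i, p.1 i ∈ Y) ∧ ∀ i, p.2 i ∈ Y) ∧ ∀ i j, G.Adj (p.1 i) (p.2 j) := by
  simp [Hc, mem_Tup]

theorem mem_K {t : ℕ} {Y : Finset V} {p : (Fin t → V) × (Fin t → V)} :
    p ∈ K G t Y ↔ (((∀ i, p.1 i ∈ Y) ∧ ∀ i, p.2 i ∈ Y) ∧ ∀ i j, G.Adj (p.1 i) (p.2 j)) ∧
      Function.Injective p.1 ∧ Function.Injective p.2 := by
  simp [K, mem_Hc]

/-- common neighbours in `Y` of a tuple -/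
noncomputable def cn (G : SimpleGraph V) {t : ℕ} (Y : Finset V) (x : Fin t → V) : Finset V :=
  Y.filter (fun y => ∀ i, G.Adj (x i) y)

theorem card_Hc (t : ℕ) (Y : Finset V) :
    ((Hc G t Y).card : ℝ) = ∑ x ∈ Tup t Y, ((cn G Y x).card : ℝ) ^ t := by
  have h1 : (Hc G t Y).card = ∑ x ∈ Tup t Y, (cn G Y x).card ^ t := by
    rw [Hc, Finset.card_filter, Finset.sum_product]
    refine Finset.sum_congr rfl fun x _ => ?_
    rw [← Finset.card_filter, ← card_Tup]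
    congr 1
    ext y
    simp only [Finset.mem_filter, mem_Tup, cn]
    constructor
    · rintro ⟨h1, h2⟩ i
      exact ⟨h1 i, fun j => h2 j i⟩
    · intro h
      exact ⟨fun i => (h i).1, fun i j => (h j).2 i⟩
  rw [h1]
  push_cast
  rfl

theorem sum_cn (t : ℕ) (Y : Finset V) :
    ∑ x ∈ Tup t Y, ((cn G Y x).card : ℝ) = ∑ y ∈ Y, ((N G Y y).card : ℝ) ^ t := by
  have h1 : ∑ x ∈ Tup t Y, (cn G Y x).card = ∑ y ∈ Y, (N G Y y).card ^ t := by
    simp only [cn, Finset.card_filter]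
    rw [Finset.sum_comm]
    refine Finset.sum_congr rfl fun y _ => ?_
    rw [← Finset.card_filter, ← card_Tup]
    congr 1
    ext x
    simp only [Finset.mem_filter, mem_Tup, mem_N]
    constructor
    · rintro ⟨h1, h2⟩ i
      exact ⟨h1 i, (h2 i).symm⟩
    · intro h
      exact ⟨fun i => (h i).1, fun i => (h i).2.symm⟩
  exact_mod_cast h1

theorem hom_lower (r : ℕ) (Y : Finset V) :
    (E G Y) ^ ((r + 1) * (r + 1)) ≤
      ((Hc G (r + 1) Y).card : ℝ) * (Y.card : ℝ) ^ (2 * (r * (r + 1))) := by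
  rcases Finset.eq_empty_or_nonempty Y with rfl | hY
  · simp only [E, Finset.sum_empty, Finset.card_empty, Nat.cast_zero]
    rw [zero_pow (by positivity)]
    positivity
  have hb : (0 : ℝ) < Y.card := by exact_mod_cast Finset.card_pos.2 hY
  have h1 := pow_sum_div_card_le_sum_pow (s := Y) (f := fun y => ((N G Y y).card : ℝ))
    (fun a _ => Nat.cast_nonneg _) r
  rw [← sum_cn, div_le_iff₀ (pow_pos hb _)] at h1
  have h2 := pow_sum_div_card_le_sum_pow (s := Tup (r + 1) Y)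
    (f := fun x => ((cn G Y x).card : ℝ)) (fun a _ => Nat.cast_nonneg _) r
  rw [← card_Hc, card_Tup] at h2
  push_cast at h2
  rw [div_le_iff₀ (pow_pos (pow_pos hb _) _)] at h2
  have hE : 0 ≤ E G Y := Finset.sum_nonneg fun _ _ => Nat.cast_nonneg _
  calc (E G Y) ^ ((r + 1) * (r + 1)) = ((E G Y) ^ (r + 1)) ^ (r + 1) := by rw [pow_mul]
    _ ≤ ((∑ x ∈ Tup (r + 1) Y, ((cn G Y x).card : ℝ)) * (Y.card : ℝ) ^ r) ^ (r + 1) :=
        pow_le_pow_left₀ (pow_nonneg hE _) h1 _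
    _ = (∑ x ∈ Tup (r + 1) Y, ((cn G Y x).card : ℝ)) ^ (r + 1) * ((Y.card : ℝ) ^ r) ^ (r + 1) :=
        mul_pow _ _ _
    _ ≤ (((Hc G (r + 1) Y).card : ℝ) * ((Y.card : ℝ) ^ (r + 1)) ^ r) *
          ((Y.card : ℝ) ^ r) ^ (r + 1) :=
        mul_le_mul_of_nonneg_right h2 (pow_nonneg (pow_nonneg hb.le _) _)
    _ = _ := by
        rw [mul_assoc, ← pow_mul, ← pow_mul, ← pow_add]
        congr 2
        ring

/-- few tuples are not injective -/
theorem noninj (t : ℕ) (Y : Finset V) :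
    (((Tup t Y).filter (fun x => ¬ Function.Injective x)).card : ℝ) ≤
      (t : ℝ) ^ 2 * (Y.card : ℝ) ^ (t - 1) := by
  have h1 : (Tup t Y).filter (fun x => ¬ Function.Injective x) ⊆
      (univ : Finset (Fin t × Fin t)).biUnion
        (fun q => (Tup t Y).filter (fun x => q.1 ≠ q.2 ∧ x q.1 = x q.2)) := by
    intro x hx
    rw [Finset.mem_filter] at hx
    obtain ⟨h2, h3⟩ := hx
    simp only [Function.Injective, not_forall] at h3
    obtain ⟨i, j, h4, h5⟩ := h3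
    rw [Finset.mem_biUnion]
    exact ⟨(i, j), Finset.mem_univ _, Finset.mem_filter.2 ⟨h2, h5, h4⟩⟩
  have h2 : ∀ q : Fin t × Fin t,
      ((Tup t Y).filter (fun x => q.1 ≠ q.2 ∧ x q.1 = x q.2)).card ≤ Y.card ^ (t - 1) := by
    intro q
    by_cases hq : q.1 = q.2
    · simp [hq]
    have h3 : ((Tup t Y).filter (fun x => q.1 ≠ q.2 ∧ x q.1 = x q.2)).card ≤
        (Fintype.piFinset (fun _ : {k : Fin t // k ≠ q.2} => Y)).card := by
      refine Finset.card_le_card_of_injOn (fun x k => x k) ?_ ?_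
      · intro x hx
        have hx' := Finset.mem_filter.1 (Finset.mem_coe.1 hx)
        rw [Finset.mem_coe, Fintype.mem_piFinset]
        intro k
        exact mem_Tup.1 hx'.1 k
      · intro x hx x' hx' h
        have hx1 := (Finset.mem_filter.1 (Finset.mem_coe.1 hx)).2.2
        have hx2 := (Finset.mem_filter.1 (Finset.mem_coe.1 hx')).2.2
        have h6 : ∀ k, k ≠ q.2 → x k = x' k := fun k hk => congrFun h ⟨k, hk⟩
        funext k
        by_cases hk : k = q.2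
        · rw [hk, ← hx1, ← hx2]
          exact h6 _ hq
        · exact h6 k hk
    refine h3.trans ?_
    rw [Fintype.card_piFinset]
    simp only [Finset.prod_const, Finset.card_univ]
    rw [Fintype.card_subtype_compl, Fintype.card_fin, Fintype.card_subtype_eq]
  have h3 : ((Tup t Y).filter (fun x => ¬ Function.Injective x)).card ≤
      t ^ 2 * Y.card ^ (t - 1) := by
    refine (Finset.card_le_card h1).trans (Finset.card_biUnion_le.trans ?_)
    refine (Finset.sum_le_sum fun q _ => h2 q).trans ?_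
    rw [Finset.sum_const, Finset.card_univ, Fintype.card_prod, Fintype.card_fin, smul_eq_mul, sq]
  exact_mod_cast h3

theorem card_K_ge (t : ℕ) (Y : Finset V) :
    ((Hc G t Y).card : ℝ) ≤ (K G t Y).card + 2 * (t : ℝ) ^ 2 * (Y.card : ℝ) ^ (t - 1 + t) := by
  have h1 : Hc G t Y ⊆ K G t Y ∪
      ((((Tup t Y).filter (fun x => ¬ Function.Injective x)) ×ˢ Tup t Y) ∪
      (Tup t Y ×ˢ ((Tup t Y).filter (fun x => ¬ Function.Injective x)))) := by
    intro p hp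
    have hp' := mem_Hc.1 hp
    rw [Finset.mem_union, Finset.mem_union, mem_K, Finset.mem_product, Finset.mem_product,
      Finset.mem_filter, Finset.mem_filter, mem_Tup, mem_Tup]
    tauto
  have h2 := (Finset.card_le_card h1).trans ((Finset.card_union_le _ _).trans
    (Nat.add_le_add_left (Finset.card_union_le _ _) _))
  rw [Finset.card_product, Finset.card_product] at h2
  have h3 : ((Hc G t Y).card : ℝ) ≤ (K G t Y).card +
      (((((Tup t Y).filter (fun x => ¬ Function.Injective x)).card : ℝ) * (Tup t Y).card) +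
      ((Tup t Y).card : ℝ) * ((Tup t Y).filter (fun x => ¬ Function.Injective x)).card) := by
    exact_mod_cast h2
  have h4 := noninj t Y
  have h5 : ((Tup t Y).card : ℝ) = (Y.card : ℝ) ^ t := by rw [card_Tup]; push_cast; rfl
  rw [h5] at h3
  have h6 : (0 : ℝ) ≤ (Y.card : ℝ) ^ t := pow_nonneg (Nat.cast_nonneg _) _
  have h7 := mul_le_mul_of_nonneg_right h4 h6
  rw [pow_add]
  nlinarith [h7, h3]

/-- many copies of `K_{t,t}` in a dense set -/
theorem K_lower (r : ℕ) (Y : Finset V) {b ρ : ℝ} (hb : 0 < b) (hρ : 0 ≤ ρ) (hY : (Y.card : ℝ) ≤ b)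
    (hE : ρ * b ^ 2 ≤ E G Y) :
    b ^ (2 * (r + 1)) * (ρ ^ ((r + 1) * (r + 1)) - 2 * ((r : ℝ) + 1) ^ 2 / b) ≤
      ((K G (r + 1) Y).card : ℝ) := by
  have h1 := hom_lower (G := G) r Y
  have h2 := card_K_ge (G := G) (r + 1) Y
  have h3 : (ρ * b ^ 2) ^ ((r + 1) * (r + 1)) ≤ (E G Y) ^ ((r + 1) * (r + 1)) :=
    pow_le_pow_left₀ (mul_nonneg hρ (sq_nonneg b)) hE _
  have h4 : (Y.card : ℝ) ^ (2 * (r * (r + 1))) ≤ b ^ (2 * (r * (r + 1))) :=
    pow_le_pow_left₀ (Nat.cast_nonneg _) hY _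
  have h5 : (Y.card : ℝ) ^ (r + (r + 1)) ≤ b ^ (r + (r + 1)) :=
    pow_le_pow_left₀ (Nat.cast_nonneg _) hY _
  have h6 : (ρ * b ^ 2) ^ ((r + 1) * (r + 1)) ≤
      ((Hc G (r + 1) Y).card : ℝ) * b ^ (2 * (r * (r + 1))) :=
    h3.trans (h1.trans (mul_le_mul_of_nonneg_left h4 (Nat.cast_nonneg _)))
  have h7 : ρ ^ ((r + 1) * (r + 1)) * b ^ (2 * (r + 1)) ≤ ((Hc G (r + 1) Y).card : ℝ) := by
    have h8 : (0 : ℝ) < b ^ (2 * (r * (r + 1))) := pow_pos hb _
    have h9 : (ρ * b ^ 2) ^ ((r + 1) * (r + 1)) =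
        (ρ ^ ((r + 1) * (r + 1)) * b ^ (2 * (r + 1))) * b ^ (2 * (r * (r + 1))) := by
      rw [mul_pow, ← pow_mul, mul_assoc, ← pow_add]
      congr 2
      ring
    rw [h9] at h6
    exact le_of_mul_le_mul_right h6 h8
  have h10 : b ^ (2 * (r + 1)) * (2 * ((r : ℝ) + 1) ^ 2 / b) =
      2 * ((r : ℝ) + 1) ^ 2 * b ^ (r + (r + 1)) := by
    have h11 : 2 * (r + 1) = (r + (r + 1)) + 1 := by omega
    rw [h11, pow_succ]
    field_simp
  have h12 : 2 * ((r : ℝ) + 1) ^ 2 * (Y.card : ℝ) ^ (r + (r + 1)) ≤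
      2 * ((r : ℝ) + 1) ^ 2 * b ^ (r + (r + 1)) :=
    mul_le_mul_of_nonneg_left h5 (by positivity)
  rw [Nat.add_sub_cancel] at h2
  push_cast at h2
  rw [mul_sub, h10]
  linarith [h2, h7, h12, mul_comm (ρ ^ ((r + 1) * (r + 1))) (b ^ (2 * (r + 1)))]

/-- a weighted upper bound for the number of copies of `K_{t,t}` -/
theorem K_upper (r : ℕ) (f : Finset V) :
    ∑ p ∈ K G (r + 1) f, (((N G f (p.1 0)).card : ℝ) ^ (r + 1))⁻¹ *
      (((N G f (p.2 0)).card : ℝ) ^ r)⁻¹ ≤ f.card := by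
  have h0 : ∑ p ∈ K G (r + 1) f, (((N G f (p.1 0)).card : ℝ) ^ (r + 1))⁻¹ *
      (((N G f (p.2 0)).card : ℝ) ^ r)⁻¹ ≤ ∑ p ∈ Hc G (r + 1) f,
      (((N G f (p.1 0)).card : ℝ) ^ (r + 1))⁻¹ * (((N G f (p.2 0)).card : ℝ) ^ r)⁻¹ :=
    Finset.sum_le_sum_of_subset_of_nonneg (Finset.filter_subset _ _) (fun _ _ _ => by positivity)
  refine h0.trans ?_
  set T : Finset (V × (Fin (r + 1) → V) × (Fin r → V)) :=
    univ.filter (fun q => q.1 ∈ f ∧ q.2.1 ∈ Tup (r + 1) (N G f q.1) ∧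
      q.2.2 ∈ Tup r (N G f (q.2.1 0))) with hT
  set g : (V × (Fin (r + 1) → V) × (Fin r → V)) → ℝ := fun q =>
    (((N G f q.1).card : ℝ) ^ (r + 1))⁻¹ * (((N G f (q.2.1 0)).card : ℝ) ^ r)⁻¹ with hg
  set e : (Fin (r + 1) → V) × (Fin (r + 1) → V) → (V × (Fin (r + 1) → V) × (Fin r → V)) :=
    fun p => (p.1 0, p.2, fun i => p.1 i.succ) with he
  have hinj : Function.Injective e := by
    rintro ⟨x, y⟩ ⟨x', y'⟩ h
    simp only [he, Prod.mk.injEq] at h
    obtain ⟨h1, h2, h3⟩ := h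
    refine Prod.ext ?_ h2
    funext i
    refine Fin.cases h1 (fun j => congrFun h3 j) i
  have h1 : ∑ p ∈ Hc G (r + 1) f, (((N G f (p.1 0)).card : ℝ) ^ (r + 1))⁻¹ *
      (((N G f (p.2 0)).card : ℝ) ^ r)⁻¹ = ∑ q ∈ (Hc G (r + 1) f).image e, g q := by
    rw [Finset.sum_image (fun a _ b _ h => hinj h)]
  have h2 : (Hc G (r + 1) f).image e ⊆ T := by
    intro q hq
    rw [Finset.mem_image] at hq
    obtain ⟨p, hp, rfl⟩ := hq
    rw [mem_Hc] at hp
    rw [hT, Finset.mem_filter]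
    refine ⟨Finset.mem_univ _, hp.1.1 0, mem_Tup.2 fun i => mem_N.2 ⟨hp.1.2 i, hp.2 0 i⟩,
      mem_Tup.2 fun i => mem_N.2 ⟨hp.1.1 _, (hp.2 _ 0).symm⟩⟩
  have h3 : ∑ q ∈ T, g q = ∑ u ∈ f, ∑ y ∈ Tup (r + 1) (N G f u), ∑ _x ∈ Tup r (N G f (y 0)),
      (((N G f u).card : ℝ) ^ (r + 1))⁻¹ * (((N G f (y 0)).card : ℝ) ^ r)⁻¹ := by
    rw [hT, Finset.sum_filter, Fintype.sum_prod_type]
    rw [← Finset.sum_subset (Finset.subset_univ f)]
    · refine Finset.sum_congr rfl fun u hu => ?_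
      rw [Fintype.sum_prod_type, ← Finset.sum_subset (Finset.subset_univ (Tup (r + 1) (N G f u)))]
      · refine Finset.sum_congr rfl fun y hy => ?_
        rw [← Finset.sum_subset (Finset.subset_univ (Tup r (N G f (y 0))))]
        · refine Finset.sum_congr rfl fun x hx => ?_
          rw [if_pos ⟨hu, hy, hx⟩]
        · intro x _ hx
          rw [if_neg (fun h => hx h.2.2)]
      · intro y _ hy
        refine Finset.sum_eq_zero fun x _ => ?_
        rw [if_neg (fun h => hy h.2.1)]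
    · intro u _ hu
      refine Finset.sum_eq_zero fun x _ => ?_
      rw [if_neg (fun h => hu h.1)]
  rw [h1]
  refine (Finset.sum_le_sum_of_subset_of_nonneg h2 (fun q _ _ => by
    simp only [hg]; positivity)).trans ?_
  rw [h3]
  have h4 : ∀ u ∈ f, ∑ y ∈ Tup (r + 1) (N G f u), ∑ _x ∈ Tup r (N G f (y 0)),
      (((N G f u).card : ℝ) ^ (r + 1))⁻¹ * (((N G f (y 0)).card : ℝ) ^ r)⁻¹ ≤ 1 := by
    intro u _
    have h5 : ∀ y ∈ Tup (r + 1) (N G f u), ∑ _x ∈ Tup r (N G f (y 0)),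
        (((N G f u).card : ℝ) ^ (r + 1))⁻¹ * (((N G f (y 0)).card : ℝ) ^ r)⁻¹ ≤
        (((N G f u).card : ℝ) ^ (r + 1))⁻¹ := by
      intro y _
      rw [Finset.sum_const, card_Tup, nsmul_eq_mul]
      push_cast
      have h6 : ((N G f (y 0)).card : ℝ) ^ r * (((N G f (y 0)).card : ℝ) ^ r)⁻¹ ≤ 1 :=
        mul_inv_le_one
      calc ((N G f (y 0)).card : ℝ) ^ r * ((((N G f u).card : ℝ) ^ (r + 1))⁻¹ *
            (((N G f (y 0)).card : ℝ) ^ r)⁻¹)
          = (((N G f u).card : ℝ) ^ (r + 1))⁻¹ *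
            (((N G f (y 0)).card : ℝ) ^ r * (((N G f (y 0)).card : ℝ) ^ r)⁻¹) := by ring
        _ ≤ (((N G f u).card : ℝ) ^ (r + 1))⁻¹ * 1 :=
            mul_le_mul_of_nonneg_left h6 (by positivity)
        _ = _ := mul_one _
    refine (Finset.sum_le_sum h5).trans ?_
    rw [Finset.sum_const, card_Tup, nsmul_eq_mul]
    push_cast
    exact mul_inv_le_one
  refine (Finset.sum_le_sum h4).trans ?_
  simp

/-- no copy of `K_{t,t}` with more than `s` common neighbours -/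
def Rare (G : SimpleGraph V) (t s : ℕ) : Prop :=
  ∀ x y : Fin t → V, Function.Injective x → Function.Injective y →
    (∀ i j, G.Adj (x i) (y j)) →
    (univ.filter (fun v => (∀ i, G.Adj v (x i)) ∧ ∀ i, G.Adj v (y i))).card ≤ s

theorem double_count {t s : ℕ} (hR : Rare G t s) (f B : Finset V)
    (g : (Fin t → V) × (Fin t → V) → ℝ) (hg : ∀ p, 0 ≤ g p) :
    ∑ v ∈ B, ∑ p ∈ K G t (N G f v), g p ≤ s * ∑ p ∈ K G t f, g p := by
  have h1 : ∀ v, ∑ p ∈ K G t (N G f v), g p =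
      ∑ p ∈ K G t f, if ((∀ i, G.Adj v (p.1 i)) ∧ ∀ i, G.Adj v (p.2 i)) then g p else 0 := by
    intro v
    rw [← Finset.sum_filter]
    refine Finset.sum_congr ?_ fun _ _ => rfl
    ext p
    simp only [Finset.mem_filter, mem_K, mem_N]
    constructor
    · rintro ⟨⟨⟨h1, h2⟩, h3⟩, h4⟩
      exact ⟨⟨⟨⟨fun i => (h1 i).1, fun i => (h2 i).1⟩, h3⟩, h4⟩, fun i => (h1 i).2,
        fun i => (h2 i).2⟩
    · rintro ⟨⟨⟨⟨h1, h2⟩, h3⟩, h4⟩, h5, h6⟩
      exact ⟨⟨⟨fun i => ⟨h1 i, h5 i⟩, fun i => ⟨h2 i, h6 i⟩⟩, h3⟩, h4⟩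
  rw [Finset.sum_congr rfl (fun v _ => h1 v), Finset.sum_comm, Finset.mul_sum]
  refine Finset.sum_le_sum fun p hp => ?_
  rw [mem_K] at hp
  have h2 := hR p.1 p.2 hp.2.1 hp.2.2 hp.1.2
  rw [← Finset.sum_filter, Finset.sum_const, nsmul_eq_mul]
  refine mul_le_mul_of_nonneg_right ?_ (hg p)
  have h3 : (B.filter (fun v => (∀ i, G.Adj v (p.1 i)) ∧ ∀ i, G.Adj v (p.2 i))).card ≤ s := by
    refine le_trans (Finset.card_le_card ?_) h2
    exact Finset.filter_subset_filter _ (Finset.subset_univ _)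
  exact_mod_cast h3

end Pool.Agent.K1H34.UHC
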