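import Mathlib

set_option autoImplicit false

/-!
# A numerical lemma on the sizes of random independent sets
-/

namespace Pool.Agent.K1H34.UHC

open Finset

/-- a level at which many sets live and after which the number of free vertices drops -/
theorem seq (w : ℕ → ℝ) (Nn kk L : ℕ) (Zt Lam M x δ : ℝ)
    (h0 : ∀ n, 0 ≤ w n) (hdown : ∀ n, 0 < w (n + 1) → 0 < w n)
    (hZ : ∑ n ∈ range (Nn + 1), w n = Zt) (hsup : ∀ n, Nn < n → w n = 0) (hZpos : 0 < Zt)
    (hk : ∑ n ∈ range (Nn + 1), (n : ℝ) * w n ≤ kk * Zt)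
    (hw0 : w 0 < Zt / Lam) (hLam : 0 < Lam) (hx : 0 < x) (hx1 : x ≤ 1) (hM : 2 ≤ M)
    (h1 : Real.exp (M * x) * (1 / x) ^ (2 * kk) * (2 * (2 * kk + 1)) < Lam)
    (h2 : Lam < 2 ^ L) (h3 : 4 * ((2 * kk : ℝ) + L) ≤ M) (hδ0 : 0 ≤ δ) (hδ : (L : ℝ) * δ ≤ 1 / 2)
    (hδ1 : δ ≤ 1) :
    ∃ n, 0 < w n ∧ w n ≤ (n + 1) * w (n + 1) ∧ Zt ≤ Lam * ((n + 1) * w (n + 1)) ∧
      ((n : ℝ) + 2) * w (n + 2) * w n < (1 - δ) * ((n + 1) * w (n + 1) ^ 2) := by
  -- all terms are at most `Zt`
  have hle : ∀ n, w n ≤ Zt := by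
    intro n
    by_cases hn : Nn < n
    · rw [hsup n hn]; exact hZpos.le
    · rw [← hZ]
      exact Finset.single_le_sum (fun i _ => h0 i) (Finset.mem_range.2 (by omega))
  -- a popular size
  obtain ⟨j2, hj2, hj2w⟩ : ∃ j2, j2 ≤ 2 * kk ∧ Zt ≤ 2 * (2 * kk + 1) * w j2 := by
    by_contra hcon
    push Not at hcon
    have h4 : ∑ n ∈ (range (Nn + 1)).filter (fun n => n ≤ 2 * kk), w n < Zt / 2 := by
      have h5 : ∑ n ∈ (range (Nn + 1)).filter (fun n => n ≤ 2 * kk), w n ≤
          ∑ n ∈ range (2 * kk + 1), w n := by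
        apply Finset.sum_le_sum_of_subset_of_nonneg
        · intro n hn
          rw [Finset.mem_filter] at hn
          rw [Finset.mem_range]
          omega
        · intro n _ _
          exact h0 n
      have h6 : ∑ n ∈ range (2 * kk + 1), w n <
          ∑ _n ∈ range (2 * kk + 1), Zt / (2 * (2 * kk + 1)) := by
        apply Finset.sum_lt_sum_of_nonempty ⟨0, Finset.mem_range.2 (by omega)⟩
        intro n hn
        have h7 := hcon n (by rw [Finset.mem_range] at hn; omega)
        rw [lt_div_iff₀ (by positivity)]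
        linarith
      rw [Finset.sum_const, Finset.card_range, nsmul_eq_mul] at h6
      have h8 : ((2 * kk + 1 : ℕ) : ℝ) * (Zt / (2 * (2 * kk + 1))) = Zt / 2 := by
        push_cast
        field_simp
      linarith
    have h9 : ∑ n ∈ (range (Nn + 1)).filter (fun n => ¬ n ≤ 2 * kk), w n ≤ Zt / 2 := by
      by_cases hkk : kk = 0
      · subst hkk
        have h10 : ∑ n ∈ (range (Nn + 1)).filter (fun n => ¬ n ≤ 2 * 0), w n ≤
            ∑ n ∈ range (Nn + 1), (n : ℝ) * w n := by
          refine le_trans (Finset.sum_le_sum (g := fun n : ℕ => (n : ℝ) * w n) ?_)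
            (Finset.sum_le_sum_of_subset_of_nonneg (Finset.filter_subset _ _) ?_)
          · intro n hn
            rw [Finset.mem_filter] at hn
            have h11 : (1 : ℝ) ≤ n := by exact_mod_cast (by omega : 1 ≤ n)
            nlinarith [h0 n]
          · intro n _ _
            exact mul_nonneg (Nat.cast_nonneg _) (h0 n)
        simp only [Nat.cast_zero, zero_mul] at hk
        linarith
      · have hkk' : (0 : ℝ) < kk := by exact_mod_cast Nat.pos_of_ne_zero hkk
        have h10 : (2 * kk : ℝ) * ∑ n ∈ (range (Nn + 1)).filter (fun n => ¬ n ≤ 2 * kk), w n ≤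
            ∑ n ∈ range (Nn + 1), (n : ℝ) * w n := by
          rw [Finset.mul_sum]
          refine le_trans (Finset.sum_le_sum (g := fun n : ℕ => (n : ℝ) * w n) ?_)
            (Finset.sum_le_sum_of_subset_of_nonneg (Finset.filter_subset _ _) ?_)
          · intro n hn
            rw [Finset.mem_filter] at hn
            have h11 : (2 * kk : ℝ) ≤ n := by exact_mod_cast (by omega : 2 * kk ≤ n)
            exact mul_le_mul_of_nonneg_right h11 (h0 n)
          · intro n _ _
            exact mul_nonneg (Nat.cast_nonneg _) (h0 n)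
        have h12 : (2 * kk : ℝ) * ∑ n ∈ (range (Nn + 1)).filter (fun n => ¬ n ≤ 2 * kk), w n ≤
          kk * Zt := h10.trans hk
        have h13 : (kk : ℝ) * (2 * ∑ n ∈ (range (Nn + 1)).filter (fun n => ¬ n ≤ 2 * kk), w n) ≤
          kk * Zt := by linarith
        have h14 := le_of_mul_le_mul_left h13 hkk'
        linarith
    have h15 := Finset.sum_filter_add_sum_filter_not (range (Nn + 1)) (fun n => n ≤ 2 * kk) w
    rw [hZ] at h15
    linarith
  -- a size with large ratio
  obtain ⟨s, hs1, hs2, hs3, hs4⟩ : ∃ s, 1 ≤ s ∧ s ≤ 2 * kk ∧ Zt / Lam ≤ w s ∧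
      M * w (s - 1) ≤ s * w s := by
    by_contra hcon
    push Not at hcon
    have hex : ∃ d, w (j2 - d) < Zt / Lam := ⟨j2, by simpa using hw0⟩
    set d0 := Nat.find hex with hd0
    have hd1 : w (j2 - d0) < Zt / Lam := Nat.find_spec hex
    have hd2 : ∀ d, d < d0 → Zt / Lam ≤ w (j2 - d) := fun d hd =>
      not_lt.1 (Nat.find_min hex hd)
    have hd3 : d0 ≤ j2 := Nat.find_min' hex (by simpa using hw0)
    have hd4 : ∀ d, d ≤ d0 → w j2 * (j2.descFactorial d : ℝ) ≤ w (j2 - d) * M ^ d := by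
      intro d
      induction d with
      | zero => intro _; simp
      | succ d ih =>
        intro hd
        have h4 := ih (by omega)
        have h5 := hcon (j2 - d) (by omega) (by omega) (hd2 d (by omega))
        have h6 : j2 - d - 1 = j2 - (d + 1) := by omega
        rw [h6] at h5
        have hM0 : 0 < M := by linarith
        rw [Nat.descFactorial_succ, pow_succ]
        push_cast
        have h7 : (0 : ℝ) ≤ ((j2 - d : ℕ) : ℝ) := Nat.cast_nonneg _
        calc w j2 * (((j2 - d : ℕ) : ℝ) * (j2.descFactorial d : ℝ)) =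
              ((j2 - d : ℕ) : ℝ) * (w j2 * (j2.descFactorial d : ℝ)) := by ring
          _ ≤ ((j2 - d : ℕ) : ℝ) * (w (j2 - d) * M ^ d) := mul_le_mul_of_nonneg_left h4 h7
          _ = (((j2 - d : ℕ) : ℝ) * w (j2 - d)) * M ^ d := by ring
          _ ≤ (M * w (j2 - (d + 1))) * M ^ d :=
              mul_le_mul_of_nonneg_right h5.le (pow_nonneg hM0.le _)
          _ = w (j2 - (d + 1)) * (M ^ d * M) := by ring
    have h4 := hd4 d0 le_rfl
    have h5 : (d0.factorial : ℝ) ≤ (j2.descFactorial d0 : ℝ) := by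
      rw [Nat.descFactorial_eq_factorial_mul_choose]
      have h6 : 0 < j2.choose d0 := Nat.choose_pos hd3
      exact_mod_cast Nat.le_mul_of_pos_right _ h6
    have h6 : w j2 * (d0.factorial : ℝ) ≤ (Zt / Lam) * M ^ d0 :=
      (mul_le_mul_of_nonneg_left h5 (h0 _)).trans (h4.trans
        (mul_le_mul_of_nonneg_right hd1.le (pow_nonneg (by linarith) _)))
    have h7 : M ^ d0 ≤ d0.factorial * (Real.exp (M * x) * (1 / x) ^ (2 * kk)) := by
      have h8 : (M * x) ^ d0 / d0.factorial ≤ Real.exp (M * x) :=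
        Real.pow_div_factorial_le_exp (M * x) (by nlinarith) d0
      rw [div_le_iff₀ (by positivity)] at h8
      have h9 : M ^ d0 = (M * x) ^ d0 * (1 / x) ^ d0 := by
        rw [← mul_pow]
        congr 1
        field_simp
      have h10 : (1 : ℝ) ≤ 1 / x := by
        rw [le_div_iff₀ hx]; linarith
      have h11 : (1 / x) ^ d0 ≤ (1 / x) ^ (2 * kk) := pow_le_pow_right₀ h10 (by omega)
      rw [h9]
      calc (M * x) ^ d0 * (1 / x) ^ d0 ≤ (Real.exp (M * x) * d0.factorial) * (1 / x) ^ (2 * kk) :=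
            mul_le_mul h8 h11 (by positivity) (by positivity)
        _ = _ := by ring
    have h8 : w j2 ≤ (Zt / Lam) * (Real.exp (M * x) * (1 / x) ^ (2 * kk)) := by
      have h9 : (0 : ℝ) < d0.factorial := by positivity
      have h10 : w j2 * (d0.factorial : ℝ) ≤
          ((Zt / Lam) * (Real.exp (M * x) * (1 / x) ^ (2 * kk))) * d0.factorial := by
        refine h6.trans ?_
        calc (Zt / Lam) * M ^ d0 ≤
              (Zt / Lam) * (d0.factorial * (Real.exp (M * x) * (1 / x) ^ (2 * kk))) :=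
              mul_le_mul_of_nonneg_left h7 (by positivity)
          _ = _ := by ring
      exact le_of_mul_le_mul_right h10 h9
    have h9 : Zt ≤ (Zt / Lam) * (Real.exp (M * x) * (1 / x) ^ (2 * kk) * (2 * (2 * kk + 1))) := by
      calc Zt ≤ 2 * (2 * kk + 1) * w j2 := hj2w
        _ ≤ 2 * (2 * kk + 1) * ((Zt / Lam) * (Real.exp (M * x) * (1 / x) ^ (2 * kk))) :=
            mul_le_mul_of_nonneg_left h8 (by positivity)
        _ = _ := by ring
    have h10 : (Zt / Lam) * (Real.exp (M * x) * (1 / x) ^ (2 * kk) * (2 * (2 * kk + 1))) <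
        (Zt / Lam) * Lam := mul_lt_mul_of_pos_left h1 (by positivity)
    have h11 : (Zt / Lam) * Lam = Zt := by field_simp
    linarith
  -- walk upwards
  by_contra hcon
  push Not at hcon
  have hM0 : 0 < M := by linarith
  have hpow : ∀ l : ℕ, l ≤ L → (1 / 2 : ℝ) ≤ (1 - δ) ^ l := by
    intro l hl
    have h4 := one_add_mul_le_pow (a := -δ) (by linarith) l
    have h5 : (l : ℝ) * δ ≤ 1 / 2 :=
      (mul_le_mul_of_nonneg_right (by exact_mod_cast hl) hδ0).trans hδ
    have h6 : (1 : ℝ) + -δ = 1 - δ := by ring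
    rw [h6] at h4
    linarith
  have hspos : 0 < w s := lt_of_lt_of_le (by positivity) hs3
  have key : ∀ l : ℕ, l ≤ L → 2 ^ l * w s ≤ w (s + l) ∧
      (1 - δ) ^ l * M * w (s + l - 1) ≤ (s + l : ℕ) * w (s + l) := by
    intro l
    induction l with
    | zero =>
      intro _
      simpa using hs4
    | succ l ih =>
      intro hl
      obtain ⟨ih1, ih2⟩ := ih (by omega)
      obtain ⟨n, hn⟩ : ∃ n, s + l = n + 1 := ⟨s + l - 1, by omega⟩
      have hn' : s + (l + 1) = n + 2 := by omega
      rw [hn] at ih1 ih2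
      rw [hn']
      have hw1 : w s ≤ w (n + 1) := by
        have h4 : (1 : ℝ) ≤ 2 ^ l := one_le_pow₀ (by norm_num)
        nlinarith
      have hw2 : 0 < w (n + 1) := by linarith
      have hw3 : 0 < w n := hdown n hw2
      have e1 : n + 1 - 1 = n := rfl
      have e2 : n + 2 - 1 = n + 1 := rfl
      rw [e1] at ih2
      rw [e2]
      push_cast at ih2 ⊢
      have hn1 : (0 : ℝ) ≤ n := Nat.cast_nonneg _
      have hw4 : w n ≤ (n + 1) * w (n + 1) := by
        have h4 := hpow l (by omega)
        have h5 : 1 ≤ (1 - δ) ^ l * M := by nlinarith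
        nlinarith
      have hw5 : Zt ≤ Lam * ((n + 1) * w (n + 1)) := by
        rw [div_le_iff₀ hLam] at hs3
        have h4 : w (n + 1) ≤ (n + 1) * w (n + 1) := by nlinarith
        nlinarith
      have h4 := hcon n hw3 hw4 hw5
      have hd : 0 ≤ 1 - δ := by linarith
      have h5 : (1 - δ) ^ (l + 1) * M * w (n + 1) ≤ (n + 2) * w (n + 2) := by
        have h6 : (1 - δ) ^ (l + 1) * M * w (n + 1) * w n ≤ (n + 2) * w (n + 2) * w n := by
          refine le_trans ?_ h4
          have h7 : (1 - δ) * (w (n + 1) * ((1 - δ) ^ l * M * w n)) ≤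
              (1 - δ) * (w (n + 1) * ((n + 1) * w (n + 1))) :=
            mul_le_mul_of_nonneg_left (mul_le_mul_of_nonneg_left ih2 hw2.le) hd
          calc (1 - δ) ^ (l + 1) * M * w (n + 1) * w n =
                (1 - δ) * (w (n + 1) * ((1 - δ) ^ l * M * w n)) := by ring
            _ ≤ _ := h7
            _ = _ := by ring
        exact le_of_mul_le_mul_right h6 hw3
      refine ⟨?_, h5⟩
      have h6 := hpow (l + 1) hl
      have h7 : (4 : ℝ) * (n + 2) ≤ M := by
        have h8 : (n + 2 : ℝ) ≤ 2 * kk + L := by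
          have h9 : n + 2 ≤ 2 * kk + L := by omega
          exact_mod_cast h9
        linarith
      have h8 : 2 * w (n + 1) ≤ w (n + 2) := by
        have h9 : (n + 2 : ℝ) * (2 * w (n + 1)) ≤ (n + 2) * w (n + 2) := by
          refine le_trans ?_ h5
          have h10 : (n + 2 : ℝ) * 2 ≤ (1 - δ) ^ (l + 1) * M := by nlinarith
          calc (n + 2 : ℝ) * (2 * w (n + 1)) = ((n + 2 : ℝ) * 2) * w (n + 1) := by ring
            _ ≤ _ := mul_le_mul_of_nonneg_right h10 hw2.le
        exact le_of_mul_le_mul_left h9 (by positivity)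
      rw [pow_succ]
      linarith
  have h4 := (key L le_rfl).1
  have h5 := hle (s + L)
  rw [div_le_iff₀ hLam] at hs3
  nlinarith

end Pool.Agent.K1H34.UHC
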