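import Mathlib
import Pool.Agent.K1H34.UHC.Count
import Pool.Agent.K1H34.UHC.Seq

set_option autoImplicit false

/-!
# The local lemma: many copies of `K_{t,t}` among the free vertices
-/

namespace Pool.Agent.K1H34.UHC

open Finset Classical

variable {V : Type} [Fintype V] {G : SimpleGraph V}

set_option linter.unusedSectionVars false

theorem E_nonneg (X : Finset V) : 0 ≤ E G X := Finset.sum_nonneg fun _ _ => Nat.cast_nonneg _

theorem card_N_le (X : Finset V) (u : V) : ((N G X u).card : ℝ) ≤ X.card := by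
  exact_mod_cast Finset.card_le_card (Finset.filter_subset _ _)

theorem E_le_sq (X : Finset V) : E G X ≤ (X.card : ℝ) ^ 2 := by
  unfold E
  refine (Finset.sum_le_sum fun u _ => card_N_le X u).trans ?_
  rw [Finset.sum_const, nsmul_eq_mul, sq]

theorem E_sdiff {X T : Finset V} (hT : T ⊆ X) :
    E G X ≤ E G (X \ T) + 2 * (T.card : ℝ) * X.card := by
  unfold E
  rw [← Finset.sum_sdiff hT]
  have h1 : ∀ u ∈ X \ T, ((N G X u).card : ℝ) ≤ (N G (X \ T) u).card + T.card := by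
    intro u _
    have h2 : N G X u ⊆ N G (X \ T) u ∪ T := by
      intro w hw
      rw [mem_N] at hw
      rw [Finset.mem_union, mem_N, Finset.mem_sdiff]
      by_cases h : w ∈ T
      · exact Or.inr h
      · exact Or.inl ⟨⟨hw.1, h⟩, hw.2⟩
    exact_mod_cast (Finset.card_le_card h2).trans (Finset.card_union_le _ _)
  have h2 : ∑ u ∈ X \ T, ((N G X u).card : ℝ) ≤
      ∑ u ∈ X \ T, ((N G (X \ T) u).card : ℝ) + (T.card : ℝ) * X.card := by
    refine (Finset.sum_le_sum h1).trans ?_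
    rw [Finset.sum_add_distrib, Finset.sum_const, nsmul_eq_mul]
    have h3 : ((X \ T).card : ℝ) ≤ X.card := by
      exact_mod_cast Finset.card_le_card Finset.sdiff_subset
    nlinarith [Nat.cast_nonneg (α := ℝ) T.card]
  have h3 : ∑ u ∈ T, ((N G X u).card : ℝ) ≤ (T.card : ℝ) * X.card := by
    refine (Finset.sum_le_sum fun u _ => card_N_le X u).trans ?_
    rw [Finset.sum_const, nsmul_eq_mul]
  linarith

theorem sum_ind_card (lam : ℝ) (S : Finset V) (φ : ℕ → ℝ) :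
    ∑ I ∈ ind G S, lam ^ I.card * φ I.card =
      ∑ n ∈ range (S.card + 1), φ n * (lam ^ n * (indn G S n).card) := by
  rw [← Finset.sum_fiberwise_of_maps_to (t := range (S.card + 1)) (g := fun I => I.card)]
  · refine Finset.sum_congr rfl fun n _ => ?_
    show ∑ I ∈ indn G S n, lam ^ I.card * φ I.card = _
    rw [Finset.sum_congr rfl (fun I hI => by rw [(mem_indn.1 hI).2])]
    rw [Finset.sum_const, nsmul_eq_mul]
    ring
  · intro I hI
    rw [Finset.mem_range]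
    have := Finset.card_le_card (mem_ind.1 hI).1
    omega

theorem indn_down {S : Finset V} {n : ℕ} (h : 0 < (indn G S (n + 1)).card) :
    0 < (indn G S n).card := by
  rw [Finset.card_pos] at h ⊢
  obtain ⟨J, hJ⟩ := h
  rw [mem_indn] at hJ
  obtain ⟨u, hu⟩ : J.Nonempty := by
    rw [← Finset.card_pos, hJ.2]; omega
  refine ⟨J.erase u, mem_indn.2 ⟨ind_down hJ.1 (Finset.erase_subset _ _), ?_⟩⟩
  rw [Finset.card_erase_of_mem hu, hJ.2]
  rfl

theorem indn_empty {S : Finset V} {n : ℕ} (h : S.card < n) : (indn G S n).card = 0 := by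
  rw [Finset.card_eq_zero, Finset.eq_empty_iff_forall_notMem]
  intro I hI
  rw [mem_indn, mem_ind] at hI
  have := Finset.card_le_card hI.1.1
  omega

theorem aux1 {a P d : ℝ} (ha : a ≠ 0) : a * (d * P / a) ^ 2 = d ^ 2 * (P ^ 2 / a) := by
  field_simp

theorem aux2 {Zt Lam lam R d : ℝ} (r : ℕ) (hL : Lam ≠ 0) (hl : lam ≠ 0) :
    Zt * (R * (d / 4) ^ (2 * r) * d / (16 * Lam * lam ^ (2 * r + 2))) =
      (Zt / (Lam * lam)) * ((d / 4 * (1 / lam)) ^ (2 * r) * (R / 2) *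
          (d / 4 * (1 / lam) / 2)) := by
  rw [mul_pow, one_div, inv_pow, pow_add]
  field_simp
  ring

theorem num1 {a P Q2 Et δ : ℝ} (ha0 : 0 < a) (hP0 : 0 < P) (hδ0 : 0 < δ) (hδ1 : δ ≤ 1)
    (hdrop : (Q2 - P - Et) * a < (1 - δ) * P ^ 2) (hCS : P ^ 2 ≤ a * Q2) (hδP : 2 * a ≤ δ * P) :
    δ / 2 * P ^ 2 < Et * a ∧ 0 < Et ∧ δ * Q2 ≤ 3 * Et := by
  have hEta : δ / 2 * P ^ 2 < Et * a := by nlinarith
  have hEt0 : 0 < Et := by
    by_contra hcon
    nlinarith [sq_nonneg P]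
  refine ⟨hEta, hEt0, ?_⟩
  have h4 : Q2 * a < Et * a + P ^ 2 := by nlinarith
  have h5 : (δ * Q2) * a ≤ (3 * Et) * a := by nlinarith
  exact le_of_mul_le_mul_right h5 ha0

theorem num2 {a P Et E1 δ D B Lam lam Sh : ℝ} (ha0 : 0 < a)
    (hD0 : 0 ≤ D) (hSh0 : 0 ≤ Sh) (h4 : Et ≤ E1 + 2 * D * Sh)
    (hSh : Sh ≤ B * Lam * (lam * P)) (hF1 : a ≤ lam * P)
    (N1 : 8 * D * B * Lam * lam ^ 2 ≤ δ) (hEta : δ / 2 * P ^ 2 < Et * a) : Et ≤ 2 * E1 := by
  have h5 : 2 * D * Sh ≤ 2 * D * (B * Lam * (lam * P)) :=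
    mul_le_mul_of_nonneg_left hSh (by linarith)
  have h6 : 2 * D * (B * Lam * (lam * P)) ≤ Et / 2 := by
    have h7 : (2 * D * (B * Lam * (lam * P))) * a ≤ (Et / 2) * a := by
      have h8 : (2 * D * (B * Lam * (lam * P))) * a ≤
          (2 * D * (B * Lam * (lam * P))) * (lam * P) := by
        refine mul_le_mul_of_nonneg_left hF1 ?_
        refine le_trans ?_ h5
        positivity
      have h9 : (2 * D * (B * Lam * (lam * P))) * (lam * P) =
          (8 * D * B * Lam * lam ^ 2) * (P ^ 2 / 4) := by ring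
      have h10 : (8 * D * B * Lam * lam ^ 2) * (P ^ 2 / 4) ≤ δ * (P ^ 2 / 4) :=
        mul_le_mul_of_nonneg_right N1 (by positivity)
      nlinarith
    exact le_of_mul_le_mul_right h7 ha0
  linarith

theorem num3 {a P E1 Q2 δ : ℝ} (ha0 : 0 < a) (hδ0 : 0 < δ) (hδ1 : δ ≤ 1)
    (hE1P : δ / 4 * P ^ 2 ≤ E1 * a) (hQ2E1 : δ * Q2 ≤ 6 * E1) :
    δ / 24 * Q2 + a * (δ / 4 * P / a) ^ 2 ≤ E1 / 2 := by
  have h5 : δ / 24 * Q2 ≤ E1 / 4 := by linarith
  have h6 : a * (δ / 4 * P / a) ^ 2 ≤ E1 / 4 := by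
    have h7 : a * (δ / 4 * P / a) ^ 2 = (δ / 4) ^ 2 * (P ^ 2 / a) := aux1 ha0.ne'
    rw [h7]
    have h8 : δ / 4 * (P ^ 2 / a) ≤ E1 := by
      rw [mul_div_assoc', div_le_iff₀ ha0]
      exact hE1P
    have h9 : 0 ≤ P ^ 2 / a := by positivity
    have h10 : 0 ≤ δ / 4 * (P ^ 2 / a) := by positivity
    calc (δ / 4) ^ 2 * (P ^ 2 / a) = δ / 4 * (δ / 4 * (P ^ 2 / a)) := by ring
      _ ≤ 1 / 4 * (δ / 4 * (P ^ 2 / a)) :=
        mul_le_mul_of_nonneg_right (by linarith) h10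
      _ ≤ E1 / 4 := by linarith
  linarith

theorem num4 {lam lamn a P E1 R δ Zt Lam : ℝ} (r : ℕ) (ha0 : 0 < a) (hl : 0 < lam)
    (hLam : 0 < Lam) (hln : 0 < lamn) (hδ0 : 0 < δ) (hR : 0 ≤ R) (hP0 : 0 < P)
    (hF1 : a ≤ lam * P) (hE1P : δ / 4 * P ^ 2 ≤ E1 * a) (hF2 : Zt ≤ Lam * (lamn * (lam * P))) :
    Zt * (R * (δ / 4) ^ (2 * r) * δ / (16 * Lam * lam ^ (2 * r + 2))) ≤
      lamn * ((δ / 4 * (P / a)) ^ (2 * r) * (R / 2) * (E1 / 2)) := by
  have h4 : δ / 4 * P * (P / a) ≤ E1 := by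
    rw [mul_div_assoc', div_le_iff₀ ha0]
    calc δ / 4 * P * P = δ / 4 * P ^ 2 := by ring
      _ ≤ _ := hE1P
  have h5 : (1 / lam) ≤ P / a := by
    rw [div_le_div_iff₀ hl ha0]; linarith
  have h6 : Zt / (Lam * lam) ≤ lamn * P := by
    rw [div_le_iff₀ (by positivity)]
    calc Zt ≤ _ := hF2
      _ = _ := by ring
  calc Zt * (R * (δ / 4) ^ (2 * r) * δ / (16 * Lam * lam ^ (2 * r + 2)))
      = (Zt / (Lam * lam)) * ((δ / 4 * (1 / lam)) ^ (2 * r) * (R / 2) *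
          (δ / 4 * (1 / lam) / 2)) := aux2 r hLam.ne' hl.ne'
    _ ≤ (lamn * P) * ((δ / 4 * (P / a)) ^ (2 * r) * (R / 2) * (δ / 4 * (P / a) / 2)) := by
        gcongr
    _ = lamn * ((δ / 4 * (P / a)) ^ (2 * r) * (R / 2) * ((δ / 4 * P * (P / a)) / 2)) := by
        ring
    _ ≤ _ := by gcongr

theorem num5 {b c δ R L1 : ℝ} (r : ℕ) (hb : 0 < b) (hR : 0 < R) (hc : 0 ≤ c)
    (hL1 : 0 < L1) (h6 : c ≤ b) (hF : δ / 4 * (1 / L1) ≤ c) {e k : ℝ} (he : e ≤ b ^ 2) (he0 : 0 ≤ e)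
    (N2 : 16 * ((r : ℝ) + 1) ^ 2 * L1 ≤ δ * R)
    (hk : b ^ (2 * (r + 1)) * (R - 2 * ((r : ℝ) + 1) ^ 2 / b) ≤ k) :
    c ^ (2 * r) * (R / 2) * e ≤ k := by
  refine le_trans ?_ hk
  have h9 : 2 * ((r : ℝ) + 1) ^ 2 / b ≤ R / 2 := by
    rw [div_le_iff₀ hb]
    have h10 : δ / 4 * (1 / L1) ≤ b := hF.trans h6
    have h11 : 4 * ((r : ℝ) + 1) ^ 2 ≤ R * (δ / 4 * (1 / L1)) := by
      rw [show R * (δ / 4 * (1 / L1)) = (δ * R) / (4 * L1) by ring,
        le_div_iff₀ (by positivity)]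
      linarith
    have h12 : R * (δ / 4 * (1 / L1)) ≤ R * b :=
      mul_le_mul_of_nonneg_left h10 (by positivity)
    linarith
  have h10 : R / 2 ≤ R - 2 * ((r : ℝ) + 1) ^ 2 / b := by linarith
  have h11 : c ^ (2 * r) * e ≤ b ^ (2 * (r + 1)) := by
    rw [show 2 * (r + 1) = 2 * r + 2 by ring, pow_add]
    exact mul_le_mul (pow_le_pow_left₀ hc h6 _) he he0 (by positivity)
  calc c ^ (2 * r) * (R / 2) * e = (c ^ (2 * r) * e) * (R / 2) := by ring
    _ ≤ b ^ (2 * (r + 1)) * (R - 2 * ((r : ℝ) + 1) ^ 2 / b) :=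
      mul_le_mul h11 h10 (by positivity) (by positivity)

theorem local_lemma (r kk L : ℕ) (S : Finset V) (hi : Finset V → Finset V)
    (lam Lam M x δ D B : ℝ) (hlam : 0 < lam)
    (hhi : ∀ I ∈ ind G S, hi I ⊆ fr G S I) (hD : (S.card : ℝ) ≤ D)
    (hZ : Lam < Z G lam S)
    (hk : ∑ I ∈ ind G S, lam ^ I.card * (I.card : ℝ) ≤ kk * Z G lam S)
    (hB : ∑ I ∈ ind G S, lam ^ I.card * ((hi I).card : ℝ) ≤ B * Z G lam S)
    (hLam : 0 < Lam) (hx : 0 < x) (hx1 : x ≤ 1) (hM : 2 ≤ M)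
    (h1 : Real.exp (M * x) * (1 / x) ^ (2 * kk) * (2 * (2 * kk + 1)) < Lam)
    (h2 : Lam < 2 ^ L) (h3 : 4 * ((2 * kk : ℝ) + L) ≤ M) (hδ0 : 0 < δ)
    (hδ : (L : ℝ) * δ ≤ 1 / 2) (hδ1 : δ ≤ 1)
    (N0 : 2 * lam ≤ δ) (N1 : 8 * D * B * Lam * lam ^ 2 ≤ δ)
    (N2 : 16 * ((r : ℝ) + 1) ^ 2 * lam ≤ δ * (δ / 24) ^ ((r + 1) * (r + 1))) :
    Z G lam S * ((δ / 24) ^ ((r + 1) * (r + 1)) * (δ / 4) ^ (2 * r) * δ /
      (16 * Lam * lam ^ (2 * r + 2))) ≤
      ∑ I ∈ ind G S, lam ^ I.card * ((K G (r + 1) (fr G S I \ hi I)).card : ℝ) := by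
  set Zt := Z G lam S with hZt
  have hZpos : 0 < Zt := Z_pos hlam S
  obtain ⟨n, hn1, hn2, hn3, hn4⟩ := seq (fun n => lam ^ n * ((indn G S n).card : ℝ)) S.card kk L
    Zt Lam M x δ (fun n => by positivity)
    (by
      intro n hn
      have h4 : (0 : ℝ) < ((indn G S (n + 1)).card : ℝ) := by
        by_contra hcon
        have h5 : ((indn G S (n + 1)).card : ℝ) = 0 :=
          le_antisymm (not_lt.1 hcon) (Nat.cast_nonneg _)
        rw [h5, mul_zero] at hn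
        exact lt_irrefl _ hn
      have h5 := indn_down (by exact_mod_cast h4 : 0 < (indn G S (n + 1)).card)
      have h6 : (0 : ℝ) < ((indn G S n).card : ℝ) := by exact_mod_cast h5
      positivity)
    (Z_eq_sum S).symm
    (by
      intro n hn
      rw [indn_empty hn]; simp)
    hZpos
    (by
      rw [← sum_ind_card lam S (fun n => (n : ℝ))]
      exact hk)
    (by
      rw [indn_zero]
      simp only [pow_zero, Finset.card_singleton, Nat.cast_one, mul_one]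
      rw [lt_div_iff₀ hLam, one_mul]
      exact hZ)
    hLam hx hx1 hM h1 h2 h3 hδ0.le hδ hδ1
  -- notation
  set A := indn G S n with hA
  set a : ℝ := (A.card : ℝ) with ha
  have hlamn : (0 : ℝ) < lam ^ n := pow_pos hlam _
  have ha0 : 0 < a := by
    by_contra hcon
    have h5 : a = 0 := le_antisymm (not_lt.1 hcon) (Nat.cast_nonneg _)
    have h6 : 0 < lam ^ n * a := hn1
    rw [h5, mul_zero] at h6
    exact lt_irrefl _ h6
  set P : ℝ := ∑ I ∈ A, ((fr G S I).card : ℝ) with hP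
  have hP1 : P = ((n : ℝ) + 1) * (indn G S (n + 1)).card := sum_fr_card n
  have hP2 : ((n : ℝ) + 1) * (lam ^ (n + 1) * ((indn G S (n + 1)).card : ℝ)) =
      lam ^ n * (lam * P) := by rw [hP1, pow_succ]; ring
  have hF1 : a ≤ lam * P := by
    have h4 : lam ^ n * a ≤ lam ^ n * (lam * P) := by rw [← hP2]; exact hn2
    exact le_of_mul_le_mul_left h4 hlamn
  have hP0 : 0 < P := by
    by_contra hcon
    nlinarith
  have hF2 : Zt ≤ Lam * (lam ^ n * (lam * P)) := by rw [← hP2]; exact hn3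
  set Q2 : ℝ := ∑ I ∈ A, ((fr G S I).card : ℝ) ^ 2 with hQ2
  set Et : ℝ := ∑ I ∈ A, E G (fr G S I) with hEt
  have hdrop : (Q2 - P - Et) * a < (1 - δ) * P ^ 2 := by
    have h4 : Q2 - P - Et = ((n : ℝ) + 1) * (((n : ℝ) + 2) * (indn G S (n + 2)).card) := by
      have h5 := sum_fr_sq (G := G) (H := S) n
      rw [Finset.sum_sub_distrib, Finset.sum_sub_distrib] at h5
      have h6 := sum_fr_card (G := G) (H := S) (n + 1)
      rw [← h5, h6]
      push_cast
      ring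
    have h7 : lam ^ (2 * n + 2) * ((Q2 - P - Et) * a) < lam ^ (2 * n + 2) * ((1 - δ) * P ^ 2) := by
      have h8 : ((n : ℝ) + 1) * (((n : ℝ) + 2) * (lam ^ (n + 2) * (indn G S (n + 2)).card) *
          (lam ^ n * a)) < ((n : ℝ) + 1) * ((1 - δ) * (((n : ℝ) + 1) *
          (lam ^ (n + 1) * ((indn G S (n + 1)).card : ℝ)) ^ 2)) :=
        mul_lt_mul_of_pos_left hn4 (by positivity)
      rw [h4, hP1]
      calc lam ^ (2 * n + 2) * (((n : ℝ) + 1) * (((n : ℝ) + 2) * (indn G S (n + 2)).card) * a)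
          = ((n : ℝ) + 1) * (((n : ℝ) + 2) * (lam ^ (n + 2) * (indn G S (n + 2)).card) *
          (lam ^ n * a)) := by ring
        _ < _ := h8
        _ = _ := by ring
    exact lt_of_mul_lt_mul_left h7 (by positivity)
  have hCS : P ^ 2 ≤ a * Q2 := by
    have := sq_sum_le_card_mul_sum_sq (s := A) (f := fun I => ((fr G S I).card : ℝ))
    exact this
  have hδP : 2 * a ≤ δ * P := by nlinarith
  obtain ⟨hEta, hEt0, hQ2Et⟩ := num1 ha0 hP0 hδ0 hδ1 hdrop hCS hδP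
  -- removing the exceptional vertices
  set Y : Finset V → Finset V := fun I => fr G S I \ hi I with hY
  set E1 : ℝ := ∑ I ∈ A, E G (Y I) with hE1
  have hcard : ∀ I, ((fr G S I).card : ℝ) ≤ D := fun I =>
    le_trans (by exact_mod_cast Finset.card_le_card (Finset.filter_subset _ _)) hD
  have hhiA : ∑ I ∈ A, ((hi I).card : ℝ) ≤ B * Lam * (lam * P) := by
    have h4 : lam ^ n * ∑ I ∈ A, ((hi I).card : ℝ) ≤ B * Zt := by
      refine le_trans ?_ hB
      rw [Finset.mul_sum]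
      refine le_trans (le_of_eq ?_) (Finset.sum_le_sum_of_subset_of_nonneg
        (Finset.filter_subset (fun I => I.card = n) (ind G S)) (fun _ _ _ => by positivity))
      exact Finset.sum_congr rfl fun I hI => by rw [(mem_indn.1 hI).2]
    have hB0 : 0 ≤ B := by
      by_contra hcon
      have h5 : 0 ≤ ∑ I ∈ ind G S, lam ^ I.card * ((hi I).card : ℝ) :=
        Finset.sum_nonneg fun _ _ => by positivity
      nlinarith
    have h5 : lam ^ n * ∑ I ∈ A, ((hi I).card : ℝ) ≤ lam ^ n * (B * Lam * (lam * P)) := by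
      refine h4.trans ?_
      have := mul_le_mul_of_nonneg_left hF2 hB0
      calc B * Zt ≤ B * (Lam * (lam ^ n * (lam * P))) := this
        _ = _ := by ring
    exact le_of_mul_le_mul_left h5 hlamn
  have hE1Et : Et ≤ 2 * E1 := by
    have h4 : Et ≤ E1 + 2 * D * ∑ I ∈ A, ((hi I).card : ℝ) := by
      rw [hEt, hE1, Finset.mul_sum, ← Finset.sum_add_distrib]
      refine Finset.sum_le_sum fun I hI => ?_
      have h5 := E_sdiff (G := G) (hhi I (mem_indn.1 hI).1)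
      have h6 : 2 * ((hi I).card : ℝ) * (fr G S I).card ≤ 2 * D * (hi I).card := by
        nlinarith [hcard I, Nat.cast_nonneg (α := ℝ) (hi I).card]
      exact h5.trans (by linarith)
    exact num2 ha0 (le_trans (Nat.cast_nonneg _) hD)
      (Finset.sum_nonneg fun _ _ => Nat.cast_nonneg _) h4 hhiA hF1 N1 hEta
  have hE1P : δ / 4 * P ^ 2 ≤ E1 * a := by
    have h4 := mul_le_mul_of_nonneg_right hE1Et ha0.le
    linarith
  have hE10 : 0 < E1 := by linarith
  have hQ2E1 : δ * Q2 ≤ 6 * E1 := by linarith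
  -- the good sets
  set ρ : ℝ := δ / 24 with hρ
  have hρ0 : 0 ≤ ρ := by rw [hρ]; linarith
  set A1 := A.filter (fun I => ρ * ((fr G S I).card : ℝ) ^ 2 ≤ E G (Y I) ∧
    δ / 4 * P ≤ a * (fr G S I).card) with hA1
  have hYle : ∀ I, E G (Y I) ≤ ((fr G S I).card : ℝ) ^ 2 := by
    intro I
    refine (E_le_sq (Y I)).trans ?_
    have h4 : ((Y I).card : ℝ) ≤ (fr G S I).card := by
      exact_mod_cast Finset.card_le_card Finset.sdiff_subset
    exact pow_le_pow_left₀ (Nat.cast_nonneg _) h4 2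
  have hbad : ∑ I ∈ A.filter (fun I => ¬ (ρ * ((fr G S I).card : ℝ) ^ 2 ≤ E G (Y I) ∧
      δ / 4 * P ≤ a * (fr G S I).card)), E G (Y I) ≤ E1 / 2 := by
    have h4 : ∀ I ∈ A.filter (fun I => ¬ (ρ * ((fr G S I).card : ℝ) ^ 2 ≤ E G (Y I) ∧
        δ / 4 * P ≤ a * (fr G S I).card)), E G (Y I) ≤
        ρ * ((fr G S I).card : ℝ) ^ 2 + (δ / 4 * P / a) ^ 2 := by
      intro I hI
      rw [Finset.mem_filter, not_and_or, not_le, not_le] at hI
      rcases hI.2 with h5 | h5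
      · have : 0 ≤ (δ / 4 * P / a) ^ 2 := sq_nonneg _
        linarith
      · have h6 : ((fr G S I).card : ℝ) ≤ δ / 4 * P / a := by
          rw [le_div_iff₀ ha0]; linarith
        have h7 : ((fr G S I).card : ℝ) ^ 2 ≤ (δ / 4 * P / a) ^ 2 :=
          pow_le_pow_left₀ (Nat.cast_nonneg _) h6 2
        have h8 : 0 ≤ ρ * ((fr G S I).card : ℝ) ^ 2 := mul_nonneg hρ0 (sq_nonneg _)
        linarith [hYle I]
    refine (Finset.sum_le_sum h4).trans ?_
    refine (Finset.sum_le_sum_of_subset_of_nonneg (Finset.filter_subset _ _)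
      (fun _ _ _ => add_nonneg (mul_nonneg hρ0 (sq_nonneg _)) (sq_nonneg _))).trans ?_
    rw [Finset.sum_add_distrib, ← Finset.mul_sum, Finset.sum_const, nsmul_eq_mul]
    exact num3 ha0 hδ0 hδ1 hE1P hQ2E1
  have hgood : E1 / 2 ≤ ∑ I ∈ A1, E G (Y I) := by
    have h4 := Finset.sum_filter_add_sum_filter_not A (fun I =>
      ρ * ((fr G S I).card : ℝ) ^ 2 ≤ E G (Y I) ∧ δ / 4 * P ≤ a * (fr G S I).card)
      (fun I => E G (Y I))
    rw [← hA1] at h4
    linarith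
  set q := (r + 1) * (r + 1) with hq
  clear_value a P Q2 Et E1
  -- lower bound for one set
  have hF : δ / 4 * (1 / lam) ≤ δ / 4 * (P / a) := by
    apply mul_le_mul_of_nonneg_left _ (by positivity)
    rw [div_le_div_iff₀ hlam ha0]
    linarith
  have hone : ∀ I ∈ A1, (δ / 4 * (P / a)) ^ (2 * r) * (ρ ^ q / 2) * E G (Y I) ≤
      ((K G (r + 1) (Y I)).card : ℝ) := by
    intro I hI
    rw [hA1, Finset.mem_filter] at hI
    obtain ⟨_, h4, h5⟩ := hI
    have h6 : δ / 4 * (P / a) ≤ (fr G S I).card := by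
      rw [mul_div_assoc', div_le_iff₀ ha0]; linarith
    have hb : (0 : ℝ) < (fr G S I).card := lt_of_lt_of_le (by positivity) h6
    have h7 : ((Y I).card : ℝ) ≤ (fr G S I).card := by
      exact_mod_cast Finset.card_le_card Finset.sdiff_subset
    have h8 := K_lower (G := G) r (Y I) hb (by positivity : (0 : ℝ) ≤ ρ) h7 h4
    exact num5 r hb (by positivity) (by positivity) hlam h6 hF (hYle I) (E_nonneg _) N2 h8
  -- summing up
  have hsum : lam ^ n * ((δ / 4 * (P / a)) ^ (2 * r) * (ρ ^ q / 2) * (E1 / 2)) ≤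
      ∑ I ∈ ind G S, lam ^ I.card * ((K G (r + 1) (Y I)).card : ℝ) := by
    have hc0 : 0 ≤ (δ / 4 * (P / a)) ^ (2 * r) * (ρ ^ q / 2) := by positivity
    calc lam ^ n * ((δ / 4 * (P / a)) ^ (2 * r) * (ρ ^ q / 2) * (E1 / 2)) ≤
          lam ^ n * ((δ / 4 * (P / a)) ^ (2 * r) * (ρ ^ q / 2) * ∑ I ∈ A1, E G (Y I)) :=
          mul_le_mul_of_nonneg_left (mul_le_mul_of_nonneg_left hgood hc0) hlamn.le
      _ = ∑ I ∈ A1, lam ^ n * ((δ / 4 * (P / a)) ^ (2 * r) * (ρ ^ q / 2) * E G (Y I)) := by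
          rw [Finset.mul_sum, Finset.mul_sum]
      _ ≤ ∑ I ∈ A1, lam ^ I.card * ((K G (r + 1) (Y I)).card : ℝ) := by
          refine Finset.sum_le_sum fun I hI => ?_
          have h4 : I.card = n := (mem_indn.1 (Finset.mem_filter.1 hI).1).2
          rw [h4]
          exact mul_le_mul_of_nonneg_left (hone I hI) hlamn.le
      _ ≤ _ := by
          apply Finset.sum_le_sum_of_subset_of_nonneg
          · intro I hI
            exact (mem_indn.1 (Finset.mem_filter.1 hI).1).1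
          · intro _ _ _
            positivity
  refine le_trans ?_ hsum
  exact num4 r ha0 hlam hLam hlamn hδ0 (by positivity) hP0 hF1 hE1P hF2

end Pool.Agent.K1H34.UHC
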