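import Mathlib
import Pool.Agent.K1H34.UHC.Local

set_option autoImplicit false

/-!
# Free vertices with many free neighbours are rare
-/

namespace Pool.Agent.K1H34.UHC

open Finset Classical

variable {V : Type} [Fintype V] {G : SimpleGraph V}

set_option linter.unusedSectionVars false

theorem ind_insert_N {H I : Finset V} {u : V} : N G (fr G H I) u = fr G H I ∩ N G H u := by
  ext w
  simp only [mem_N, Finset.mem_inter, mem_fr]
  tauto

/-- sparse sets have a large partition function -/
theorem sparse_Z {S : Finset V} {M' : ℕ} {lam d z D : ℝ} (hl : 0 < lam) (hM : 1 ≤ M')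
    (hS : z < S.card) (hz : 8 * (M' : ℝ) ≤ z) (hE : E G S < d * (S.card : ℝ) ^ 2)
    (hd : 8 * (M' : ℝ) * d ≤ 1) (hD : D * (M'.factorial : ℝ) ≤ (lam * z / 8) ^ M') :
    D ≤ Z G lam S := by
  have hM0 : (1 : ℝ) ≤ M' := by exact_mod_cast hM
  have hS0 : (0 : ℝ) < S.card := by linarith
  set S' := S.filter (fun u => 4 * (M' : ℝ) * (N G S u).card ≤ S.card) with hS'
  have h1 : (S.card : ℝ) / 2 ≤ S'.card := by
    have h2 : ((S.filter (fun u => ¬ 4 * (M' : ℝ) * (N G S u).card ≤ S.card)).card : ℝ) * S.card ≤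
        4 * M' * E G S := by
      unfold E
      rw [Finset.mul_sum]
      refine le_trans ?_ (Finset.sum_le_sum_of_subset_of_nonneg (Finset.filter_subset
        (fun u => ¬ 4 * (M' : ℝ) * (N G S u).card ≤ S.card) _) (fun _ _ _ => by positivity))
      rw [← nsmul_eq_mul, ← Finset.sum_const]
      refine Finset.sum_le_sum fun u hu => ?_
      rw [Finset.mem_filter] at hu
      exact (not_le.1 hu.2).le
    have h3 := Finset.card_filter_add_card_filter_not
      (s := S) (fun u => 4 * (M' : ℝ) * (N G S u).card ≤ S.card)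
    have h4 : ((S'.card + (S.filter (fun u => ¬ 4 * (M' : ℝ) * (N G S u).card ≤ S.card)).card :
        ℕ) : ℝ) = S.card := by rw [h3]
    rw [Nat.cast_add] at h4
    have h5 : 4 * M' * E G S ≤ (S.card : ℝ) / 2 * S.card := by
      have h6 : 4 * (M' : ℝ) * E G S ≤ 4 * M' * (d * (S.card : ℝ) ^ 2) :=
        mul_le_mul_of_nonneg_left hE.le (by positivity)
      nlinarith [sq_nonneg (S.card : ℝ)]
    have h6 := le_of_mul_le_mul_right (h2.trans h5) hS0
    linarith
  have h2 : ∀ j, j < M' → ∀ I ∈ indn G S' j, (S.card : ℝ) / 8 ≤ ((fr G S' I).card : ℝ) := by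
    intro j hj I hI
    rw [mem_indn, mem_ind] at hI
    have h3 : S' ⊆ fr G S' I ∪ (I ∪ I.biUnion (fun u => N G S u)) := by
      intro w hw
      by_cases h4 : w ∈ fr G S' I
      · exact Finset.mem_union_left _ h4
      · rw [mem_fr] at h4
        push Not at h4
        apply Finset.mem_union_right
        by_cases h5 : w ∈ I
        · exact Finset.mem_union_left _ h5
        · obtain ⟨x, hx, hx2⟩ := h4 hw h5
          apply Finset.mem_union_right
          rw [Finset.mem_biUnion]
          exact ⟨x, hx, mem_N.2 ⟨(Finset.mem_filter.1 hw).1, hx2.symm⟩⟩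
    have h4 := (Finset.card_le_card h3).trans ((Finset.card_union_le _ _).trans
      (Nat.add_le_add_left ((Finset.card_union_le _ _).trans
        (Nat.add_le_add_left Finset.card_biUnion_le _)) _))
    have h5 : (S'.card : ℝ) ≤ (fr G S' I).card + (I.card + ∑ u ∈ I, ((N G S u).card : ℝ)) := by
      exact_mod_cast h4
    have h6 : ∑ u ∈ I, ((N G S u).card : ℝ) ≤ (S.card : ℝ) / 4 := by
      have h7 : 4 * (M' : ℝ) * ∑ u ∈ I, ((N G S u).card : ℝ) ≤ M' * S.card := by
        rw [Finset.mul_sum]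
        refine (Finset.sum_le_sum fun u hu => (Finset.mem_filter.1 (hI.1.1 hu)).2).trans ?_
        rw [Finset.sum_const, nsmul_eq_mul]
        refine mul_le_mul_of_nonneg_right ?_ hS0.le
        rw [hI.2]
        exact_mod_cast hj.le
      have h8 : (M' : ℝ) * (4 * ∑ u ∈ I, ((N G S u).card : ℝ)) ≤ M' * S.card := by linarith
      have h9 := le_of_mul_le_mul_left h8 (by linarith)
      linarith
    have h7 : (I.card : ℝ) ≤ M' := by rw [hI.2]; exact_mod_cast hj.le
    linarith
  have h3 : ∀ j, j ≤ M' → ((S.card : ℝ) / 8) ^ j ≤ j.factorial * ((indn G S' j).card : ℝ) := by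
    intro j
    induction j with
    | zero => intro _; simp [indn_zero]
    | succ j ih =>
      intro hj
      have h4 := ih (by omega)
      have h5 := sum_fr_card (G := G) (H := S') j
      have h6 : ((S.card : ℝ) / 8) * (indn G S' j).card ≤
          ∑ I ∈ indn G S' j, ((fr G S' I).card : ℝ) := by
        rw [mul_comm, ← nsmul_eq_mul, ← Finset.sum_const]
        exact Finset.sum_le_sum fun I hI => h2 j (by omega) I hI
      rw [h5] at h6
      rw [pow_succ, Nat.factorial_succ]
      push_cast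
      calc ((S.card : ℝ) / 8) ^ j * ((S.card : ℝ) / 8) ≤
            (j.factorial * ((indn G S' j).card : ℝ)) * ((S.card : ℝ) / 8) :=
            mul_le_mul_of_nonneg_right h4 (by positivity)
        _ = j.factorial * (((S.card : ℝ) / 8) * (indn G S' j).card) := by ring
        _ ≤ j.factorial * (((j : ℝ) + 1) * (indn G S' (j + 1)).card) :=
            mul_le_mul_of_nonneg_left h6 (by positivity)
        _ = _ := by ring
  have h4 := h3 M' le_rfl
  have h5 : ((indn G S' M').card : ℝ) ≤ (indn G S M').card := by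
    have h6 : indn G S' M' ⊆ indn G S M' := by
      intro I hI
      rw [mem_indn] at hI ⊢
      exact ⟨ind_mono (Finset.filter_subset _ _) hI.1, hI.2⟩
    exact_mod_cast Finset.card_le_card h6
  have h6 := pow_mul_indn_le (G := G) hl S M'
  have hf : (0 : ℝ) < M'.factorial := by positivity
  have h7 : (lam * z / 8) ^ M' ≤ lam ^ M' * ((S.card : ℝ) / 8) ^ M' := by
    rw [← mul_pow]
    apply pow_le_pow_left₀
    · have : 0 ≤ z := by linarith
      positivity
    · nlinarith
  have h8 : D * (M'.factorial : ℝ) ≤ Z G lam S * M'.factorial := by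
    calc D * (M'.factorial : ℝ) ≤ lam ^ M' * ((S.card : ℝ) / 8) ^ M' := hD.trans h7
      _ ≤ lam ^ M' * (M'.factorial * ((indn G S' M').card : ℝ)) :=
          mul_le_mul_of_nonneg_left h4 (by positivity)
      _ ≤ lam ^ M' * (M'.factorial * ((indn G S M').card : ℝ)) := by gcongr
      _ = (lam ^ M' * (indn G S M').card) * M'.factorial := by ring
      _ ≤ Z G lam S * M'.factorial := mul_le_mul_of_nonneg_right h6 hf.le
  exact le_of_mul_le_mul_right h8 hf

/-- the sum of the free degrees of the free vertices with more than `z` free neighbours -/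
noncomputable def hs (G : SimpleGraph V) (f : Finset V) (z : ℝ) : ℝ :=
  ∑ u ∈ f.filter (fun u => z < (N G f u).card), ((N G f u).card : ℝ)

/-- weighted sum over all independent sets -/
noncomputable def gs (G : SimpleGraph V) (lam : ℝ) (H : Finset V) (z : ℝ) : ℝ :=
  ∑ I ∈ ind G H, lam ^ I.card * hs G (fr G H I) z

/-- type b -/
theorem type_b (f : Finset V) (z qq c : ℝ) (hc : 0 < c) (hq : 0 < qq) :
    c * ∑ u ∈ f.filter (fun u => z < (N G f u).card ∧ c * (N G f u).card ≤
      ((N G f u).filter (fun w => (N G f u).card * qq < (N G f w).card)).card),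
      ((N G f u).card : ℝ) ≤ hs G f (z * qq) := by
  rw [Finset.mul_sum]
  have h1 : ∀ u ∈ f.filter (fun u => z < (N G f u).card ∧ c * (N G f u).card ≤
      ((N G f u).filter (fun w => (N G f u).card * qq < (N G f w).card)).card),
      c * ((N G f u).card : ℝ) ≤
        (((f.filter (fun w => z * qq < (N G f w).card)).filter (fun w => G.Adj u w)).card : ℝ) := by
    intro u hu
    rw [Finset.mem_filter] at hu
    refine hu.2.2.trans ?_
    have h2 : (N G f u).filter (fun w => ((N G f u).card : ℝ) * qq < (N G f w).card) ⊆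
        (f.filter (fun w => z * qq < (N G f w).card)).filter (fun w => G.Adj u w) := by
      intro w hw
      rw [Finset.mem_filter, mem_N] at hw
      rw [Finset.mem_filter, Finset.mem_filter]
      refine ⟨⟨hw.1.1, lt_trans ?_ hw.2⟩, hw.1.2⟩
      exact mul_lt_mul_of_pos_right hu.2.1 hq
    exact_mod_cast Finset.card_le_card h2
  refine (Finset.sum_le_sum h1).trans ?_
  refine (Finset.sum_le_sum_of_subset_of_nonneg (Finset.filter_subset _ _)
    (fun _ _ _ => Nat.cast_nonneg _)).trans ?_
  have h2 : ∑ u ∈ f, (((f.filter (fun w => z * qq < (N G f w).card)).filter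
      (fun w => G.Adj u w)).card : ℝ) = hs G f (z * qq) := by
    unfold hs
    have h3 : ∑ u ∈ f, ((f.filter (fun w => z * qq < (N G f w).card)).filter
      (fun w => G.Adj u w)).card = ∑ w ∈ f.filter (fun w => z * qq < (N G f w).card),
        (N G f w).card := by
      simp only [Finset.card_filter]
      rw [Finset.sum_comm]
      refine Finset.sum_congr rfl fun w _ => ?_
      rw [N, Finset.card_filter]
      refine Finset.sum_congr rfl fun u _ => ?_
      simp only [G.adj_comm]
    exact_mod_cast h3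
  exact h2.le

/-- type a -/
theorem type_a (r s : ℕ) (hR : Rare G (r + 1) s) (f : Finset V) (z qq c ρ : ℝ)
    (hq : 1 ≤ qq) (hρ : 0 < ρ) (hz : 4 * ((r : ℝ) + 1) ^ 2 ≤ ρ ^ ((r + 1) * (r + 1)) * z)
    (hz0 : 0 < z) :
    ∑ u ∈ f.filter (fun u => z < (N G f u).card ∧
      (ρ + 2 * c) * ((N G f u).card : ℝ) ^ 2 ≤ E G (N G f u) ∧ ¬ c * (N G f u).card ≤
      ((N G f u).filter (fun w => (N G f u).card * qq < (N G f w).card)).card),
      ((N G f u).card : ℝ) ≤
      2 / ρ ^ ((r + 1) * (r + 1)) * qq ^ (2 * r + 1) * s * f.card := by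
  set R := ρ ^ ((r + 1) * (r + 1)) with hRdef
  have hR0 : 0 < R := pow_pos hρ _
  set g : (Fin (r + 1) → V) × (Fin (r + 1) → V) → ℝ := fun p =>
    (((N G f (p.1 0)).card : ℝ) ^ (r + 1))⁻¹ * (((N G f (p.2 0)).card : ℝ) ^ r)⁻¹ with hg
  have hg0 : ∀ p, 0 ≤ g p := fun p => by simp only [hg]; positivity
  have h1 : ∀ u ∈ f.filter (fun u => z < (N G f u).card ∧
      (ρ + 2 * c) * ((N G f u).card : ℝ) ^ 2 ≤ E G (N G f u) ∧ ¬ c * (N G f u).card ≤
      ((N G f u).filter (fun w => (N G f u).card * qq < (N G f w).card)).card),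
      ((N G f u).card : ℝ) ≤
        2 / R * qq ^ (2 * r + 1) * ∑ p ∈ K G (r + 1) (N G f u), g p := by
    intro u hu
    rw [Finset.mem_filter] at hu
    obtain ⟨_, hu1, hu2, hu3⟩ := hu
    set b : ℝ := ((N G f u).card : ℝ) with hb
    have hb0 : 0 < b := by linarith
    set T := (N G f u).filter (fun w => b * qq < (N G f w).card) with hT
    have h2 : (T.card : ℝ) < c * b := not_le.1 hu3
    have h3 := E_sdiff (G := G) (X := N G f u) (T := T) (Finset.filter_subset _ _)
    have h4 : ρ * b ^ 2 ≤ E G (N G f u \ T) := by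
      rw [← hb] at h3
      nlinarith
    have h5 : (((N G f u) \ T).card : ℝ) ≤ b := by
      rw [hb]
      exact_mod_cast Finset.card_le_card Finset.sdiff_subset
    have h6 := K_lower (G := G) r (N G f u \ T) hb0 hρ.le h5 h4
    have h7 : 2 * ((r : ℝ) + 1) ^ 2 / b ≤ R / 2 := by
      rw [div_le_iff₀ hb0]
      nlinarith
    have h8 : b ^ (2 * (r + 1)) * (R / 2) ≤ ((K G (r + 1) (N G f u \ T)).card : ℝ) := by
      refine le_trans ?_ h6
      exact mul_le_mul_of_nonneg_left (by linarith) (by positivity)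
    have h9 : ∀ p ∈ K G (r + 1) (N G f u \ T), (b ^ (2 * r + 1))⁻¹ ≤ qq ^ (2 * r + 1) * g p := by
      intro p hp
      rw [mem_K] at hp
      have hp1 := hp.1.1.1 0
      have hp2 := hp.1.1.2 0
      have hp3 := hp.1.2 0 0
      rw [Finset.mem_sdiff, hT, Finset.mem_filter, mem_N] at hp1 hp2
      have h10 : ((N G f (p.1 0)).card : ℝ) ≤ b * qq := by
        by_contra hcon
        exact hp1.2 ⟨hp1.1, not_le.1 hcon⟩
      have h11 : ((N G f (p.2 0)).card : ℝ) ≤ b * qq := by
        by_contra hcon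
        exact hp2.2 ⟨hp2.1, not_le.1 hcon⟩
      have h12 : (0 : ℝ) < ((N G f (p.1 0)).card : ℝ) := by
        exact_mod_cast Finset.card_pos.2 ⟨p.2 0, mem_N.2 ⟨hp2.1.1, hp3⟩⟩
      have h13 : (0 : ℝ) < ((N G f (p.2 0)).card : ℝ) := by
        exact_mod_cast Finset.card_pos.2 ⟨p.1 0, mem_N.2 ⟨hp1.1.1, hp3.symm⟩⟩
      have h14 : ((N G f (p.1 0)).card : ℝ) ^ (r + 1) * ((N G f (p.2 0)).card : ℝ) ^ r ≤
          (b * qq) ^ (2 * r + 1) := by
        rw [show 2 * r + 1 = (r + 1) + r by ring, pow_add (b * qq)]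
        exact mul_le_mul (pow_le_pow_left₀ h12.le h10 _) (pow_le_pow_left₀ h13.le h11 _)
          (by positivity) (by positivity)
      simp only [hg]
      rw [← mul_inv, ← div_eq_mul_inv, inv_eq_one_div, div_le_div_iff₀ (by positivity)
        (by positivity), one_mul]
      calc _ ≤ _ := h14
        _ = _ := by rw [mul_pow]; ring
    have h10 : ((K G (r + 1) (N G f u \ T)).card : ℝ) * (b ^ (2 * r + 1))⁻¹ ≤
        qq ^ (2 * r + 1) * ∑ p ∈ K G (r + 1) (N G f u), g p := by
      rw [← nsmul_eq_mul, ← Finset.sum_const, Finset.mul_sum]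
      refine (Finset.sum_le_sum h9).trans ?_
      apply Finset.sum_le_sum_of_subset_of_nonneg
      · intro p hp
        rw [mem_K] at hp ⊢
        exact ⟨⟨⟨fun i => (Finset.mem_sdiff.1 (hp.1.1.1 i)).1,
          fun i => (Finset.mem_sdiff.1 (hp.1.1.2 i)).1⟩, hp.1.2⟩, hp.2⟩
      · intro p _ _
        exact mul_nonneg (by positivity) (hg0 p)
    have h11 : b * (R / 2) ≤ ((K G (r + 1) (N G f u \ T)).card : ℝ) * (b ^ (2 * r + 1))⁻¹ := by
      have h12 : b * (R / 2) = (b ^ (2 * (r + 1)) * (R / 2)) * (b ^ (2 * r + 1))⁻¹ := by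
        rw [show 2 * (r + 1) = (2 * r + 1) + 1 by ring, pow_succ]
        field_simp
      rw [h12]
      exact mul_le_mul_of_nonneg_right h8 (by positivity)
    have h12 := h11.trans h10
    calc b = 2 / R * (b * (R / 2)) := by field_simp
      _ ≤ 2 / R * (qq ^ (2 * r + 1) * ∑ p ∈ K G (r + 1) (N G f u), g p) :=
          mul_le_mul_of_nonneg_left h12 (by positivity)
      _ = _ := by ring
  refine (Finset.sum_le_sum h1).trans ?_
  rw [← Finset.mul_sum]
  have h2 : ∑ u ∈ f.filter (fun u => z < (N G f u).card ∧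
      (ρ + 2 * c) * ((N G f u).card : ℝ) ^ 2 ≤ E G (N G f u) ∧ ¬ c * (N G f u).card ≤
      ((N G f u).filter (fun w => (N G f u).card * qq < (N G f w).card)).card),
      ∑ p ∈ K G (r + 1) (N G f u), g p ≤ s * f.card := by
    refine (double_count hR f _ g hg0).trans ?_
    exact mul_le_mul_of_nonneg_left (K_upper r f) (Nat.cast_nonneg _)
  calc 2 / R * qq ^ (2 * r + 1) * _ ≤ 2 / R * qq ^ (2 * r + 1) * (s * f.card) :=
        mul_le_mul_of_nonneg_left h2 (by positivity)
    _ = _ := by ring

/-- type 0 -/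
theorem type_0 (H : Finset V) {M' : ℕ} {lam d z D : ℝ} (hl : 0 < lam) (hM : 1 ≤ M')
    (hz : 8 * (M' : ℝ) ≤ z) (hd : 8 * (M' : ℝ) * d ≤ 1)
    (hD : D * (M'.factorial : ℝ) ≤ (lam * z / 8) ^ M')
    (hdeg : ∀ u, ((N G univ u).card : ℝ) ≤ D) :
    ∑ I ∈ ind G H, lam ^ I.card * ∑ u ∈ (fr G H I).filter (fun u => z < (N G (fr G H I) u).card ∧
      E G (N G (fr G H I) u) < d * ((N G (fr G H I) u).card : ℝ) ^ 2),
      ((N G (fr G H I) u).card : ℝ) ≤ H.card * Z G lam H := by
  set φ : V → Finset V → ℝ := fun u I => if u ∈ fr G H I ∧ z < (N G (fr G H I) u).card ∧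
      E G (N G (fr G H I) u) < d * ((N G (fr G H I) u).card : ℝ) ^ 2 then
      ((N G (fr G H I) u).card : ℝ) else 0 with hφ
  have h1 : ∀ I ∈ ind G H, ∑ u ∈ (fr G H I).filter (fun u => z < (N G (fr G H I) u).card ∧
      E G (N G (fr G H I) u) < d * ((N G (fr G H I) u).card : ℝ) ^ 2),
      ((N G (fr G H I) u).card : ℝ) = ∑ u ∈ H, φ u I := by
    intro I _
    simp only [hφ]
    rw [← Finset.sum_filter]
    refine Finset.sum_congr ?_ fun _ _ => rfl
    ext u
    simp only [Finset.mem_filter, mem_fr]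
    tauto
  rw [Finset.sum_congr rfl (fun I hI => by rw [h1 I hI])]
  simp only [Finset.mul_sum]
  rw [Finset.sum_comm, ← nsmul_eq_mul, ← Finset.sum_const]
  refine Finset.sum_le_sum fun u hu => ?_
  have hB : N G H u ⊆ H := Finset.filter_subset _ _
  rw [decomp_pow hB, Z_decomp hB]
  refine Finset.sum_le_sum fun ω hω => ?_
  refine mul_le_mul_of_nonneg_left ?_ (pow_pos hl _).le
  rw [Finset.sum_eq_single ∅]
  · rw [Finset.card_empty, pow_zero, one_mul, Finset.union_empty]
    simp only [hφ]
    split_ifs with h2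
    · obtain ⟨h3, h4, h5⟩ := h2
      have h6 : N G (fr G H ω) u = fr G (N G H u) ω := by
        rw [ind_insert_N]
        have := fr_union (G := G) (H := H) (B := N G H u) (ω := ω) (I' := ∅) hB
        rw [Finset.union_empty] at this
        rw [this]
        ext w
        simp [mem_fr]
      have h7 : ((N G (fr G H ω) u).card : ℝ) ≤ D := by
        refine le_trans ?_ (hdeg u)
        exact_mod_cast Finset.card_le_card
          (Finset.filter_subset_filter _ (Finset.subset_univ _))
      refine h7.trans ?_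
      rw [← h6]
      exact sparse_Z hl hM h4 hz h5 hd hD
    · exact (Z_pos hl _).le
  · intro I' hI' hne
    obtain ⟨w, hw⟩ := Finset.nonempty_iff_ne_empty.2 hne
    have h2 : φ u (ω ∪ I') = 0 := by
      simp only [hφ]
      rw [if_neg]
      rintro ⟨h3, _⟩
      have h4 := (mem_ind.1 hI').1 hw
      rw [mem_fr] at h4 h3
      exact h3.2.2 w (Finset.mem_union_right _ hw) (mem_N.1 h4.1).2
    rw [h2, mul_zero]
  · intro h
    exact absurd (empty_mem_ind _) h

/-- one step of the recursion -/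
theorem gs_step (r s : ℕ) (hR : Rare G (r + 1) s) (H : Finset V) {M' : ℕ} {lam z qq D ρ c : ℝ}
    (hl : 0 < lam) (hM : 1 ≤ M') (hz : 8 * (M' : ℝ) ≤ z)
    (hd : 8 * (M' : ℝ) * (ρ + 2 * c) ≤ 1)
    (hD : D * (M'.factorial : ℝ) ≤ (lam * z / 8) ^ M')
    (hdeg : ∀ u, ((N G univ u).card : ℝ) ≤ D)
    (hc : 0 < c) (hq : 1 ≤ qq) (hρ : 0 < ρ)
    (hz1 : 4 * ((r : ℝ) + 1) ^ 2 ≤ ρ ^ ((r + 1) * (r + 1)) * z) (hz0 : 0 < z) :
    gs G lam H z ≤ 1 / c * gs G lam H (z * qq) +
      (2 / ρ ^ ((r + 1) * (r + 1)) * qq ^ (2 * r + 1) * s + 1) * H.card * Z G lam H := by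
  set Ca := 2 / ρ ^ ((r + 1) * (r + 1)) * qq ^ (2 * r + 1) * s with hCa
  have hCa0 : 0 ≤ Ca := by rw [hCa]; positivity
  have h1 : ∀ I ∈ ind G H, hs G (fr G H I) z ≤
      ∑ u ∈ (fr G H I).filter (fun u => z < (N G (fr G H I) u).card ∧
      E G (N G (fr G H I) u) < (ρ + 2 * c) * ((N G (fr G H I) u).card : ℝ) ^ 2),
      ((N G (fr G H I) u).card : ℝ) + (1 / c * hs G (fr G H I) (z * qq) + Ca * H.card) := by
    intro I _
    set f := fr G H I with hf
    have h2 := type_b (G := G) f z qq c hc (by linarith)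
    have h3 := type_a r s hR f z qq c ρ hq hρ hz1 hz0
    rw [← hCa] at h3
    have h4 : Ca * f.card ≤ Ca * H.card := by
      refine mul_le_mul_of_nonneg_left ?_ hCa0
      exact_mod_cast Finset.card_le_card (Finset.filter_subset _ _)
    have h5 : ∑ u ∈ f.filter (fun u => z < (N G f u).card ∧ c * (N G f u).card ≤
      ((N G f u).filter (fun w => (N G f u).card * qq < (N G f w).card)).card),
      ((N G f u).card : ℝ) ≤ 1 / c * hs G f (z * qq) := by
      rw [one_div, ← div_eq_inv_mul, le_div_iff₀ hc, mul_comm]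
      exact h2
    have h6 : hs G f z ≤ ∑ u ∈ f.filter (fun u => z < (N G f u).card ∧
      E G (N G f u) < (ρ + 2 * c) * ((N G f u).card : ℝ) ^ 2), ((N G f u).card : ℝ) +
      (∑ u ∈ f.filter (fun u => z < (N G f u).card ∧ c * (N G f u).card ≤
      ((N G f u).filter (fun w => (N G f u).card * qq < (N G f w).card)).card),
      ((N G f u).card : ℝ) + ∑ u ∈ f.filter (fun u => z < (N G f u).card ∧
      (ρ + 2 * c) * ((N G f u).card : ℝ) ^ 2 ≤ E G (N G f u) ∧ ¬ c * (N G f u).card ≤
      ((N G f u).filter (fun w => (N G f u).card * qq < (N G f w).card)).card),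
      ((N G f u).card : ℝ)) := by
      unfold hs
      simp only [Finset.sum_filter]
      rw [← Finset.sum_add_distrib, ← Finset.sum_add_distrib]
      refine Finset.sum_le_sum fun u _ => ?_
      have h7 : (0 : ℝ) ≤ ((N G f u).card : ℝ) := Nat.cast_nonneg _
      by_cases a1 : z < (N G f u).card
      · by_cases a2 : E G (N G f u) < (ρ + 2 * c) * ((N G f u).card : ℝ) ^ 2
        · simp only [a1, a2, true_and, if_true]
          split_ifs <;> linarith
        · by_cases a3 : c * ((N G f u).card : ℝ) ≤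
            ((N G f u).filter (fun w => (N G f u).card * qq < (N G f w).card)).card
          · simp only [a1, a2, a3, true_and, if_true, and_false, if_false, not_true_eq_false]
            linarith
          · simp only [a1, a2, a3, true_and, if_true, and_false, if_false, not_false_eq_true,
              and_true, not_lt.1 a2]
            linarith
      · simp only [a1, false_and, if_false]
        linarith
    linarith
  have h2 := type_0 (G := G) H hl hM hz hd hD hdeg
  unfold gs
  calc ∑ I ∈ ind G H, lam ^ I.card * hs G (fr G H I) z ≤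
        ∑ I ∈ ind G H, lam ^ I.card *
        (∑ u ∈ (fr G H I).filter (fun u => z < (N G (fr G H I) u).card ∧
        E G (N G (fr G H I) u) < (ρ + 2 * c) * ((N G (fr G H I) u).card : ℝ) ^ 2),
        ((N G (fr G H I) u).card : ℝ) + (1 / c * hs G (fr G H I) (z * qq) + Ca * H.card)) :=
        Finset.sum_le_sum fun I hI => mul_le_mul_of_nonneg_left (h1 I hI) (pow_pos hl _).le
    _ = ∑ I ∈ ind G H, lam ^ I.card *
        ∑ u ∈ (fr G H I).filter (fun u => z < (N G (fr G H I) u).card ∧
        E G (N G (fr G H I) u) < (ρ + 2 * c) * ((N G (fr G H I) u).card : ℝ) ^ 2),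
        ((N G (fr G H I) u).card : ℝ) + (1 / c * (∑ I ∈ ind G H, lam ^ I.card *
        hs G (fr G H I) (z * qq)) + Ca * H.card * Z G lam H) := by
        rw [Z, Finset.mul_sum, Finset.mul_sum, ← Finset.sum_add_distrib, ← Finset.sum_add_distrib]
        refine Finset.sum_congr rfl fun I _ => ?_
        ring
    _ ≤ _ := by linarith

theorem gs_iter (r s : ℕ) (hR : Rare G (r + 1) s) (H : Finset V) {M' : ℕ} {lam qq D ρ c : ℝ}
    (hl : 0 < lam) (hM : 1 ≤ M')
    (hd : 8 * (M' : ℝ) * (ρ + 2 * c) ≤ 1)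
    (hdeg : ∀ u, ((N G univ u).card : ℝ) ≤ D)
    (hc : 0 < c) (hc1 : c ≤ 1) (hq : 1 ≤ qq) (hρ : 0 < ρ) (n : ℕ) : ∀ z : ℝ,
    8 * (M' : ℝ) ≤ z → D * (M'.factorial : ℝ) ≤ (lam * z / 8) ^ M' →
    4 * ((r : ℝ) + 1) ^ 2 ≤ ρ ^ ((r + 1) * (r + 1)) * z → 0 < z → D ≤ z * qq ^ n →
    gs G lam H z ≤ n * (1 / c) ^ n *
      ((2 / ρ ^ ((r + 1) * (r + 1)) * qq ^ (2 * r + 1) * s + 1) * H.card * Z G lam H) := by
  induction n with
  | zero =>
    intro z _ _ _ _ hD
    have h1 : gs G lam H z = 0 := by
      unfold gs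
      refine Finset.sum_eq_zero fun I _ => ?_
      have h2 : hs G (fr G H I) z = 0 := by
        unfold hs
        rw [Finset.filter_eq_empty_iff.2, Finset.sum_empty]
        intro u _
        have h3 : ((N G (fr G H I) u).card : ℝ) ≤ D := by
          refine le_trans ?_ (hdeg u)
          exact_mod_cast Finset.card_le_card
            (Finset.filter_subset_filter _ (Finset.subset_univ _))
        rw [pow_zero, mul_one] at hD
        exact not_lt.2 (h3.trans hD)
      rw [h2, mul_zero]
    rw [h1]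
    simp
  | succ n ih =>
    intro z hz hD hz1 hz0 hDn
    have h1 := gs_step r s hR H hl hM hz hd hD hdeg hc hq hρ hz1 hz0
    have hzq : z ≤ z * qq := by nlinarith
    have h2 := ih (z * qq) (hz.trans hzq) (hD.trans (by
        apply pow_le_pow_left₀ (by positivity)
        have := mul_le_mul_of_nonneg_left hzq hl.le
        linarith)) (hz1.trans (mul_le_mul_of_nonneg_left hzq (by positivity)))
      (by positivity) (by rw [mul_assoc, ← pow_succ']; exact hDn)
    set X := (2 / ρ ^ ((r + 1) * (r + 1)) * qq ^ (2 * r + 1) * s + 1) * H.card * Z G lam H with hX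
    have hX0 : 0 ≤ X := by
      have := (Z_pos (G := G) hl H).le
      rw [hX]; positivity
    have h3 : (1 : ℝ) ≤ (1 / c) ^ (n + 1) := by
      apply one_le_pow₀
      rw [le_div_iff₀ hc]; linarith
    have h4 : 1 / c * gs G lam H (z * qq) ≤ 1 / c * (n * (1 / c) ^ n * X) :=
      mul_le_mul_of_nonneg_left h2 (by positivity)
    calc gs G lam H z ≤ _ := h1
      _ ≤ 1 / c * (n * (1 / c) ^ n * X) + (1 / c) ^ (n + 1) * X := by nlinarith
      _ = _ := by push_cast; ring

end Pool.Agent.K1H34.UHC
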