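import Mathlib
import Pool.Agent.K1H34.UHC.Hi

set_option autoImplicit false

/-!
# Few vertices are bad
-/

namespace Pool.Agent.K1H34.UHC

open Finset Classical

variable {V : Type} [Fintype V] {G : SimpleGraph V}

set_option linter.unusedSectionVars false

/-- weight of the sets containing `v` -/
noncomputable def Wv (G : SimpleGraph V) (lam : ℝ) (H : Finset V) (v : V) : ℝ :=
  ∑ I ∈ (ind G H).filter (fun I => v ∈ I), lam ^ I.card

/-- weighted number of neighbours of `v` in the set -/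
noncomputable def En (G : SimpleGraph V) (lam : ℝ) (H : Finset V) (v : V) : ℝ :=
  ∑ I ∈ ind G H, lam ^ I.card * ((N G I v).card : ℝ)

/-- free vertices with at most `z` free neighbours -/
noncomputable def flo (G : SimpleGraph V) (z : ℝ) (H I : Finset V) : Finset V :=
  (fr G H I).filter (fun u => ((N G (fr G H I) u).card : ℝ) ≤ z)

/-- free vertices with more than `z` free neighbours -/
noncomputable def fhi (G : SimpleGraph V) (z : ℝ) (H I : Finset V) : Finset V :=
  (fr G H I).filter (fun u => z < ((N G (fr G H I) u).card : ℝ))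

theorem outside_le {H : Finset V} {v : V} (hv : v ∈ H) {lam : ℝ} (hl : 0 < lam) (hl1 : lam ≤ 1) :
    ∑ ω ∈ ind G (H \ N G H v), lam ^ ω.card ≤ 2 / lam * Wv G lam H v := by
  have h1 : ∑ ω ∈ (ind G (H \ N G H v)).filter (fun ω => v ∈ ω), lam ^ ω.card ≤ Wv G lam H v := by
    apply Finset.sum_le_sum_of_subset_of_nonneg
    · intro I hI
      rw [Finset.mem_filter] at hI ⊢
      exact ⟨ind_mono Finset.sdiff_subset hI.1, hI.2⟩
    · intro _ _ _
      exact (pow_pos hl _).le
  have h2 : lam * ∑ ω ∈ (ind G (H \ N G H v)).filter (fun ω => ¬ v ∈ ω), lam ^ ω.card ≤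
      Wv G lam H v := by
    have h3 : lam * ∑ ω ∈ (ind G (H \ N G H v)).filter (fun ω => ¬ v ∈ ω), lam ^ ω.card =
        ∑ I ∈ ((ind G (H \ N G H v)).filter (fun ω => ¬ v ∈ ω)).image (fun ω => insert v ω),
          lam ^ I.card := by
      rw [Finset.sum_image, Finset.mul_sum]
      · refine Finset.sum_congr rfl fun ω hω => ?_
        rw [Finset.mem_filter] at hω
        rw [Finset.card_insert_of_notMem hω.2, pow_succ, mul_comm]
      · intro a ha b hb hab
        have ha' := (Finset.mem_filter.1 (Finset.mem_coe.1 ha)).2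
        have hb' := (Finset.mem_filter.1 (Finset.mem_coe.1 hb)).2
        have h4 := congrArg (fun s => s.erase v) hab
        simpa [Finset.erase_insert ha', Finset.erase_insert hb'] using h4
    rw [h3]
    apply Finset.sum_le_sum_of_subset_of_nonneg
    · intro I hI
      rw [Finset.mem_image] at hI
      obtain ⟨ω, hω, rfl⟩ := hI
      rw [Finset.mem_filter] at hω
      rw [Finset.mem_filter]
      refine ⟨insert_mem_ind (ind_mono Finset.sdiff_subset hω.1) ?_, Finset.mem_insert_self _ _⟩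
      rw [mem_fr]
      refine ⟨hv, hω.2, ?_⟩
      intro w hw hvw
      have h4 := (mem_ind.1 hω.1).1 hw
      rw [Finset.mem_sdiff, mem_N] at h4
      exact h4.2 ⟨h4.1, hvw⟩
    · intro _ _ _
      exact (pow_pos hl _).le
  have h3 := Finset.sum_filter_add_sum_filter_not (ind G (H \ N G H v)) (fun ω => v ∈ ω)
    (fun ω => lam ^ ω.card)
  have hW : 0 ≤ Wv G lam H v := Finset.sum_nonneg fun _ _ => (pow_pos hl _).le
  rw [← h3]
  have h4 : ∑ ω ∈ (ind G (H \ N G H v)).filter (fun ω => ¬ v ∈ ω), lam ^ ω.card ≤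
      1 / lam * Wv G lam H v := by
    rw [one_div, ← div_eq_inv_mul, le_div_iff₀ hl, mul_comm]
    exact h2
  have h5 : Wv G lam H v ≤ 1 / lam * Wv G lam H v := by
    have : 1 ≤ 1 / lam := by rw [le_div_iff₀ hl]; linarith
    nlinarith
  have h6 : 2 / lam * Wv G lam H v = 1 / lam * Wv G lam H v + 1 / lam * Wv G lam H v := by ring
  linarith

/-- a bad vertex sees many copies of `K_{t,t}` -/
theorem bad_many (r kk L : ℕ) (H : Finset V) (v : V) (hv : v ∈ H)
    (lam Lam M x δ D B0 z : ℝ) (hl : 0 < lam) (hl1 : lam ≤ 1)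
    (hdeg : ∀ u, ((N G univ u).card : ℝ) ≤ D)
    (hW : 16 * Lam / lam * Wv G lam H v ≤ Z G lam H)
    (hE : 8 * En G lam H v ≤ kk * Z G lam H)
    (hhi : ∑ I ∈ ind G H, lam ^ I.card * ((N G (fhi G z H I) v).card : ℝ) ≤ B0 * Z G lam H)
    (hB0 : 0 < B0) (hkk : 0 < kk)
    (hLam : 0 < Lam) (hx : 0 < x) (hx1 : x ≤ 1) (hM : 2 ≤ M)
    (h1 : Real.exp (M * x) * (1 / x) ^ (2 * kk) * (2 * (2 * kk + 1)) < Lam)
    (h2 : Lam < 2 ^ L) (h3 : 4 * ((2 * kk : ℝ) + L) ≤ M) (hδ0 : 0 < δ)
    (hδ : (L : ℝ) * δ ≤ 1 / 2) (hδ1 : δ ≤ 1)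
    (N0 : 2 * lam ≤ δ) (N1 : 64 * D * B0 * Lam * lam ^ 2 ≤ δ)
    (N2 : 16 * ((r : ℝ) + 1) ^ 2 * lam ≤ δ * (δ / 24) ^ ((r + 1) * (r + 1))) :
    Z G lam H / 2 * ((δ / 24) ^ ((r + 1) * (r + 1)) * (δ / 4) ^ (2 * r) * δ /
      (16 * Lam * lam ^ (2 * r + 2))) ≤
      ∑ I ∈ ind G H, lam ^ I.card * ((K G (r + 1) (N G (flo G z H I) v)).card : ℝ) := by
  set Q := (δ / 24) ^ ((r + 1) * (r + 1)) * (δ / 4) ^ (2 * r) * δ /
      (16 * Lam * lam ^ (2 * r + 2)) with hQ
  have hQ0 : 0 ≤ Q := by rw [hQ]; positivity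
  set Bv := N G H v with hBv
  have hB : Bv ⊆ H := Finset.filter_subset _ _
  set S : Finset V → Finset V := fun ω => fr G Bv ω with hS
  set hi : Finset V → Finset V → Finset V := fun ω I' =>
    (fr G (S ω) I').filter (fun u => z < ((N G (fr G H (ω ∪ I')) u).card : ℝ)) with hhidef
  set Ω := ind G (H \ Bv) with hΩ
  have hlp : ∀ n : ℕ, 0 < lam ^ n := fun n => pow_pos hl n
  -- the three kinds of exceptional outside configurations
  set c1 : Finset V → Prop := fun ω => Lam < Z G lam (S ω) with hc1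
  set c2 : Finset V → Prop := fun ω => ∑ I' ∈ ind G (S ω), lam ^ I'.card * (I'.card : ℝ) ≤
    kk * Z G lam (S ω) with hc2
  set c3 : Finset V → Prop := fun ω => ∑ I' ∈ ind G (S ω), lam ^ I'.card *
    ((hi ω I').card : ℝ) ≤ 8 * B0 * Z G lam (S ω) with hc3
  have m1 : ∑ ω ∈ Ω.filter (fun ω => ¬ c1 ω), lam ^ ω.card * Z G lam (S ω) ≤
      Z G lam H / 8 := by
    calc ∑ ω ∈ Ω.filter (fun ω => ¬ c1 ω), lam ^ ω.card * Z G lam (S ω) ≤
          ∑ ω ∈ Ω.filter (fun ω => ¬ c1 ω), lam ^ ω.card * Lam := by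
          refine Finset.sum_le_sum fun ω hω => ?_
          exact mul_le_mul_of_nonneg_left (not_lt.1 (Finset.mem_filter.1 hω).2) (hlp _).le
      _ ≤ ∑ ω ∈ Ω, lam ^ ω.card * Lam :=
          Finset.sum_le_sum_of_subset_of_nonneg (Finset.filter_subset _ _)
            (fun _ _ _ => mul_nonneg (hlp _).le hLam.le)
      _ = Lam * ∑ ω ∈ Ω, lam ^ ω.card := by rw [← Finset.sum_mul, mul_comm]
      _ ≤ Lam * (2 / lam * Wv G lam H v) :=
          mul_le_mul_of_nonneg_left (outside_le hv hl hl1) hLam.le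
      _ = (16 * Lam / lam * Wv G lam H v) / 8 := by ring
      _ ≤ _ := by linarith
  have m2 : ∑ ω ∈ Ω.filter (fun ω => ¬ c2 ω), lam ^ ω.card * Z G lam (S ω) ≤
      Z G lam H / 8 := by
    have hkk' : (0 : ℝ) < kk := by exact_mod_cast hkk
    have h4 : kk * ∑ ω ∈ Ω.filter (fun ω => ¬ c2 ω), lam ^ ω.card * Z G lam (S ω) ≤
        En G lam H v := by
      rw [En, decomp_pow hB, Finset.mul_sum]
      refine le_trans (Finset.sum_le_sum (g := fun ω => lam ^ ω.card *
        ∑ I' ∈ ind G (fr G Bv ω), lam ^ I'.card * ((N G (ω ∪ I') v).card : ℝ)) ?_)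
        (Finset.sum_le_sum_of_subset_of_nonneg (Finset.filter_subset _ _)
          (fun _ _ _ => mul_nonneg (hlp _).le (Finset.sum_nonneg fun _ _ =>
            mul_nonneg (hlp _).le (Nat.cast_nonneg _))))
      intro ω hω
      rw [Finset.mem_filter] at hω
      have h5 : kk * Z G lam (S ω) < ∑ I' ∈ ind G (S ω), lam ^ I'.card * (I'.card : ℝ) :=
        not_le.1 hω.2
      have h6 : ∑ I' ∈ ind G (S ω), lam ^ I'.card * (I'.card : ℝ) ≤
          ∑ I' ∈ ind G (fr G Bv ω), lam ^ I'.card * ((N G (ω ∪ I') v).card : ℝ) := by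
        refine Finset.sum_le_sum fun I' hI' => ?_
        refine mul_le_mul_of_nonneg_left ?_ (hlp _).le
        have h7 : I' ⊆ N G (ω ∪ I') v := by
          intro u hu
          have h8 := (mem_ind.1 hI').1 hu
          rw [mem_fr] at h8
          exact mem_N.2 ⟨Finset.mem_union_right _ hu, (mem_N.1 h8.1).2⟩
        exact_mod_cast Finset.card_le_card h7
      calc kk * (lam ^ ω.card * Z G lam (S ω)) = lam ^ ω.card * (kk * Z G lam (S ω)) := by ring
        _ ≤ _ := mul_le_mul_of_nonneg_left (h5.le.trans h6) (hlp _).le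
    have h5 : (kk : ℝ) * (8 * ∑ ω ∈ Ω.filter (fun ω => ¬ c2 ω), lam ^ ω.card *
        Z G lam (S ω)) ≤ kk * Z G lam H := by linarith
    have h6 := le_of_mul_le_mul_left h5 hkk'
    linarith
  have hhi_eq : ∀ ω I', hi ω I' = N G (fhi G z H (ω ∪ I')) v := by
    intro ω I'
    ext u
    simp only [hhidef, fhi, mem_N, Finset.mem_filter, hS]
    rw [← fr_union hB]
    simp only [Finset.mem_inter, hBv, mem_N]
    constructor
    · rintro ⟨⟨h4, h5, h6⟩, h7⟩
      exact ⟨⟨h4, h7⟩, h6⟩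
    · rintro ⟨⟨h4, h7⟩, h6⟩
      exact ⟨⟨h4, (mem_fr.1 h4).1, h6⟩, h7⟩
  have m3 : ∑ ω ∈ Ω.filter (fun ω => ¬ c3 ω), lam ^ ω.card * Z G lam (S ω) ≤
      Z G lam H / 8 := by
    have h4 : 8 * B0 * ∑ ω ∈ Ω.filter (fun ω => ¬ c3 ω), lam ^ ω.card * Z G lam (S ω) ≤
        B0 * Z G lam H := by
      refine le_trans ?_ hhi
      rw [decomp_pow hB, Finset.mul_sum]
      refine le_trans (Finset.sum_le_sum (g := fun ω => lam ^ ω.card *
        ∑ I' ∈ ind G (fr G Bv ω), lam ^ I'.card * ((N G (fhi G z H (ω ∪ I')) v).card : ℝ)) ?_)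
        (Finset.sum_le_sum_of_subset_of_nonneg (Finset.filter_subset _ _)
          (fun _ _ _ => mul_nonneg (hlp _).le (Finset.sum_nonneg fun _ _ =>
            mul_nonneg (hlp _).le (Nat.cast_nonneg _))))
      intro ω hω
      rw [Finset.mem_filter] at hω
      have h5 : 8 * B0 * Z G lam (S ω) < ∑ I' ∈ ind G (S ω), lam ^ I'.card *
        ((hi ω I').card : ℝ) := not_le.1 hω.2
      have h6 : ∑ I' ∈ ind G (S ω), lam ^ I'.card * ((hi ω I').card : ℝ) =
          ∑ I' ∈ ind G (fr G Bv ω), lam ^ I'.card *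
            ((N G (fhi G z H (ω ∪ I')) v).card : ℝ) :=
        Finset.sum_congr rfl fun I' _ => by rw [hhi_eq]
      calc 8 * B0 * (lam ^ ω.card * Z G lam (S ω)) =
            lam ^ ω.card * (8 * B0 * Z G lam (S ω)) := by ring
        _ ≤ _ := mul_le_mul_of_nonneg_left (h5.le.trans h6.le) (hlp _).le
    have h5 : B0 * (8 * ∑ ω ∈ Ω.filter (fun ω => ¬ c3 ω), lam ^ ω.card *
        Z G lam (S ω)) ≤ B0 * Z G lam H := by linarith
    have h6 := le_of_mul_le_mul_left h5 hB0
    linarith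
  -- the good configurations
  have hgood : Z G lam H / 2 ≤ ∑ ω ∈ Ω.filter (fun ω => c1 ω ∧ c2 ω ∧ c3 ω),
      lam ^ ω.card * Z G lam (S ω) := by
    have h4 : Z G lam H ≤ ∑ ω ∈ Ω.filter (fun ω => c1 ω ∧ c2 ω ∧ c3 ω),
        lam ^ ω.card * Z G lam (S ω) + (∑ ω ∈ Ω.filter (fun ω => ¬ c1 ω),
        lam ^ ω.card * Z G lam (S ω) + (∑ ω ∈ Ω.filter (fun ω => ¬ c2 ω),
        lam ^ ω.card * Z G lam (S ω) + ∑ ω ∈ Ω.filter (fun ω => ¬ c3 ω),
        lam ^ ω.card * Z G lam (S ω))) := by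
      rw [Z_decomp hB]
      simp only [Finset.sum_filter]
      rw [← Finset.sum_add_distrib, ← Finset.sum_add_distrib, ← Finset.sum_add_distrib]
      refine Finset.sum_le_sum fun ω _ => ?_
      have h5 : 0 ≤ lam ^ ω.card * Z G lam (S ω) := mul_nonneg (hlp _).le (Z_pos hl _).le
      have h6 : lam ^ ω.card * Z G lam (fr G Bv ω) = lam ^ ω.card * Z G lam (S ω) := rfl
      rw [h6]
      by_cases a1 : c1 ω <;> by_cases a2 : c2 ω <;> by_cases a3 : c3 ω <;>
        simp only [a1, a2, a3, if_true, if_false, and_true, and_false, not_true_eq_false,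
          not_false_eq_true] <;> linarith
    have hZ := (Z_pos (G := G) hl H).le
    linarith
  -- conclusion
  rw [decomp_pow hB]
  calc Z G lam H / 2 * Q ≤ (∑ ω ∈ Ω.filter (fun ω => c1 ω ∧ c2 ω ∧ c3 ω),
        lam ^ ω.card * Z G lam (S ω)) * Q := mul_le_mul_of_nonneg_right hgood hQ0
    _ = ∑ ω ∈ Ω.filter (fun ω => c1 ω ∧ c2 ω ∧ c3 ω), lam ^ ω.card * (Z G lam (S ω) * Q) := by
        rw [Finset.sum_mul]
        exact Finset.sum_congr rfl fun _ _ => by ring
    _ ≤ ∑ ω ∈ Ω.filter (fun ω => c1 ω ∧ c2 ω ∧ c3 ω), lam ^ ω.card *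
        ∑ I' ∈ ind G (fr G Bv ω), lam ^ I'.card *
          ((K G (r + 1) (N G (flo G z H (ω ∪ I')) v)).card : ℝ) := by
        refine Finset.sum_le_sum fun ω hω => ?_
        refine mul_le_mul_of_nonneg_left ?_ (hlp _).le
        rw [Finset.mem_filter] at hω
        obtain ⟨_, g1, g2, g3⟩ := hω
        have hSD : ((S ω).card : ℝ) ≤ D := by
          refine le_trans ?_ (hdeg v)
          have h4 : S ω ⊆ N G univ v := by
            intro u hu
            have h5 := (mem_fr.1 hu).1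
            exact mem_N.2 ⟨Finset.mem_univ _, (mem_N.1 h5).2⟩
          exact_mod_cast Finset.card_le_card h4
        have h4 := local_lemma r kk L (S ω) (hi ω) lam Lam M x δ D (8 * B0) hl
          (fun I' _ => Finset.filter_subset _ _) hSD g1 g2 g3 hLam hx hx1 hM h1 h2 h3 hδ0 hδ hδ1 N0
          (by linarith) N2
        refine h4.trans (le_of_eq ?_)
        refine Finset.sum_congr rfl fun I' _ => ?_
        have h5 : fr G (S ω) I' \ hi ω I' = N G (flo G z H (ω ∪ I')) v := by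
          ext u
          simp only [hhidef, flo, mem_N, Finset.mem_filter, hS, Finset.mem_sdiff, not_and, not_lt]
          rw [← fr_union hB]
          simp only [Finset.mem_inter, hBv, mem_N]
          constructor
          · rintro ⟨⟨h4, h5, h6⟩, h7⟩
            exact ⟨⟨h4, h7 ⟨h4, h5, h6⟩⟩, h6⟩
          · rintro ⟨⟨h4, h7⟩, h6⟩
            exact ⟨⟨h4, (mem_fr.1 h4).1, h6⟩, fun _ => h7⟩
        rw [h5]
    _ ≤ _ := Finset.sum_le_sum_of_subset_of_nonneg (Finset.filter_subset _ _)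
        (fun _ _ _ => mul_nonneg (hlp _).le (Finset.sum_nonneg fun _ _ =>
          mul_nonneg (hlp _).le (Nat.cast_nonneg _)))

/-- all copies of `K_{t,t}` among the vertices with few free neighbours -/
theorem K_flo (r : ℕ) (H I : Finset V) {z : ℝ} (hz : 0 < z) :
    ((K G (r + 1) (flo G z H I)).card : ℝ) ≤ z ^ (2 * r + 1) * H.card := by
  set f := fr G H I with hf
  have h1 : (f.card : ℝ) ≤ H.card := by
    exact_mod_cast Finset.card_le_card (Finset.filter_subset _ _)
  have h2 : ((K G (r + 1) (flo G z H I)).card : ℝ) ≤ ∑ p ∈ K G (r + 1) (flo G z H I),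
      z ^ (2 * r + 1) * ((((N G f (p.1 0)).card : ℝ) ^ (r + 1))⁻¹ *
      (((N G f (p.2 0)).card : ℝ) ^ r)⁻¹) := by
    rw [Finset.card_eq_sum_ones, Nat.cast_sum]
    refine Finset.sum_le_sum fun p hp => ?_
    rw [mem_K] at hp
    have hp1 := hp.1.1.1 0
    have hp2 := hp.1.1.2 0
    have hp3 := hp.1.2 0 0
    rw [flo, Finset.mem_filter, ← hf] at hp1 hp2
    have h12 : (0 : ℝ) < ((N G f (p.1 0)).card : ℝ) := by
      exact_mod_cast Finset.card_pos.2 ⟨p.2 0, mem_N.2 ⟨hp2.1, hp3⟩⟩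
    have h13 : (0 : ℝ) < ((N G f (p.2 0)).card : ℝ) := by
      exact_mod_cast Finset.card_pos.2 ⟨p.1 0, mem_N.2 ⟨hp1.1, hp3.symm⟩⟩
    rw [← mul_inv, ← div_eq_mul_inv, le_div_iff₀ (by positivity), Nat.cast_one, one_mul,
      show 2 * r + 1 = (r + 1) + r by ring, pow_add z]
    exact mul_le_mul (pow_le_pow_left₀ h12.le hp1.2 _) (pow_le_pow_left₀ h13.le hp2.2 _)
      (by positivity) (by positivity)
  refine h2.trans ?_
  rw [← Finset.mul_sum]
  refine mul_le_mul_of_nonneg_left (le_trans ?_ h1) (by positivity)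
  refine le_trans ?_ (K_upper (G := G) r f)
  apply Finset.sum_le_sum_of_subset_of_nonneg
  · intro p hp
    rw [mem_K] at hp ⊢
    exact ⟨⟨⟨fun i => (Finset.mem_filter.1 (hp.1.1.1 i)).1,
      fun i => (Finset.mem_filter.1 (hp.1.1.2 i)).1⟩, hp.1.2⟩, hp.2⟩
  · intro _ _ _
    positivity

/-- few vertices have many neighbours among the free vertices with many free neighbours -/
theorem few_hi (H : Finset V) {lam D B0 z X : ℝ} (hl : 0 < lam)
    (hdeg : ∀ u, ((N G univ u).card : ℝ) ≤ D) (hB0 : 0 < B0) (hz : 0 < z)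
    (hX : gs G lam H z ≤ X * H.card * Z G lam H) :
    ((H.filter (fun v => B0 * Z G lam H <
      ∑ I ∈ ind G H, lam ^ I.card * ((N G (fhi G z H I) v).card : ℝ))).card : ℝ) ≤
      D * X / (B0 * z) * H.card := by
  have hZ := Z_pos (G := G) hl H
  by_cases hD : D < 0
  · have : H = ∅ := by
      rw [Finset.eq_empty_iff_forall_notMem]
      intro v _
      have := hdeg v
      have h2 : (0 : ℝ) ≤ ((N G univ v).card : ℝ) := Nat.cast_nonneg _
      linarith
    subst this
    simp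
  push Not at hD
  have h1 : ∀ I, ∑ v ∈ H, ((N G (fhi G z H I) v).card : ℝ) ≤ D * ((fhi G z H I).card : ℝ) := by
    intro I
    have h2 : ∑ v ∈ H, (N G (fhi G z H I) v).card = ∑ u ∈ fhi G z H I, (N G H u).card := by
      simp only [N, Finset.card_filter]
      rw [Finset.sum_comm]
      refine Finset.sum_congr rfl fun w _ => ?_
      refine Finset.sum_congr rfl fun u _ => ?_
      simp only [G.adj_comm]
    have h3 : ∑ v ∈ H, ((N G (fhi G z H I) v).card : ℝ) =
      ∑ u ∈ fhi G z H I, ((N G H u).card : ℝ) := by exact_mod_cast h2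
    rw [h3, mul_comm, ← nsmul_eq_mul, ← Finset.sum_const]
    refine Finset.sum_le_sum fun u _ => ?_
    refine le_trans ?_ (hdeg u)
    exact_mod_cast Finset.card_le_card (Finset.filter_subset_filter _ (Finset.subset_univ _))
  have h2 : ∀ I, z * ((fhi G z H I).card : ℝ) ≤ hs G (fr G H I) z := by
    intro I
    unfold hs
    rw [mul_comm, ← nsmul_eq_mul, ← Finset.sum_const]
    refine Finset.sum_le_sum fun u hu => ?_
    exact (Finset.mem_filter.1 hu).2.le
  set Bs := H.filter (fun v => B0 * Z G lam H <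
      ∑ I ∈ ind G H, lam ^ I.card * ((N G (fhi G z H I) v).card : ℝ)) with hBs
  have h3 : (Bs.card : ℝ) * (B0 * Z G lam H) ≤ D * ((X * H.card * Z G lam H) / z) := by
    calc (Bs.card : ℝ) * (B0 * Z G lam H) = ∑ _v ∈ Bs, B0 * Z G lam H := by
          rw [Finset.sum_const, nsmul_eq_mul]
      _ ≤ ∑ v ∈ Bs, ∑ I ∈ ind G H, lam ^ I.card * ((N G (fhi G z H I) v).card : ℝ) :=
          Finset.sum_le_sum fun v hv => (Finset.mem_filter.1 hv).2.le
      _ ≤ ∑ v ∈ H, ∑ I ∈ ind G H, lam ^ I.card * ((N G (fhi G z H I) v).card : ℝ) :=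
          Finset.sum_le_sum_of_subset_of_nonneg (Finset.filter_subset _ _)
            (fun _ _ _ => Finset.sum_nonneg fun _ _ => by positivity)
      _ = ∑ I ∈ ind G H, lam ^ I.card * ∑ v ∈ H, ((N G (fhi G z H I) v).card : ℝ) := by
          rw [Finset.sum_comm]
          exact Finset.sum_congr rfl fun _ _ => by rw [Finset.mul_sum]
      _ ≤ ∑ I ∈ ind G H, lam ^ I.card * (D * (hs G (fr G H I) z / z)) := by
          refine Finset.sum_le_sum fun I _ => ?_
          refine mul_le_mul_of_nonneg_left ((h1 I).trans ?_) (pow_pos hl _).le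
          refine mul_le_mul_of_nonneg_left ?_ hD
          rw [le_div_iff₀ hz, mul_comm]
          exact h2 I
      _ = D * (gs G lam H z / z) := by
          rw [gs, Finset.sum_div, Finset.mul_sum]
          exact Finset.sum_congr rfl fun _ _ => by ring
      _ ≤ _ := by gcongr
  have h4 : (Bs.card : ℝ) * (B0 * Z G lam H) ≤ (D * X / (B0 * z) * H.card) * (B0 * Z G lam H) := by
    refine h3.trans (le_of_eq ?_)
    field_simp
  exact le_of_mul_le_mul_right h4 (by positivity)

/-- **few vertices are bad** -/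
theorem bad_bound (r s kk L : ℕ) (hR : Rare G (r + 1) s) (H : Finset V)
    (lam Lam M x δ D B0 z X β gam : ℝ) (hl : 0 < lam) (hl1 : lam ≤ 1)
    (hdeg : ∀ u, ((N G univ u).card : ℝ) ≤ D)
    (hX : gs G lam H z ≤ X * H.card * Z G lam H)
    (hβ : 16 * Lam ≤ β * lam) (hgam : 8 ≤ kk * gam) (hgam0 : 0 < gam)
    (hB0 : 0 < B0) (hkk : 0 < kk) (hz : 0 < z)
    (hLam : 0 < Lam) (hx : 0 < x) (hx1 : x ≤ 1) (hM : 2 ≤ M)
    (h1 : Real.exp (M * x) * (1 / x) ^ (2 * kk) * (2 * (2 * kk + 1)) < Lam)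
    (h2 : Lam < 2 ^ L) (h3 : 4 * ((2 * kk : ℝ) + L) ≤ M) (hδ0 : 0 < δ)
    (hδ : (L : ℝ) * δ ≤ 1 / 2) (hδ1 : δ ≤ 1)
    (N0 : 2 * lam ≤ δ) (N1 : 64 * D * B0 * Lam * lam ^ 2 ≤ δ)
    (N2 : 16 * ((r : ℝ) + 1) ^ 2 * lam ≤ δ * (δ / 24) ^ ((r + 1) * (r + 1))) :
    ((H.filter (fun v => β * Wv G lam H v + gam * En G lam H v < Z G lam H)).card : ℝ) ≤
      (2 * s * z ^ (2 * r + 1) / ((δ / 24) ^ ((r + 1) * (r + 1)) * (δ / 4) ^ (2 * r) * δ /
      (16 * Lam * lam ^ (2 * r + 2))) + D * X / (B0 * z)) * H.card := by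
  set Q := (δ / 24) ^ ((r + 1) * (r + 1)) * (δ / 4) ^ (2 * r) * δ /
      (16 * Lam * lam ^ (2 * r + 2)) with hQ
  have hQ0 : 0 < Q := by rw [hQ]; positivity
  have hZ := Z_pos (G := G) hl H
  set hb := H.filter (fun v => B0 * Z G lam H <
      ∑ I ∈ ind G H, lam ^ I.card * ((N G (fhi G z H I) v).card : ℝ)) with hhb
  set B1 := H.filter (fun v => β * Wv G lam H v + gam * En G lam H v < Z G lam H ∧
    ¬ B0 * Z G lam H < ∑ I ∈ ind G H, lam ^ I.card * ((N G (fhi G z H I) v).card : ℝ)) with hB1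
  have h4 : H.filter (fun v => β * Wv G lam H v + gam * En G lam H v < Z G lam H) ⊆ B1 ∪ hb := by
    intro v hv
    rw [Finset.mem_filter] at hv
    rw [Finset.mem_union, hB1, hhb, Finset.mem_filter, Finset.mem_filter]
    tauto
  have h5 := (Finset.card_le_card h4).trans (Finset.card_union_le _ _)
  have h6 : ((H.filter (fun v => β * Wv G lam H v + gam * En G lam H v <
      Z G lam H)).card : ℝ) ≤ B1.card + hb.card := by exact_mod_cast h5
  have h7 := few_hi H hl hdeg hB0 hz hX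
  rw [← hhb] at h7
  have h8 : (B1.card : ℝ) ≤ 2 * s * z ^ (2 * r + 1) / Q * H.card := by
    have h9 : ∀ v ∈ B1, Z G lam H / 2 * Q ≤
        ∑ I ∈ ind G H, lam ^ I.card * ((K G (r + 1) (N G (flo G z H I) v)).card : ℝ) := by
      intro v hv
      rw [hB1, Finset.mem_filter] at hv
      obtain ⟨hvH, hv1, hv2⟩ := hv
      have hW0 : 0 ≤ Wv G lam H v := Finset.sum_nonneg fun _ _ => (pow_pos hl _).le
      have hE0 : 0 ≤ En G lam H v := Finset.sum_nonneg fun _ _ => by positivity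
      have hβ0 : 0 < β := by
        by_contra hcon
        push Not at hcon
        nlinarith
      refine bad_many r kk L H v hvH lam Lam M x δ D B0 z hl hl1 hdeg ?_ ?_ (not_lt.1 hv2) hB0 hkk
        hLam hx hx1 hM h1 h2 h3 hδ0 hδ hδ1 N0 N1 N2
      · have h10 : 16 * Lam / lam ≤ β := by
          rw [div_le_iff₀ hl]; exact hβ
        have h11 := mul_le_mul_of_nonneg_right h10 hW0
        have h12 : 0 ≤ gam * En G lam H v := mul_nonneg hgam0.le hE0
        linarith
      · have h10 : gam * En G lam H v ≤ Z G lam H := by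
          have : 0 ≤ β * Wv G lam H v := mul_nonneg hβ0.le hW0
          linarith
        have h11 : (kk : ℝ) * (gam * En G lam H v) ≤ kk * Z G lam H :=
          mul_le_mul_of_nonneg_left h10 (Nat.cast_nonneg _)
        have h12 : 8 * En G lam H v ≤ (kk * gam) * En G lam H v :=
          mul_le_mul_of_nonneg_right hgam hE0
        linarith
    have h10 : (B1.card : ℝ) * (Z G lam H / 2 * Q) ≤ s * (z ^ (2 * r + 1) * H.card) *
        Z G lam H := by
      calc (B1.card : ℝ) * (Z G lam H / 2 * Q) = ∑ _v ∈ B1, Z G lam H / 2 * Q := by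
            rw [Finset.sum_const, nsmul_eq_mul]
        _ ≤ ∑ v ∈ B1, ∑ I ∈ ind G H, lam ^ I.card *
            ((K G (r + 1) (N G (flo G z H I) v)).card : ℝ) := Finset.sum_le_sum h9
        _ = ∑ I ∈ ind G H, lam ^ I.card *
            ∑ v ∈ B1, ((K G (r + 1) (N G (flo G z H I) v)).card : ℝ) := by
            rw [Finset.sum_comm]
            exact Finset.sum_congr rfl fun _ _ => by rw [Finset.mul_sum]
        _ ≤ ∑ I ∈ ind G H, lam ^ I.card * (s * (z ^ (2 * r + 1) * H.card)) := by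
            refine Finset.sum_le_sum fun I _ => ?_
            refine mul_le_mul_of_nonneg_left ?_ (pow_pos hl _).le
            have h11 := double_count hR (flo G z H I) B1 (fun _ => 1) (fun _ => zero_le_one)
            simp only [Finset.sum_const, nsmul_eq_mul, mul_one] at h11
            refine h11.trans ?_
            exact mul_le_mul_of_nonneg_left (K_flo r H I hz) (Nat.cast_nonneg _)
        _ = _ := by rw [← Finset.sum_mul, Z]; ring
    have h11 : (B1.card : ℝ) * (Z G lam H / 2 * Q) ≤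
        (2 * s * z ^ (2 * r + 1) / Q * H.card) * (Z G lam H / 2 * Q) := by
      refine h10.trans (le_of_eq ?_)
      clear_value Q
      field_simp
    exact le_of_mul_le_mul_right h11 (by positivity)
  rw [add_mul]
  linarith

end Pool.Agent.K1H34.UHC
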