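import Mathlib
import Pool.Agent.K1H34.UHC.Bad

set_option autoImplicit false

/-!
# Random independent sets containing almost all vertices with the right probability
-/

namespace Pool.Agent.K1H34.UHC

open Finset Classical

variable {V : Type} [Fintype V] {G : SimpleGraph V}

set_option linter.unusedSectionVars false

/-- a probability distribution on the independent subsets of `U` such that a given set `A` is
contained in the random set with probability at most `lam ^ |A|` -/
def Dist (G : SimpleGraph V) (lam : ℝ) (U : Finset V) (μ : Finset V → ℝ) : Prop :=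
  (∀ I, 0 ≤ μ I) ∧ (∀ I, μ I ≠ 0 → I ∈ ind G U) ∧ ∑ I, μ I = 1 ∧
    ∀ A : Finset V, ∑ I ∈ univ.filter (fun I => A ⊆ I), μ I ≤ lam ^ A.card

/-- the probability that `v` is in the set -/
noncomputable def pr (μ : Finset V → ℝ) (v : V) : ℝ := ∑ I ∈ univ.filter (fun I => v ∈ I), μ I

theorem pr_nonneg {μ : Finset V → ℝ} (h : ∀ I, 0 ≤ μ I) (v : V) : 0 ≤ pr μ v :=
  Finset.sum_nonneg fun I _ => h I

/-- sets containing `A` -/
theorem hc_subset {lam : ℝ} (hl : 0 < lam) (H A : Finset V) :
    ∑ I ∈ (ind G H).filter (fun I => A ⊆ I), lam ^ I.card ≤ lam ^ A.card * Z G lam H := by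
  have h1 : ∑ I ∈ (ind G H).filter (fun I => A ⊆ I), lam ^ I.card =
      lam ^ A.card * ∑ J ∈ ((ind G H).filter (fun I => A ⊆ I)).image (fun I => I \ A),
        lam ^ J.card := by
    rw [Finset.sum_image, Finset.mul_sum]
    · refine Finset.sum_congr rfl fun I hI => ?_
      rw [Finset.mem_filter] at hI
      rw [← pow_add]
      congr 1
      have := Finset.card_sdiff_add_card_eq_card hI.2
      omega
    · intro a ha b hb hab
      have ha' := (Finset.mem_filter.1 (Finset.mem_coe.1 ha)).2
      have hb' := (Finset.mem_filter.1 (Finset.mem_coe.1 hb)).2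
      have hab' : a \ A = b \ A := hab
      rw [← Finset.sdiff_union_of_subset ha', ← Finset.sdiff_union_of_subset hb', hab']
  rw [h1]
  refine mul_le_mul_of_nonneg_left ?_ (pow_pos hl _).le
  apply Finset.sum_le_sum_of_subset_of_nonneg
  · intro J hJ
    rw [Finset.mem_image] at hJ
    obtain ⟨I, hI, rfl⟩ := hJ
    exact ind_down (Finset.mem_filter.1 hI).1 Finset.sdiff_subset
  · intro _ _ _
    exact (pow_pos hl _).le

/-- the hard-core distribution -/
noncomputable def hcm (G : SimpleGraph V) (lam : ℝ) (H : Finset V) (I : Finset V) : ℝ :=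
  if I ∈ ind G H then lam ^ I.card / Z G lam H else 0

theorem hcm_nonneg {lam : ℝ} (hl : 0 < lam) (H I : Finset V) : 0 ≤ hcm G lam H I := by
  unfold hcm
  split_ifs
  · exact div_nonneg (pow_pos hl _).le (Z_pos hl H).le
  · exact le_rfl

theorem sum_hcm {lam : ℝ} (H : Finset V) (P : Finset V → Prop) [DecidablePred P]
    (φ : Finset V → ℝ) :
    ∑ I ∈ univ.filter P, hcm G lam H I * φ I =
      (∑ I ∈ (ind G H).filter P, lam ^ I.card * φ I) / Z G lam H := by
  unfold hcm
  rw [Finset.sum_div]
  simp only [ite_mul, zero_mul]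
  rw [Finset.sum_ite, Finset.sum_const_zero, add_zero]
  have : (univ.filter P).filter (fun I => I ∈ ind G H) = (ind G H).filter P := by
    ext I
    simp only [Finset.mem_filter, Finset.mem_univ, true_and]
    tauto
  rw [this]
  exact Finset.sum_congr rfl fun _ _ => by ring

theorem sum_hcm_one {lam : ℝ} (H : Finset V) (P : Finset V → Prop) [DecidablePred P] :
    ∑ I ∈ univ.filter P, hcm G lam H I =
      (∑ I ∈ (ind G H).filter P, lam ^ I.card) / Z G lam H := by
  have h := sum_hcm (G := G) (lam := lam) H P (fun _ => 1)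
  simpa using h

theorem sum_hcm_univ {lam : ℝ} (hl : 0 < lam) (H : Finset V) : ∑ I, hcm G lam H I = 1 := by
  have h := sum_hcm_one (G := G) (lam := lam) H (fun _ => True)
  simp only [Finset.filter_true] at h
  rw [h]
  exact div_self (Z_pos hl H).ne'

theorem pr_hcm {lam : ℝ} (H : Finset V) (v : V) :
    ∑ I ∈ univ.filter (fun I => v ∈ I), hcm G lam H I = Wv G lam H v / Z G lam H :=
  sum_hcm_one H _

theorem en_hcm {lam : ℝ} (H : Finset V) (v : V) :
    ∑ I, hcm G lam H I * ((N G I v).card : ℝ) = En G lam H v / Z G lam H := by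
  have h := sum_hcm (G := G) (lam := lam) H (fun _ => True) (fun I => ((N G I v).card : ℝ))
  simp only [Finset.filter_true] at h
  exact h

theorem sub_hcm {lam : ℝ} (hl : 0 < lam) (H A : Finset V) :
    ∑ I ∈ univ.filter (fun I => A ⊆ I), hcm G lam H I ≤ lam ^ A.card := by
  rw [sum_hcm_one, div_le_iff₀ (Z_pos hl H)]
  exact hc_subset hl H A

theorem Wv_pos {lam : ℝ} (hl : 0 < lam) {H : Finset V} {v : V} (hv : v ∈ H) :
    0 < Wv G lam H v := by
  refine Finset.sum_pos (fun _ _ => pow_pos hl _) ⟨{v}, ?_⟩
  rw [Finset.mem_filter, mem_ind]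
  refine ⟨⟨Finset.singleton_subset_iff.2 hv, ?_⟩, Finset.mem_singleton_self v⟩
  intro u hu w hw
  rw [Finset.mem_singleton] at hu hw
  subst hu hw
  exact G.irrefl

/-- **greedy fractional colouring** -/
theorem greedy {lam β gam a : ℝ} (hl : 0 < lam) (hβ : 0 ≤ β) (hgam : 0 ≤ gam) (ha : 0 ≤ a)
    (hgood : ∀ H : Finset V, ((H.filter (fun v => β * Wv G lam H v + gam * En G lam H v <
      Z G lam H)).card : ℝ) ≤ a * H.card) (n : ℕ) :
    ∀ H : Finset V, H.card = n → ∀ r : ℝ, 0 ≤ r → ∀ c : V → ℝ, (∀ v, 0 ≤ c v) →
    ∃ (ν : Finset V → ℝ) (B : Finset V) (bt : V → ℝ), (∀ I, 0 ≤ ν I) ∧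
      (∀ I, ν I ≠ 0 → I ∈ ind G H) ∧ (∑ I, ν I ≤ r) ∧ (∀ v, pr ν v ≤ c v) ∧ B ⊆ H ∧
      (∀ v ∈ H \ B, pr ν v = c v) ∧
      (∀ v ∈ B, r ≤ β * pr ν v + gam * (∑ I, ν I * ((N G I v).card : ℝ)) + bt v) ∧
      (∑ v ∈ B, bt v ≤ r * (a * H.card)) ∧
      ∀ A : Finset V, ∑ I ∈ univ.filter (fun I => A ⊆ I), ν I ≤ lam ^ A.card * r := by
  induction n with
  | zero =>
    intro H hH r hr c hc
    refine ⟨fun _ => 0, ∅, fun _ => 0, fun _ => le_rfl, fun I hI => absurd rfl hI, by simpa using hr,
      fun v => by simpa [pr] using hc v, Finset.empty_subset _, ?_, by simp, ?_, ?_⟩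
    · intro v hv
      rw [Finset.card_eq_zero.1 hH] at hv
      simp at hv
    · simp [hH]
    · intro A
      simp only [Finset.sum_const_zero]
      positivity
  | succ n ih =>
    intro H hH r hr c hc
    have hne : H.Nonempty := by rw [← Finset.card_pos, hH]; omega
    have hZ := Z_pos (G := G) hl H
    set P : V → ℝ := fun v => Wv G lam H v / Z G lam H with hP
    have hP0 : ∀ v, 0 ≤ P v := fun v =>
      div_nonneg (Finset.sum_nonneg fun _ _ => (pow_pos hl _).le) hZ.le
    have hPH : ∀ v ∈ H, 0 < P v := fun v hv => div_pos (Wv_pos hl hv) hZ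
    have hP1 : ∀ v, v ∉ H → P v = 0 := by
      intro v hv
      simp only [hP, Wv]
      rw [Finset.filter_eq_empty_iff.2, Finset.sum_empty, zero_div]
      intro I hI hvI
      exact hv ((mem_ind.1 hI).1 hvI)
    set bad := H.filter (fun v => β * Wv G lam H v + gam * En G lam H v < Z G lam H) with hbad
    -- one unit of time
    have hunit : ∀ v, 1 ≤ β * P v + gam * (∑ I, hcm G lam H I * ((N G I v).card : ℝ)) +
        (if v ∈ bad then 1 else 0) ∨ v ∉ H := by
      intro v
      by_cases hv : v ∈ H
      · left
        rw [en_hcm]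
        have hE0 : 0 ≤ En G lam H v := Finset.sum_nonneg fun _ _ => by positivity
        split_ifs with h
        · have h2 : 0 ≤ β * P v := mul_nonneg hβ (hP0 v)
          have h3 : 0 ≤ gam * (En G lam H v / Z G lam H) :=
            mul_nonneg hgam (div_nonneg hE0 hZ.le)
          linarith
        · rw [hbad, Finset.mem_filter, not_and, not_lt] at h
          have h2 := h hv
          have h3 : β * P v + gam * (En G lam H v / Z G lam H) + 0 =
              (β * Wv G lam H v + gam * En G lam H v) / Z G lam H := by
            simp only [hP]; ring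
          rw [h3, le_div_iff₀ hZ]
          linarith
      · exact Or.inr hv
    have hmax : ∀ v, pr (hcm G lam H) v = P v := fun v => pr_hcm H v
    by_cases hcase : ∀ v ∈ H, r * P v ≤ c v
    · refine ⟨fun I => r * hcm G lam H I, H, fun v => r * (if v ∈ bad then 1 else 0), ?_, ?_, ?_, ?_,
        Finset.Subset.refl _, ?_, ?_, ?_, ?_⟩
      · exact fun I => mul_nonneg hr (hcm_nonneg hl H I)
      · intro I hI
        by_contra hcon
        apply hI
        simp [hcm, hcon]
      · rw [← Finset.mul_sum, sum_hcm_univ hl, mul_one]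
      · intro v
        unfold pr
        rw [← Finset.mul_sum]
        have h1 := hmax v
        unfold pr at h1
        rw [h1]
        by_cases hv : v ∈ H
        · exact hcase v hv
        · rw [hP1 v hv, mul_zero]; exact hc v
      · intro v hv
        simp at hv
      · intro v hv
        have h1 := (hunit v).resolve_right (fun h => h hv)
        have h2 := mul_le_mul_of_nonneg_left h1 hr
        have h3 := hmax v
        unfold pr at h3 ⊢
        rw [← Finset.mul_sum, h3]
        have h4 : ∑ I, r * hcm G lam H I * ((N G I v).card : ℝ) =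
            r * ∑ I, hcm G lam H I * ((N G I v).card : ℝ) := by
          rw [Finset.mul_sum]
          exact Finset.sum_congr rfl fun _ _ => by ring
        rw [h4]
        calc r = r * 1 := (mul_one r).symm
          _ ≤ _ := h2
          _ = _ := by ring
      · rw [← Finset.mul_sum, Finset.sum_ite_mem, Finset.sum_const, nsmul_eq_mul, mul_one]
        refine mul_le_mul_of_nonneg_left ?_ hr
        refine le_trans ?_ (hgood H)
        rw [← hbad]
        exact_mod_cast Finset.card_le_card Finset.inter_subset_right
      · intro A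
        rw [← Finset.mul_sum, mul_comm]
        exact mul_le_mul_of_nonneg_right (sub_hcm hl H A) hr
    · push Not at hcase
      obtain ⟨v1, hv1, hv1c⟩ := hcase
      obtain ⟨v0, hv0, hv0min⟩ := Finset.exists_min_image H (fun v => c v / P v) hne
      set θ := c v0 / P v0 with hθ
      have hθ0 : 0 ≤ θ := div_nonneg (hc v0) (hP0 v0)
      have hθr : θ ≤ r := by
        refine (hv0min v1 hv1).trans ?_
        rw [div_le_iff₀ (hPH v1 hv1)]
        exact hv1c.le
      have hθc : ∀ v, θ * P v ≤ c v := by
        intro v
        by_cases hv : v ∈ H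
        · have := hv0min v hv
          rw [le_div_iff₀ (hPH v hv)] at this
          exact this
        · rw [hP1 v hv, mul_zero]; exact hc v
      have hθ1 : θ * P v0 = c v0 := by
        rw [hθ]; field_simp [(hPH v0 hv0).ne']
      obtain ⟨ν, B, bt, k1, k2, k3, k4, k5, k6, k7, k8, k9⟩ := ih (H.erase v0)
        (by rw [Finset.card_erase_of_mem hv0, hH]; rfl) (r - θ) (by linarith)
        (fun v => c v - θ * P v) (fun v => by linarith [hθc v])
      have hpr : ∀ v, pr (fun I => ν I + θ * hcm G lam H I) v = pr ν v + θ * P v := by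
        intro v
        have h3 := hmax v
        unfold pr at h3 ⊢
        rw [Finset.sum_add_distrib, ← Finset.mul_sum, h3]
      refine ⟨fun I => ν I + θ * hcm G lam H I, B, fun v => bt v + θ * (if v ∈ bad then 1 else 0),
        ?_, ?_, ?_, ?_, k5.trans (Finset.erase_subset _ _), ?_, ?_, ?_, ?_⟩
      · exact fun I => add_nonneg (k1 I) (mul_nonneg hθ0 (hcm_nonneg hl H I))
      · intro I hI
        by_contra hcon
        apply hI
        have h4 : ν I = 0 := by
          by_contra h5
          exact hcon (ind_mono (Finset.erase_subset _ _) (k2 I h5))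
        simp [hcm, hcon, h4]
      · rw [Finset.sum_add_distrib, ← Finset.mul_sum, sum_hcm_univ hl, mul_one]
        linarith
      · intro v
        rw [hpr v]
        linarith [k4 v]
      · intro v hv
        rw [hpr v]
        rw [Finset.mem_sdiff] at hv
        by_cases h4 : v = v0
        · subst h4
          have h5 : pr ν v = 0 := by
            unfold pr
            refine Finset.sum_eq_zero fun I hI => ?_
            by_contra h6
            have h7 := (mem_ind.1 (k2 I h6)).1 (Finset.mem_filter.1 hI).2
            simp at h7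
          rw [h5, zero_add]
          exact hθ1
        · rw [k6 v (Finset.mem_sdiff.2 ⟨Finset.mem_erase.2 ⟨h4, hv.1⟩, hv.2⟩)]
          ring
      · intro v hv
        have hvH : v ∈ H := Finset.mem_of_mem_erase (k5 hv)
        have h1 := (hunit v).resolve_right (fun h => h hvH)
        have h2 := mul_le_mul_of_nonneg_left h1 hθ0
        have h4 : ∑ I, (ν I + θ * hcm G lam H I) * ((N G I v).card : ℝ) =
            ∑ I, ν I * ((N G I v).card : ℝ) +
            θ * ∑ I, hcm G lam H I * ((N G I v).card : ℝ) := by
          rw [Finset.mul_sum, ← Finset.sum_add_distrib]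
          exact Finset.sum_congr rfl fun _ _ => by ring
        rw [hpr v, h4]
        have h5 := k7 v hv
        linarith
      · rw [Finset.sum_add_distrib, ← Finset.mul_sum]
        have h4 : ∑ v ∈ B, (if v ∈ bad then (1 : ℝ) else 0) ≤ a * H.card := by
          rw [Finset.sum_ite_mem, Finset.sum_const, nsmul_eq_mul, mul_one]
          refine le_trans ?_ (hgood H)
          rw [← hbad]
          exact_mod_cast Finset.card_le_card Finset.inter_subset_right
        have h5 : (r - θ) * (a * (H.erase v0).card) ≤ (r - θ) * (a * H.card) := by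
          refine mul_le_mul_of_nonneg_left (mul_le_mul_of_nonneg_left ?_ ha) (by linarith)
          exact_mod_cast Finset.card_le_card (Finset.erase_subset _ _)
        have h6 := mul_le_mul_of_nonneg_left h4 hθ0
        linarith
      · intro A
        rw [Finset.sum_add_distrib, ← Finset.mul_sum]
        have h4 := mul_le_mul_of_nonneg_left (sub_hcm (G := G) hl H A) hθ0
        have h5 := k9 A
        linarith

/-- **most vertices are covered with the right probability** -/
theorem frac {lam β gam a D T : ℝ} (hl : 0 < lam) (hβ : 0 ≤ β) (hgam : 0 ≤ gam) (ha : 0 ≤ a)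
    (hT : β + gam * D ≤ T) (hT0 : 0 < T)
    (hdeg : ∀ u, ((N G univ u).card : ℝ) ≤ D)
    (hgood : ∀ H : Finset V, ((H.filter (fun v => β * Wv G lam H v + gam * En G lam H v <
      Z G lam H)).card : ℝ) ≤ a * H.card) (U : Finset V) :
    ∃ μ : Finset V → ℝ, Dist G lam U μ ∧ (∀ v, pr μ v ≤ 1 / (2 * T)) ∧
      ∃ B ⊆ U, (B.card : ℝ) ≤ 2 * a * U.card ∧ ∀ v ∈ U \ B, pr μ v = 1 / (2 * T) := by
  obtain ⟨ν, B, bt, k1, k2, k3, k4, k5, k6, k7, k8, k9⟩ := greedy hl hβ hgam ha hgood U.card U rfl
    (2 * T) (by linarith) (fun _ => 1) (fun _ => zero_le_one)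
  have hpr : ∀ (x : ℝ) (v : V), pr (fun I => ν I / (2 * T) + if I = ∅ then x else 0) v =
      pr ν v / (2 * T) := by
    intro x v
    unfold pr
    rw [Finset.sum_add_distrib, ← Finset.sum_div]
    have h1 : ∑ I ∈ univ.filter (fun I : Finset V => v ∈ I), (if I = ∅ then x else 0) = 0 := by
      refine Finset.sum_eq_zero fun I hI => ?_
      rw [if_neg]
      rintro rfl
      simp at hI
    rw [h1, add_zero]
  refine ⟨fun I => ν I / (2 * T) + if I = ∅ then (1 - (∑ I, ν I) / (2 * T)) else 0,
    ⟨?_, ?_, ?_, ?_⟩, ?_, B, k5, ?_, ?_⟩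
  · intro I
    have h1 : (∑ I, ν I) / (2 * T) ≤ 1 := by
      rw [div_le_one (by positivity)]; exact k3
    have h2 : 0 ≤ ν I / (2 * T) := div_nonneg (k1 I) (by positivity)
    beta_reduce
    split_ifs <;> linarith
  · intro I hI
    by_cases h1 : I = ∅
    · rw [h1]; exact empty_mem_ind U
    · beta_reduce at hI
      rw [if_neg h1, add_zero] at hI
      apply k2
      intro h2
      apply hI
      rw [h2, zero_div]
  · rw [Finset.sum_add_distrib, ← Finset.sum_div, Finset.sum_ite_eq' univ ∅]
    simp
  · intro A
    rw [Finset.sum_add_distrib, ← Finset.sum_div]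
    by_cases hA : A = ∅
    · subst hA
      simp only [Finset.empty_subset, Finset.filter_true, Finset.card_empty, pow_zero]
      rw [Finset.sum_ite_eq' univ ∅]
      simp
    · have h1 : ∑ I ∈ univ.filter (fun I : Finset V => A ⊆ I),
          (if I = ∅ then (1 - (∑ I, ν I) / (2 * T)) else 0) = 0 := by
        refine Finset.sum_eq_zero fun I hI => ?_
        rw [if_neg]
        rintro rfl
        rw [Finset.mem_filter, Finset.subset_empty] at hI
        exact hA hI.2
      rw [h1, add_zero, div_le_iff₀ (by positivity)]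
      exact k9 A
  · intro v
    rw [hpr]
    exact div_le_div_of_nonneg_right (k4 v) (by positivity)
  · -- the number of exceptional vertices
    have h1 : ∀ v ∈ B, T ≤ bt v := by
      intro v hv
      have h2 := k7 v hv
      have h3 : ∑ I, ν I * ((N G I v).card : ℝ) ≤ D := by
        have h4 : ∑ I, ν I * ((N G I v).card : ℝ) = ∑ u ∈ N G univ v, pr ν u := by
          unfold pr
          simp only [Finset.sum_filter]
          rw [Finset.sum_comm]
          refine Finset.sum_congr rfl fun I _ => ?_
          rw [← Finset.sum_filter, Finset.sum_const, nsmul_eq_mul, mul_comm]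
          congr 3
          ext u
          simp only [Finset.mem_filter, mem_N, Finset.mem_univ, true_and]
          tauto
        rw [h4]
        refine (Finset.sum_le_sum fun u _ => k4 u).trans ?_
        rw [Finset.sum_const, nsmul_eq_mul, mul_one]
        exact hdeg v
      have h4 : β * pr ν v ≤ β := by
        have := mul_le_mul_of_nonneg_left (k4 v) hβ
        linarith
      have h5 := mul_le_mul_of_nonneg_left h3 hgam
      linarith
    have h2 : (B.card : ℝ) * T ≤ 2 * T * (a * U.card) := by
      refine le_trans ?_ k8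
      rw [← nsmul_eq_mul, ← Finset.sum_const]
      exact Finset.sum_le_sum h1
    have h3 : (B.card : ℝ) * T ≤ (2 * a * U.card) * T := by linarith
    exact le_of_mul_le_mul_right h3 hT0
  · intro v hv
    rw [hpr, k6 v hv]

end Pool.Agent.K1H34.UHC
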