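import Mathlib
import Pool.Agent.K1H34.UHC.Frac

set_option autoImplicit false

/-!
# Combining the weight classes
-/

namespace Pool.Agent.K1H34.UHC

open Finset Classical

variable {V : Type} [Fintype V] {G : SimpleGraph V}

set_option linter.unusedSectionVars false

/-- first `J`, then the part of `I` which has no neighbours in `J` -/
noncomputable def cmb (G : SimpleGraph V) (J I : Finset V) : Finset V :=
  J ∪ I.filter (fun v => ∀ u ∈ J, ¬ G.Adj v u)

theorem combine {lam p0 : ℝ} (hl : 0 < lam) {U1 U2 : Finset V} (hdis : Disjoint U1 U2)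
    {μ1 μ2 : Finset V → ℝ} (h1 : Dist G lam U1 μ1) (h2 : Dist G lam U2 μ2)
    (hp : ∀ v, pr μ1 v ≤ p0) :
    ∃ μ, Dist G lam (U1 ∪ U2) μ ∧ (∀ v ∈ U1, pr μ v = pr μ1 v) ∧
      (∀ v, v ∉ U1 → pr μ v ≤ pr μ2 v) ∧
      ∀ v ∈ U2, pr μ2 v * (1 - (N G U1 v).card * p0) ≤ pr μ v := by
  obtain ⟨a1, a2, a3, a4⟩ := h1
  obtain ⟨b1, b2, b3, b4⟩ := h2
  set μ : Finset V → ℝ := fun K => ∑ J, ∑ I, μ1 J * μ2 I * (if cmb G J I = K then 1 else 0)
    with hμ
  have key : ∀ φ : Finset V → ℝ, ∑ K, μ K * φ K = ∑ J, ∑ I, μ1 J * μ2 I * φ (cmb G J I) := by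
    intro φ
    simp only [hμ, Finset.sum_mul]
    rw [Finset.sum_comm]
    refine Finset.sum_congr rfl fun J _ => ?_
    rw [Finset.sum_comm]
    refine Finset.sum_congr rfl fun I _ => ?_
    rw [Finset.sum_eq_single (cmb G J I)]
    · simp
    · intro K _ hK
      rw [if_neg (fun h => hK h.symm)]
      ring
    · intro h
      exact absurd (Finset.mem_univ _) h
  have key2 : ∀ (P : Finset V → Prop) [DecidablePred P], ∑ K ∈ univ.filter P, μ K =
      ∑ J, ∑ I, μ1 J * μ2 I * (if P (cmb G J I) then 1 else 0) := by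
    intro P _
    rw [← key (fun K => if P K then 1 else 0), Finset.sum_filter]
    refine Finset.sum_congr rfl fun K _ => ?_
    split_ifs <;> simp
  have hJ : ∀ J, μ1 J ≠ 0 → J ⊆ U1 := fun J h => (mem_ind.1 (a2 J h)).1
  have hI : ∀ I, μ2 I ≠ 0 → I ⊆ U2 := fun I h => (mem_ind.1 (b2 I h)).1
  have hd : ∀ v, v ∈ U1 → v ∉ U2 := fun v hv hv' => (Finset.disjoint_left.1 hdis) hv hv'
  have hsplit : ∀ (f g : Finset V → ℝ), ∑ J, ∑ I, μ1 J * μ2 I * (f J * g I) =
      (∑ J, μ1 J * f J) * ∑ I, μ2 I * g I := by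
    intro f g
    rw [Finset.sum_mul_sum]
    refine Finset.sum_congr rfl fun J _ => Finset.sum_congr rfl fun I _ => ?_
    ring
  have hfil : ∀ (ν : Finset V → ℝ) (P : Finset V → Prop) [DecidablePred P],
      ∑ K ∈ univ.filter P, ν K = ∑ K, ν K * (if P K then 1 else 0) := by
    intro ν P _
    rw [Finset.sum_filter]
    refine Finset.sum_congr rfl fun K _ => ?_
    split_ifs <;> simp
  refine ⟨μ, ⟨?_, ?_, ?_, ?_⟩, ?_, ?_, ?_⟩
  · intro K
    simp only [hμ]
    refine Finset.sum_nonneg fun J _ => Finset.sum_nonneg fun I _ => ?_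
    have := a1 J
    have := b1 I
    split_ifs <;> positivity
  · intro K hK
    obtain ⟨J, _, hJ1⟩ := Finset.exists_ne_zero_of_sum_ne_zero hK
    obtain ⟨I, _, hI1⟩ := Finset.exists_ne_zero_of_sum_ne_zero hJ1
    have h3 : μ1 J ≠ 0 := fun h => hI1 (by rw [h]; ring)
    have h4 : μ2 I ≠ 0 := fun h => hI1 (by rw [h]; ring)
    have h5 : cmb G J I = K := by
      by_contra h
      rw [if_neg h, mul_zero] at hI1
      exact hI1 rfl
    rw [← h5]
    have h6 := mem_ind.1 (a2 J h3)
    have h7 := mem_ind.1 (b2 I h4)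
    rw [mem_ind]
    constructor
    · intro u hu
      rw [cmb, Finset.mem_union, Finset.mem_filter] at hu
      rw [Finset.mem_union]
      exact hu.imp (fun h => h6.1 h) (fun h => h7.1 h.1)
    · intro u hu w hw
      rw [cmb, Finset.mem_union, Finset.mem_filter] at hu hw
      rcases hu with hu | hu
      · rcases hw with hw | hw
        · exact h6.2 u hu w hw
        · exact fun h => hw.2 u hu h.symm
      · rcases hw with hw | hw
        · exact hu.2 w hw
        · exact h7.2 u hu.1 w hw.1
  · have h3 := key (fun _ => 1)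
    simp only [mul_one] at h3
    rw [h3]
    simp only [← Finset.mul_sum, b3, mul_one, a3]
  · intro A
    rw [key2]
    have h3 : ∀ J I, μ1 J * μ2 I * (if A ⊆ cmb G J I then (1 : ℝ) else 0) ≤
        μ1 J * μ2 I * ((if A ∩ U1 ⊆ J then 1 else 0) * (if A \ U1 ⊆ I then 1 else 0)) := by
      intro J I
      by_cases hJ0 : μ1 J = 0
      · rw [hJ0]; simp
      by_cases hI0 : μ2 I = 0
      · rw [hI0]; simp
      refine mul_le_mul_of_nonneg_left ?_ (mul_nonneg (a1 J) (b1 I))
      by_cases h4 : A ⊆ cmb G J I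
      · have h5 : A ∩ U1 ⊆ J := by
          intro v hv
          rw [Finset.mem_inter] at hv
          have h6 := h4 hv.1
          rw [cmb, Finset.mem_union, Finset.mem_filter] at h6
          rcases h6 with h6 | h6
          · exact h6
          · exact absurd (hI I hI0 h6.1) (hd v hv.2)
        have h6 : A \ U1 ⊆ I := by
          intro v hv
          rw [Finset.mem_sdiff] at hv
          have h7 := h4 hv.1
          rw [cmb, Finset.mem_union, Finset.mem_filter] at h7
          rcases h7 with h7 | h7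
          · exact absurd (hJ J hJ0 h7) hv.2
          · exact h7.1
        rw [if_pos h4, if_pos h5, if_pos h6]
        norm_num
      · rw [if_neg h4]
        positivity
    refine (Finset.sum_le_sum fun J _ => Finset.sum_le_sum fun I _ => h3 J I).trans ?_
    rw [hsplit (fun J => if A ∩ U1 ⊆ J then 1 else 0) (fun I => if A \ U1 ⊆ I then 1 else 0),
      ← hfil, ← hfil]
    have h4 := a4 (A ∩ U1)
    have h5 := b4 (A \ U1)
    have h6 : lam ^ A.card = lam ^ (A ∩ U1).card * lam ^ (A \ U1).card := by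
      rw [← pow_add]
      congr 1
      have := Finset.card_inter_add_card_sdiff A U1
      omega
    rw [h6]
    exact mul_le_mul h4 h5 (Finset.sum_nonneg fun _ _ => b1 _) (pow_pos hl _).le
  · intro v hv
    unfold pr
    rw [key2, hfil]
    refine Finset.sum_congr rfl fun J _ => ?_
    have h3 : ∀ I, μ1 J * μ2 I * (if v ∈ cmb G J I then (1 : ℝ) else 0) =
        μ2 I * (μ1 J * (if v ∈ J then 1 else 0)) := by
      intro I
      by_cases hI0 : μ2 I = 0
      · rw [hI0]; simp
      have h4 : v ∈ cmb G J I ↔ v ∈ J := by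
        rw [cmb, Finset.mem_union, Finset.mem_filter]
        constructor
        · rintro (h | h)
          · exact h
          · exact absurd (hI I hI0 h.1) (hd v hv)
        · exact Or.inl
      simp only [h4]
      ring
    rw [Finset.sum_congr rfl (fun I _ => h3 I), ← Finset.sum_mul, b3, one_mul]
  · intro v hv
    unfold pr
    rw [key2, hfil]
    have h3 : ∀ J I, μ1 J * μ2 I * (if v ∈ cmb G J I then (1 : ℝ) else 0) ≤
        μ1 J * (μ2 I * (if v ∈ I then 1 else 0)) := by
      intro J I
      by_cases hJ0 : μ1 J = 0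
      · rw [hJ0]; simp
      rw [mul_assoc]
      refine mul_le_mul_of_nonneg_left (mul_le_mul_of_nonneg_left ?_ (b1 I)) (a1 J)
      by_cases h4 : v ∈ cmb G J I
      · have h5 : v ∈ I := by
          rw [cmb, Finset.mem_union, Finset.mem_filter] at h4
          rcases h4 with h4 | h4
          · exact absurd (hJ J hJ0 h4) hv
          · exact h4.1
        rw [if_pos h4, if_pos h5]
      · rw [if_neg h4]
        split_ifs <;> norm_num
    refine (Finset.sum_le_sum fun J _ => Finset.sum_le_sum fun I _ => h3 J I).trans ?_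
    simp only [← Finset.mul_sum]
    rw [← Finset.sum_mul, a3, one_mul]
  · intro v hv
    unfold pr
    rw [key2, hfil μ2]
    have h3 : ∀ J I, μ1 J * μ2 I * ((1 - ∑ u ∈ N G U1 v, (if u ∈ J then 1 else 0)) *
        (if v ∈ I then (1 : ℝ) else 0)) ≤
        μ1 J * μ2 I * (if v ∈ cmb G J I then (1 : ℝ) else 0) := by
      intro J I
      by_cases hJ0 : μ1 J = 0
      · rw [hJ0]; simp
      refine mul_le_mul_of_nonneg_left ?_ (mul_nonneg (a1 J) (b1 I))
      by_cases h4 : v ∈ I
      · rw [if_pos h4, mul_one]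
        by_cases h5 : ∀ u ∈ J, ¬ G.Adj v u
        · rw [if_pos]
          · have : (0 : ℝ) ≤ ∑ u ∈ N G U1 v, (if u ∈ J then 1 else 0) :=
              Finset.sum_nonneg fun _ _ => by split_ifs <;> norm_num
            linarith
          · rw [cmb, Finset.mem_union, Finset.mem_filter]
            exact Or.inr ⟨h4, h5⟩
        · push Not at h5
          obtain ⟨u, hu, huv⟩ := h5
          have h6 : (1 : ℝ) ≤ ∑ u ∈ N G U1 v, (if u ∈ J then 1 else 0) := by
            refine le_trans ?_ (Finset.single_le_sum (f := fun u => if u ∈ J then (1 : ℝ) else 0)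
              (fun _ _ => by split_ifs <;> norm_num) (mem_N.2 ⟨hJ J hJ0 hu, huv⟩))
            rw [if_pos hu]
          have h7 : (0 : ℝ) ≤ if v ∈ cmb G J I then (1 : ℝ) else 0 := by split_ifs <;> norm_num
          linarith
      · rw [if_neg h4, mul_zero]
        split_ifs <;> norm_num
    refine le_trans ?_ (Finset.sum_le_sum fun J _ => Finset.sum_le_sum fun I _ => h3 J I)
    rw [hsplit (fun J => 1 - ∑ u ∈ N G U1 v, (if u ∈ J then (1 : ℝ) else 0))
      (fun I => if v ∈ I then (1 : ℝ) else 0), mul_comm]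
    have hp2 : 0 ≤ ∑ I, μ2 I * (if v ∈ I then (1 : ℝ) else 0) :=
      Finset.sum_nonneg fun I _ => mul_nonneg (b1 I) (by split_ifs <;> norm_num)
    refine mul_le_mul_of_nonneg_right ?_ hp2
    have h4 : ∑ J, μ1 J * (1 - ∑ u ∈ N G U1 v, (if u ∈ J then (1 : ℝ) else 0)) =
        1 - ∑ u ∈ N G U1 v, pr μ1 u := by
      simp only [mul_sub, mul_one, Finset.sum_sub_distrib, a3, Finset.mul_sum]
      rw [Finset.sum_comm]
      congr 1
      refine Finset.sum_congr rfl fun u _ => ?_
      unfold pr
      rw [hfil]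
    rw [h4]
    have h5 : ∑ u ∈ N G U1 v, pr μ1 u ≤ (N G U1 v).card * p0 := by
      refine (Finset.sum_le_sum fun u _ => hp u).trans ?_
      rw [Finset.sum_const, nsmul_eq_mul]
    linarith

/-- all classes of one parity -/
theorem classes {lam p0 : ℝ} (hl : 0 < lam) (hp0 : 0 ≤ p0) (U : Finset V) (cl : V → ℕ)
    (μs : ℕ → Finset V → ℝ) (hμ : ∀ j, Dist G lam (U.filter (fun v => cl v = j)) (μs j))
    (hp : ∀ j v, pr (μs j) v ≤ p0) (π : ℕ) (M : ℕ) (hM : ∀ v ∈ U, cl v ≤ M) (k : ℕ) :
    ∀ m, m + k = M + 1 → ∃ μ, Dist G lam (U.filter (fun v => m ≤ cl v ∧ cl v % 2 = π)) μ ∧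
      (∀ v, pr μ v ≤ p0) ∧ ∀ v ∈ U.filter (fun v => m ≤ cl v ∧ cl v % 2 = π),
        pr (μs (cl v)) v * (1 - (N G (U.filter (fun u => cl v + 1 ≤ cl u ∧ cl u % 2 = π)) v).card *
          p0) ≤ pr μ v := by
  induction k with
  | zero =>
    intro m hm
    have h1 : U.filter (fun v => m ≤ cl v ∧ cl v % 2 = π) = ∅ := by
      rw [Finset.filter_eq_empty_iff]
      intro v hv
      have := hM v hv
      omega
    rw [h1]
    refine ⟨fun I => if I = ∅ then 1 else 0, ⟨?_, ?_, ?_, ?_⟩, ?_, by simp⟩
    · intro I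
      beta_reduce
      split_ifs <;> norm_num
    · intro I hI
      beta_reduce at hI
      by_cases h : I = ∅
      · rw [h]; exact empty_mem_ind _
      · rw [if_neg h] at hI
        exact absurd rfl hI
    · rw [Finset.sum_ite_eq' univ ∅]
      simp
    · intro A
      by_cases hA : A = ∅
      · subst hA
        simp only [Finset.empty_subset, Finset.filter_true, Finset.card_empty, pow_zero]
        rw [Finset.sum_ite_eq' univ ∅]
        simp
      · rw [Finset.sum_eq_zero]
        · positivity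
        · intro I hI
          rw [if_neg]
          rintro rfl
          rw [Finset.mem_filter, Finset.subset_empty] at hI
          exact hA hI.2
    · intro v
      unfold pr
      rw [Finset.sum_eq_zero]
      · exact hp0
      · intro I hI
        rw [if_neg]
        rintro rfl
        simp at hI
  | succ k ih =>
    intro m hm
    obtain ⟨μ, h1, h2, h3⟩ := ih (m + 1) (by omega)
    by_cases hπ : m % 2 = π
    · have hdis : Disjoint (U.filter (fun v => m + 1 ≤ cl v ∧ cl v % 2 = π))
          (U.filter (fun v => cl v = m)) := by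
        rw [Finset.disjoint_left]
        intro v hv hv'
        rw [Finset.mem_filter] at hv hv'
        omega
      have hun : U.filter (fun v => m + 1 ≤ cl v ∧ cl v % 2 = π) ∪
          (U.filter (fun v => cl v = m)) = U.filter (fun v => m ≤ cl v ∧ cl v % 2 = π) := by
        ext v
        simp only [Finset.mem_union, Finset.mem_filter]
        constructor
        · rintro (⟨h, h'⟩ | ⟨h, h'⟩)
          · exact ⟨h, by omega⟩
          · exact ⟨h, by omega⟩
        · rintro ⟨h, h', h''⟩
          by_cases h4 : cl v = m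
          · exact Or.inr ⟨h, h4⟩
          · exact Or.inl ⟨h, by omega⟩
      obtain ⟨μ', g1, g2, g3, g4⟩ := combine hl hdis h1 (hμ m) h2
      rw [hun] at g1
      refine ⟨μ', g1, ?_, ?_⟩
      · intro v
        by_cases hv : v ∈ U.filter (fun v => m + 1 ≤ cl v ∧ cl v % 2 = π)
        · rw [g2 v hv]; exact h2 v
        · exact (g3 v hv).trans (hp m v)
      · intro v hv
        rw [← hun, Finset.mem_union] at hv
        rcases hv with hv | hv
        · rw [g2 v hv]; exact h3 v hv
        · have h4 := g4 v hv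
          rw [Finset.mem_filter] at hv
          rw [hv.2]
          exact h4
    · have heq : U.filter (fun v => m ≤ cl v ∧ cl v % 2 = π) =
          U.filter (fun v => m + 1 ≤ cl v ∧ cl v % 2 = π) := by
        ext v
        simp only [Finset.mem_filter]
        constructor
        · rintro ⟨h, h', h''⟩
          refine ⟨h, ?_, h''⟩
          by_contra hcon
          have : cl v = m := by omega
          rw [this] at h''
          exact hπ h''
        · rintro ⟨h, h', h''⟩
          exact ⟨h, by omega, h''⟩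
      rw [heq]
      exact ⟨μ, h1, h2, h3⟩

/-- **the weighted version** -/
theorem weighted {lam a D T R : ℝ} (hl : 0 < lam) (hT : 0 < T) (hR : 1 < R)
    (haR : 8 * a * R ≤ 1) (hDR : 4 * D ≤ T * R)
    (hdeg : ∀ u, ((N G univ u).card : ℝ) ≤ D)
    (hfrac : ∀ U : Finset V, ∃ μ : Finset V → ℝ, Dist G lam U μ ∧
      (∀ v, pr μ v ≤ 1 / (2 * T)) ∧
      ∃ B ⊆ U, (B.card : ℝ) ≤ 2 * a * U.card ∧ ∀ v ∈ U \ B, pr μ v = 1 / (2 * T))
    (U0 : Finset V) (w : V → ℝ) (hw : ∀ v, 0 ≤ w v) :
    ∃ μ, Dist G lam U0 μ ∧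
      1 / (16 * T) * ∑ v ∈ U0, w v ≤ ∑ I, μ I * ∑ v ∈ I, w v := by
  set U := U0.filter (fun v => 0 < w v) with hU
  have hwU : ∑ v ∈ U0, w v = ∑ v ∈ U, w v := by
    rw [hU, Finset.sum_filter]
    refine Finset.sum_congr rfl fun v _ => ?_
    split_ifs with h
    · rfl
    · exact le_antisymm (not_lt.1 h) (hw v)
  rcases Finset.eq_empty_or_nonempty U with hUe | hUne
  · obtain ⟨μ, h1, h2, h3⟩ := hfrac U0
    refine ⟨μ, h1, ?_⟩
    rw [hwU, hUe, Finset.sum_empty, mul_zero]
    exact Finset.sum_nonneg fun I _ => mul_nonneg (h1.1 I) (Finset.sum_nonneg fun v _ => hw v)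
  obtain ⟨x0, hx0, hxmin⟩ := Finset.exists_min_image U w hUne
  have hx0p : 0 < w x0 := (Finset.mem_filter.1 hx0).2
  have hcl : ∀ v, ∃ n : ℕ, v ∈ U → w x0 * R ^ n ≤ w v ∧ w v < w x0 * R ^ (n + 1) := by
    intro v
    by_cases hv : v ∈ U
    · have h1 : 1 ≤ w v / w x0 := by
        rw [le_div_iff₀ hx0p, one_mul]
        exact hxmin v hv
      obtain ⟨n, hn1, hn2⟩ := exists_nat_pow_near h1 hR
      refine ⟨n, fun _ => ⟨?_, ?_⟩⟩
      · rw [le_div_iff₀ hx0p] at hn1; linarith
      · rw [div_lt_iff₀ hx0p] at hn2; linarith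
    · exact ⟨0, fun h => absurd h hv⟩
  choose cl hcl using hcl
  choose μs hμ1 hμ2 Bs hBs1 hBs2 hBs3 using fun j : ℕ => hfrac (U.filter (fun v => cl v = j))
  set Hv : V → Finset V := fun v => (N G U v).filter (fun u => cl v + 2 ≤ cl u) with hHv
  have hR0 : 0 < R := by linarith
  have hT2 : 0 < 1 / (2 * T) := by positivity
  -- the two kinds of exceptional vertices
  have nb1 : ∑ v ∈ U.filter (fun v => v ∈ Bs (cl v)), w v ≤ (∑ v ∈ U, w v) / 4 := by
    set M := U.sup cl with hM
    have hmaps : ∀ v ∈ U, cl v ∈ range (M + 1) := fun v hv => by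
      rw [Finset.mem_range]
      exact Nat.lt_succ_of_le (Finset.le_sup hv)
    rw [← Finset.sum_fiberwise_of_maps_to (s := U.filter (fun v => v ∈ Bs (cl v)))
      (fun v hv => hmaps v (Finset.mem_filter.1 hv).1),
      ← Finset.sum_fiberwise_of_maps_to hmaps (fun v => w v), Finset.sum_div]
    refine Finset.sum_le_sum fun j _ => ?_
    have h1 : ∑ v ∈ (U.filter (fun v => v ∈ Bs (cl v))).filter (fun v => cl v = j), w v ≤
        (Bs j).card * (w x0 * R ^ (j + 1)) := by
      have h2 : (U.filter (fun v => v ∈ Bs (cl v))).filter (fun v => cl v = j) ⊆ Bs j := by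
        intro v hv
        rw [Finset.mem_filter, Finset.mem_filter] at hv
        rw [← hv.2]
        exact hv.1.2
      refine (Finset.sum_le_sum_of_subset_of_nonneg h2 (fun v _ _ => hw v)).trans ?_
      rw [← nsmul_eq_mul, ← Finset.sum_const]
      refine Finset.sum_le_sum fun v hv => ?_
      have h3 := Finset.mem_filter.1 (hBs1 j hv)
      have h4 := (hcl v h3.1).2
      rw [h3.2] at h4
      exact h4.le
    refine h1.trans ?_
    have h2 : ((U.filter (fun v => cl v = j)).card : ℝ) * (w x0 * R ^ j) ≤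
        ∑ v ∈ U.filter (fun v => cl v = j), w v := by
      rw [← nsmul_eq_mul, ← Finset.sum_const]
      refine Finset.sum_le_sum fun v hv => ?_
      have h3 := Finset.mem_filter.1 hv
      have h4 := (hcl v h3.1).1
      rw [h3.2] at h4
      exact h4
    have h3 : (0 : ℝ) ≤ w x0 * R ^ j := by positivity
    calc ((Bs j).card : ℝ) * (w x0 * R ^ (j + 1)) ≤
          (2 * a * (U.filter (fun v => cl v = j)).card) * (w x0 * R ^ (j + 1)) :=
          mul_le_mul_of_nonneg_right (hBs2 j) (by positivity)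
      _ = (8 * a * R) * (((U.filter (fun v => cl v = j)).card : ℝ) * (w x0 * R ^ j)) / 4 := by
          rw [pow_succ]; ring
      _ ≤ 1 * (((U.filter (fun v => cl v = j)).card : ℝ) * (w x0 * R ^ j)) / 4 := by
          have := mul_le_mul_of_nonneg_right haR
            (mul_nonneg (Nat.cast_nonneg (U.filter (fun v => cl v = j)).card) h3)
          linarith
      _ ≤ _ := by rw [one_mul]; linarith
  have nb2 : ∑ v ∈ U.filter (fun v => T < (Hv v).card), w v ≤ (∑ v ∈ U, w v) / 4 := by
    have h1 : T * ∑ v ∈ U.filter (fun v => T < (Hv v).card), w v ≤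
        ∑ v ∈ U, w v * (Hv v).card := by
      rw [Finset.mul_sum]
      refine le_trans (Finset.sum_le_sum (g := fun v => w v * ((Hv v).card : ℝ)) ?_)
        (Finset.sum_le_sum_of_subset_of_nonneg (Finset.filter_subset _ _)
          (fun v _ _ => mul_nonneg (hw v) (Nat.cast_nonneg _)))
      intro v hv
      have := (Finset.mem_filter.1 hv).2
      nlinarith [hw v]
    have h2 : ∑ v ∈ U, w v * ((Hv v).card : ℝ) =
        ∑ u ∈ U, ∑ v ∈ (N G U u).filter (fun v => cl v + 2 ≤ cl u), w v := by
      have h3 : ∀ v, w v * ((Hv v).card : ℝ) =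
          ∑ u ∈ U, if G.Adj v u ∧ cl v + 2 ≤ cl u then w v else 0 := by
        intro v
        rw [← Finset.sum_filter, Finset.sum_const, nsmul_eq_mul, mul_comm]
        have h4 : Hv v = U.filter (fun u => G.Adj v u ∧ cl v + 2 ≤ cl u) := by
          ext u
          simp only [hHv, Finset.mem_filter, mem_N]
          tauto
        rw [h4]
      have h3' : ∀ u, ∑ v ∈ (N G U u).filter (fun v => cl v + 2 ≤ cl u), w v =
          ∑ v ∈ U, if G.Adj v u ∧ cl v + 2 ≤ cl u then w v else 0 := by
        intro u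
        rw [← Finset.sum_filter]
        refine Finset.sum_congr ?_ fun _ _ => rfl
        ext v
        simp only [Finset.mem_filter, mem_N, G.adj_comm u v]
        tauto
      refine (Finset.sum_congr rfl fun v _ => h3 v).trans ?_
      rw [Finset.sum_comm]
      exact Finset.sum_congr rfl fun u _ => (h3' u).symm
    have h3 : ∑ u ∈ U, ∑ v ∈ (N G U u).filter (fun v => cl v + 2 ≤ cl u), w v ≤
        ∑ u ∈ U, D / R * w u := by
      refine Finset.sum_le_sum fun u hu => ?_
      have h4 : ∀ v ∈ (N G U u).filter (fun v => cl v + 2 ≤ cl u), w v ≤ w u / R := by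
        intro v hv
        rw [Finset.mem_filter, mem_N] at hv
        have h5 := (hcl v hv.1.1).2
        have h6 := (hcl u hu).1
        have h7 : R ^ (cl v + 2) ≤ R ^ cl u := pow_le_pow_right₀ hR.le hv.2
        rw [le_div_iff₀ hR0]
        calc w v * R ≤ (w x0 * R ^ (cl v + 1)) * R := mul_le_mul_of_nonneg_right h5.le hR0.le
          _ = w x0 * R ^ (cl v + 2) := by ring
          _ ≤ w x0 * R ^ cl u := mul_le_mul_of_nonneg_left h7 hx0p.le
          _ ≤ w u := h6
      refine (Finset.sum_le_sum h4).trans ?_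
      rw [Finset.sum_const, nsmul_eq_mul]
      have h5 : (((N G U u).filter (fun v => cl v + 2 ≤ cl u)).card : ℝ) ≤ D := by
        refine le_trans ?_ (hdeg u)
        have h6 : (N G U u).filter (fun v => cl v + 2 ≤ cl u) ⊆ N G univ u :=
          (Finset.filter_subset _ _).trans
            (Finset.filter_subset_filter _ (Finset.subset_univ _))
        exact_mod_cast Finset.card_le_card h6
      calc _ ≤ D * (w u / R) := mul_le_mul_of_nonneg_right h5 (div_nonneg (hw u) hR0.le)
        _ = _ := by ring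
    rw [← Finset.mul_sum] at h3
    have h4 : T * ∑ v ∈ U.filter (fun v => T < (Hv v).card), w v ≤
        T * ((∑ v ∈ U, w v) / 4) := by
      refine h1.trans ((h2.le.trans h3).trans ?_)
      have h5 : 0 ≤ ∑ v ∈ U, w v := Finset.sum_nonneg fun v _ => hw v
      have h6 : D / R ≤ T / 4 := by
        rw [div_le_iff₀ hR0]; linarith
      have := mul_le_mul_of_nonneg_right h6 h5
      linarith
    exact le_of_mul_le_mul_left h4 hT
  set ok : V → Prop := fun v => v ∉ Bs (cl v) ∧ ((Hv v).card : ℝ) ≤ T with hok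
  have hok2 : (∑ v ∈ U, w v) / 2 ≤ ∑ v ∈ U.filter ok, w v := by
    have h1 : ∑ v ∈ U, w v ≤ ∑ v ∈ U.filter ok, w v +
        (∑ v ∈ U.filter (fun v => v ∈ Bs (cl v)), w v +
        ∑ v ∈ U.filter (fun v => T < (Hv v).card), w v) := by
      simp only [Finset.sum_filter]
      rw [← Finset.sum_add_distrib, ← Finset.sum_add_distrib]
      refine Finset.sum_le_sum fun v _ => ?_
      have h2 := hw v
      by_cases b1 : v ∈ Bs (cl v) <;> by_cases b2 : ((Hv v).card : ℝ) ≤ T
      · simp only [hok, b1, b2, not_true_eq_false, false_and, if_false, if_true, not_lt.2 b2]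
        linarith
      · simp only [hok, b1, b2, not_true_eq_false, false_and, if_false, if_true, not_le.1 b2]
        linarith
      · simp only [hok, b1, b2, not_false_eq_true, true_and, if_false, if_true, not_lt.2 b2]
        linarith
      · simp only [hok, b1, b2, not_false_eq_true, and_false, if_false, if_true, not_le.1 b2]
        linarith
    linarith
  -- the better parity
  obtain ⟨π, hπ2, hπ⟩ : ∃ π : ℕ, π < 2 ∧ (∑ v ∈ U, w v) / 4 ≤
      ∑ v ∈ (U.filter ok).filter (fun v => cl v % 2 = π), w v := by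
    have h1 : ∑ v ∈ U.filter ok, w v = ∑ v ∈ (U.filter ok).filter (fun v => cl v % 2 = 0), w v +
        ∑ v ∈ (U.filter ok).filter (fun v => cl v % 2 = 1), w v := by
      rw [← Finset.sum_filter_add_sum_filter_not (U.filter ok) (fun v => cl v % 2 = 0)]
      congr 2
      ext v
      simp only [Finset.mem_filter]
      constructor
      · rintro ⟨h, h'⟩; exact ⟨h, by omega⟩
      · rintro ⟨h, h'⟩; exact ⟨h, by omega⟩
    by_cases h2 : (∑ v ∈ U, w v) / 4 ≤
      ∑ v ∈ (U.filter ok).filter (fun v => cl v % 2 = 0), w v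
    · exact ⟨0, by norm_num, h2⟩
    · refine ⟨1, by norm_num, ?_⟩
      push Not at h2
      linarith
  obtain ⟨μ, h1, h2, h3⟩ := classes hl hT2.le U cl μs hμ1 hμ2 π (U.sup cl)
    (fun v hv => Finset.le_sup hv) (U.sup cl + 1) 0 (by omega)
  refine ⟨μ, ⟨h1.1, fun I hI => ?_, h1.2.2.1, h1.2.2.2⟩, ?_⟩
  · exact ind_mono ((Finset.filter_subset _ _).trans (Finset.filter_subset _ _)) (h1.2.1 I hI)
  · have h4 : ∑ I, μ I * ∑ v ∈ I, w v = ∑ v, w v * pr μ v := by
      have h5 : ∀ I : Finset V, μ I * ∑ v ∈ I, w v = ∑ v, w v * (if v ∈ I then μ I else 0) := by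
        intro I
        rw [← Finset.sum_filter_add_sum_filter_not univ (fun v => v ∈ I)]
        have h6 : ∑ v ∈ univ.filter (fun v => ¬ v ∈ I), w v * (if v ∈ I then μ I else 0) = 0 := by
          refine Finset.sum_eq_zero fun v hv => ?_
          rw [if_neg (Finset.mem_filter.1 hv).2, mul_zero]
        rw [h6, add_zero]
        have h7 : univ.filter (fun v => v ∈ I) = I := by ext v; simp
        rw [h7, Finset.mul_sum]
        refine Finset.sum_congr rfl fun v hv => ?_
        rw [if_pos hv]; ring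
      rw [Finset.sum_congr rfl (fun I _ => h5 I), Finset.sum_comm]
      refine Finset.sum_congr rfl fun v _ => ?_
      unfold pr
      rw [Finset.sum_filter, Finset.mul_sum]
    rw [h4, hwU]
    have h5 : ∀ v ∈ (U.filter ok).filter (fun v => cl v % 2 = π), 1 / (4 * T) ≤ pr μ v := by
      intro v hv
      rw [Finset.mem_filter, Finset.mem_filter] at hv
      obtain ⟨⟨g1, g2, g3⟩, g4⟩ := hv
      have h6 := h3 v (Finset.mem_filter.2 ⟨g1, Nat.zero_le _, g4⟩)
      have h7 : pr (μs (cl v)) v = 1 / (2 * T) :=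
        hBs3 (cl v) v (Finset.mem_sdiff.2 ⟨Finset.mem_filter.2 ⟨g1, rfl⟩, g2⟩)
      have h8 : N G (U.filter (fun u => cl v + 1 ≤ cl u ∧ cl u % 2 = π)) v ⊆ Hv v := by
        intro u hu
        rw [mem_N, Finset.mem_filter] at hu
        rw [hHv, Finset.mem_filter, mem_N]
        exact ⟨⟨hu.1.1, hu.2⟩, by omega⟩
      have h9 : ((N G (U.filter (fun u => cl v + 1 ≤ cl u ∧ cl u % 2 = π)) v).card : ℝ) ≤ T :=
        le_trans (by exact_mod_cast Finset.card_le_card h8) g3
      rw [h7] at h6
      refine le_trans ?_ h6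
      have h10 : ((N G (U.filter (fun u => cl v + 1 ≤ cl u ∧ cl u % 2 = π)) v).card : ℝ) *
          (1 / (2 * T)) ≤ 1 / 2 := by
        calc _ ≤ T * (1 / (2 * T)) := mul_le_mul_of_nonneg_right h9 hT2.le
          _ = 1 / 2 := by field_simp
      have h11 : 1 / (4 * T) = 1 / (2 * T) * (1 / 2) := by field_simp; norm_num
      rw [h11]
      exact mul_le_mul_of_nonneg_left (by linarith) hT2.le
    calc 1 / (16 * T) * ∑ v ∈ U, w v = 1 / (4 * T) * ((∑ v ∈ U, w v) / 4) := by
          have h6 : 1 / (16 * T) = 1 / (4 * T) * (1 / 4) := by field_simp; norm_num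
          rw [h6]; ring
      _ ≤ 1 / (4 * T) * ∑ v ∈ (U.filter ok).filter (fun v => cl v % 2 = π), w v :=
          mul_le_mul_of_nonneg_left hπ (by positivity)
      _ = ∑ v ∈ (U.filter ok).filter (fun v => cl v % 2 = π), w v * (1 / (4 * T)) := by
          rw [← Finset.sum_mul, mul_comm]
      _ ≤ ∑ v ∈ (U.filter ok).filter (fun v => cl v % 2 = π), w v * pr μ v :=
          Finset.sum_le_sum fun v hv => mul_le_mul_of_nonneg_left (h5 v hv) (hw v)
      _ ≤ _ := Finset.sum_le_sum_of_subset_of_nonneg (Finset.subset_univ _)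
          (fun v _ _ => mul_nonneg (hw v) (pr_nonneg h1.1 v))

end Pool.Agent.K1H34.UHC
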