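import Mathlib
import Pool.Agent.K1H34.UHC.Comb

set_option autoImplicit false

/-!
# From random independent sets to colourings
-/

namespace Pool.Agent.K1H34.UHC

open Finset Classical

variable {V : Type} [Fintype V] {G : SimpleGraph V}

set_option linter.unusedSectionVars false

/-- proper colouring of `C` with `k` colours -/
def Col (G : SimpleGraph V) (C : Finset V) (k : ℕ) : Prop :=
  ∃ c : V → ℕ, (∀ v ∈ C, c v < k) ∧ ∀ u ∈ C, ∀ v ∈ C, G.Adj u v → c u ≠ c v

theorem Col.union {C1 C2 : Finset V} {k1 k2 : ℕ} (h1 : Col G C1 k1) (h2 : Col G C2 k2) :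
    Col G (C1 ∪ C2) (k1 + k2) := by
  obtain ⟨c1, a1, b1⟩ := h1
  obtain ⟨c2, a2, b2⟩ := h2
  refine ⟨fun v => if v ∈ C1 then c1 v else k1 + c2 v, ?_, ?_⟩
  · intro v hv
    by_cases h : v ∈ C1
    · simp only [h, if_true]
      have := a1 v h
      omega
    · simp only [h, if_false]
      have := a2 v ((Finset.mem_union.1 hv).resolve_left h)
      omega
  · intro u hu v hv huv
    by_cases h : u ∈ C1 <;> by_cases h' : v ∈ C1
    · simp only [h, h', if_true]
      exact b1 u h v h' huv
    · simp only [h, h', if_true, if_false]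
      have := a1 u h
      omega
    · simp only [h, h', if_true, if_false]
      have := a1 v h'
      omega
    · simp only [h, h', if_false]
      have := b2 u ((Finset.mem_union.1 hu).resolve_left h) v
        ((Finset.mem_union.1 hv).resolve_left h') huv
      omega

theorem Col.mono {C C' : Finset V} {k k' : ℕ} (h : Col G C k) (hC : C' ⊆ C) (hk : k ≤ k') :
    Col G C' k' := by
  obtain ⟨c, a, b⟩ := h
  exact ⟨c, fun v hv => lt_of_lt_of_le (a v (hC hv)) hk, fun u hu v hv => b u (hC hu) v (hC hv)⟩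

theorem col_ind {X I : Finset V} (h : I ∈ ind G X) : Col G I 1 :=
  ⟨fun _ => 0, fun _ _ => zero_lt_one, fun u hu v hv huv => absurd huv ((mem_ind.1 h).2 u hu v hv)⟩

theorem col_greedy (d n : ℕ) : ∀ U : Finset V, U.card = n →
    (∀ v ∈ U, (N G U v).card ≤ d) → Col G U (d + 1) := by
  induction n with
  | zero =>
    intro U hU _
    rw [Finset.card_eq_zero] at hU
    subst hU
    exact ⟨fun _ => 0, by simp, by simp⟩
  | succ n ih =>
    intro U hU hd
    obtain ⟨x, hx⟩ : U.Nonempty := by rw [← Finset.card_pos, hU]; omega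
    obtain ⟨c, a, b⟩ := ih (U.erase x) (by rw [Finset.card_erase_of_mem hx, hU]; rfl)
      (fun v hv => (Finset.card_le_card
        (Finset.filter_subset_filter _ (Finset.erase_subset _ _))).trans
        (hd v (Finset.mem_of_mem_erase hv)))
    obtain ⟨k, hk, hk'⟩ : ∃ k ∈ range (d + 1), k ∉ (N G U x).image c := by
      by_contra hcon
      push Not at hcon
      have h1 : range (d + 1) ⊆ (N G U x).image c := hcon
      have h2 := (Finset.card_le_card h1).trans Finset.card_image_le
      rw [Finset.card_range] at h2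
      have := hd x hx
      omega
    refine ⟨fun v => if v = x then k else c v, ?_, ?_⟩
    · intro v hv
      by_cases h : v = x
      · simp only [h, if_true]
        exact Finset.mem_range.1 hk
      · simp only [h, if_false]
        exact a v (Finset.mem_erase.2 ⟨h, hv⟩)
    · intro u hu v hv huv
      by_cases h : u = x <;> by_cases h' : v = x
      · subst h h'
        exact absurd huv G.irrefl
      · simp only [h, h', if_true, if_false]
        intro h2
        apply hk'
        rw [h2]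
        exact Finset.mem_image_of_mem _ (mem_N.2 ⟨hv, h ▸ huv⟩)
      · simp only [h, h', if_true, if_false]
        intro h2
        apply hk'
        rw [← h2]
        exact Finset.mem_image_of_mem _ (mem_N.2 ⟨hu, (h' ▸ huv).symm⟩)
      · simp only [h, h', if_false]
        exact b u (Finset.mem_erase.2 ⟨h, hu⟩) v (Finset.mem_erase.2 ⟨h', hv⟩) huv

/-- large intersections with a neighbourhood are rare -/
theorem tail {lam D : ℝ} (hl : 0 < lam) (hdeg : ∀ u, ((N G univ u).card : ℝ) ≤ D)
    {U : Finset V} {μ : Finset V → ℝ} (hμ : Dist G lam U μ) (L : ℕ) (v : V) :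
    ∑ I, μ I * (if L < (N G I v).card then ((N G I v).card : ℝ) else 0) ≤
      D * ((D * lam) ^ (L + 1) / (L + 1).factorial) := by
  obtain ⟨a1, a2, a3, a4⟩ := hμ
  have hD0 : 0 ≤ D := le_trans (Nat.cast_nonneg _) (hdeg v)
  have h1 : ∀ I, μ I * (if L < (N G I v).card then ((N G I v).card : ℝ) else 0) ≤
      D * ∑ A ∈ (N G univ v).powersetCard (L + 1), (if A ⊆ I then μ I else 0) := by
    intro I
    have h0 : 0 ≤ ∑ A ∈ (N G univ v).powersetCard (L + 1), (if A ⊆ I then μ I else 0) :=
      Finset.sum_nonneg fun _ _ => by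
        have := a1 I
        split_ifs
        · exact this
        · exact le_rfl
    by_cases h : L < (N G I v).card
    · rw [if_pos h]
      obtain ⟨A, hA1, hA2⟩ := Finset.exists_subset_card_eq (Nat.succ_le_of_lt h)
      have h2 : μ I ≤ ∑ A ∈ (N G univ v).powersetCard (L + 1), (if A ⊆ I then μ I else 0) := by
        have h3 : A ∈ (N G univ v).powersetCard (L + 1) := by
          rw [Finset.mem_powersetCard]
          exact ⟨hA1.trans (Finset.filter_subset_filter _ (Finset.subset_univ _)), hA2⟩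
        refine le_trans ?_ (Finset.single_le_sum (f := fun A => if A ⊆ I then μ I else 0)
          (fun _ _ => by
            have := a1 I
            split_ifs
            · exact this
            · exact le_rfl) h3)
        rw [if_pos (hA1.trans (Finset.filter_subset _ _))]
      have h3 : ((N G I v).card : ℝ) ≤ D := by
        refine le_trans ?_ (hdeg v)
        exact_mod_cast Finset.card_le_card (Finset.filter_subset_filter _ (Finset.subset_univ _))
      rw [mul_comm]
      exact mul_le_mul h3 h2 (a1 I) hD0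
    · rw [if_neg h, mul_zero]
      exact mul_nonneg hD0 h0
  refine (Finset.sum_le_sum fun I _ => h1 I).trans ?_
  rw [← Finset.mul_sum, Finset.sum_comm]
  refine mul_le_mul_of_nonneg_left ?_ hD0
  have h2 : ∀ A ∈ (N G univ v).powersetCard (L + 1),
      ∑ I, (if A ⊆ I then μ I else 0) ≤ lam ^ (L + 1) := by
    intro A hA
    rw [← Finset.sum_filter, ← (Finset.mem_powersetCard.1 hA).2]
    exact a4 A
  refine (Finset.sum_le_sum h2).trans ?_
  rw [Finset.sum_const, Finset.card_powersetCard, nsmul_eq_mul, mul_pow, mul_div_right_comm]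
  refine mul_le_mul_of_nonneg_right ?_ (pow_pos hl _).le
  refine (Nat.choose_le_pow_div (L + 1) (N G univ v).card).trans ?_
  gcongr
  exact hdeg v

/-- the potential -/
noncomputable def Phi (G : SimpleGraph V) (κ : ℝ) (ω : V → ℝ) (X : Finset V) : ℝ :=
  ∑ v, ω v * Real.exp (κ * (N G X v).card)

theorem exp_le_aux {y : ℝ} (h0 : 0 ≤ y) (h1 : y ≤ 1) : Real.exp (-y) ≤ 1 - y / 2 := by
  have h2 : 1 + y ≤ Real.exp y := by linarith [Real.add_one_le_exp y]
  have h3 : 0 < Real.exp y := Real.exp_pos y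
  rw [Real.exp_neg, inv_eq_one_div, div_le_iff₀ h3]
  nlinarith

theorem step {lam D p κ : ℝ} (hl : 0 < lam) (hdeg : ∀ u, ((N G univ u).card : ℝ) ≤ D)
    (hmach : ∀ (U0 : Finset V) (w : V → ℝ), (∀ v, 0 ≤ w v) → ∃ μ, Dist G lam U0 μ ∧
      p * ∑ v ∈ U0, w v ≤ ∑ I, μ I * ∑ v ∈ I, w v)
    (hκ : 0 < κ) (L : ℕ) (hL : κ * L ≤ 1) (ω : V → ℝ) (hω : ∀ v, 0 ≤ ω v) (X : Finset V) :
    ∃ I ∈ ind G X, Phi G κ ω (X \ I) ≤ Phi G κ ω X - κ / 2 *
      (p * ∑ v, ω v * Real.exp (κ * (N G X v).card) * (N G X v).card -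
        D * ((D * lam) ^ (L + 1) / (L + 1).factorial) * Phi G κ ω X) := by
  set ψ : V → ℝ := fun v => Real.exp (κ * (N G X v).card) with hψ
  have hψ0 : ∀ v, 0 < ψ v := fun v => Real.exp_pos _
  set w : V → ℝ := fun u => ∑ v, if G.Adj v u then ω v * ψ v else 0 with hw
  have hw0 : ∀ u, 0 ≤ w u := fun u => Finset.sum_nonneg fun v _ => by
    have := mul_nonneg (hω v) (hψ0 v).le
    split_ifs
    · exact this
    · exact le_rfl
  have hwsum : ∀ Y : Finset V, ∑ u ∈ Y, w u = ∑ v, ω v * ψ v * (N G Y v).card := by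
    intro Y
    simp only [hw]
    rw [Finset.sum_comm]
    refine Finset.sum_congr rfl fun v _ => ?_
    rw [← Finset.sum_filter, Finset.sum_const, nsmul_eq_mul, mul_comm]
    rfl
  obtain ⟨μ, hμ, hμ2⟩ := hmach X w hw0
  have htail := fun v => tail hl hdeg hμ L v
  obtain ⟨a1, a2, a3, a4⟩ := hμ
  set τ := D * ((D * lam) ^ (L + 1) / (L + 1).factorial) with hτ
  set Φ := Phi G κ ω X with hΦ
  have hpt : ∀ I, μ I * Phi G κ ω (X \ I) ≤ μ I * ∑ v, ω v * ψ v * (1 - κ / 2 *
      ((N G I v).card - (if L < (N G I v).card then ((N G I v).card : ℝ) else 0))) := by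
    intro I
    by_cases hI : μ I = 0
    · rw [hI]; simp
    have hIX : I ⊆ X := (mem_ind.1 (a2 I hI)).1
    refine mul_le_mul_of_nonneg_left ?_ (a1 I)
    unfold Phi
    refine Finset.sum_le_sum fun v _ => ?_
    rw [mul_assoc]
    refine mul_le_mul_of_nonneg_left ?_ (hω v)
    have h1 : ((N G (X \ I) v).card : ℝ) = (N G X v).card - (N G I v).card := by
      have h2 : N G (X \ I) v = N G X v \ N G I v := by
        ext u
        simp only [mem_N, Finset.mem_sdiff]
        tauto
      have h3 : N G I v ⊆ N G X v := Finset.filter_subset_filter _ hIX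
      rw [h2, Finset.cast_card_sdiff h3]
    rw [h1, mul_sub, Real.exp_sub, div_eq_mul_inv, ← Real.exp_neg]
    refine mul_le_mul_of_nonneg_left ?_ (hψ0 v).le
    by_cases h2 : L < (N G I v).card
    · rw [if_pos h2, sub_self, mul_zero, sub_zero]
      rw [Real.exp_le_one_iff]
      have : 0 ≤ κ * ((N G I v).card : ℝ) := by positivity
      linarith
    · rw [if_neg h2, sub_zero]
      have h3 : ((N G I v).card : ℝ) ≤ L := by exact_mod_cast not_lt.1 h2
      have h4 : κ * (N G I v).card ≤ 1 :=
        (mul_le_mul_of_nonneg_left h3 hκ.le).trans hL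
      have h5 := exp_le_aux (y := κ * (N G I v).card) (by positivity) h4
      linarith
  have hsum : ∑ I, μ I * Phi G κ ω (X \ I) ≤ Φ - κ / 2 *
      (p * ∑ v, ω v * ψ v * (N G X v).card - τ * Φ) := by
    refine (Finset.sum_le_sum fun I _ => hpt I).trans ?_
    have h1 : ∑ I, μ I * ∑ v, ω v * ψ v * (1 - κ / 2 *
        ((N G I v).card - (if L < (N G I v).card then ((N G I v).card : ℝ) else 0))) =
        Φ - κ / 2 * (∑ I, μ I * ∑ v ∈ I, w v - ∑ v, ω v * ψ v *
          ∑ I, μ I * (if L < (N G I v).card then ((N G I v).card : ℝ) else 0)) := by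
      have h2 : Φ = ∑ I, μ I * ∑ v, ω v * ψ v := by
        rw [← Finset.sum_mul, a3, one_mul, hΦ]
        rfl
      have h3 : ∑ v, ω v * ψ v *
          ∑ I, μ I * (if L < (N G I v).card then ((N G I v).card : ℝ) else 0) =
          ∑ I, μ I * ∑ v, ω v * ψ v *
            (if L < (N G I v).card then ((N G I v).card : ℝ) else 0) := by
        simp only [Finset.mul_sum]
        rw [Finset.sum_comm]
        refine Finset.sum_congr rfl fun I _ => Finset.sum_congr rfl fun v _ => ?_
        ring
      rw [h3, h2, ← Finset.sum_sub_distrib, Finset.mul_sum, ← Finset.sum_sub_distrib]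
      refine Finset.sum_congr rfl fun I _ => ?_
      rw [hwsum]
      have h4 : ∑ v, ω v * ψ v * (1 - κ / 2 *
          ((N G I v).card - (if L < (N G I v).card then ((N G I v).card : ℝ) else 0))) =
          ∑ v, ω v * ψ v - κ / 2 * (∑ v, ω v * ψ v * (N G I v).card -
          ∑ v, ω v * ψ v * (if L < (N G I v).card then ((N G I v).card : ℝ) else 0)) := by
        rw [mul_sub (κ / 2), Finset.mul_sum, Finset.mul_sum, ← Finset.sum_sub_distrib,
          ← Finset.sum_sub_distrib]
        refine Finset.sum_congr rfl fun v _ => ?_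
        ring
      rw [h4]
      ring
    rw [h1]
    have h2 : ∑ v, ω v * ψ v *
          ∑ I, μ I * (if L < (N G I v).card then ((N G I v).card : ℝ) else 0) ≤ τ * Φ := by
      rw [hΦ, Phi, Finset.mul_sum]
      refine Finset.sum_le_sum fun v _ => ?_
      rw [mul_comm τ]
      exact mul_le_mul_of_nonneg_left (htail v) (mul_nonneg (hω v) (hψ0 v).le)
    rw [hwsum] at hμ2
    have h3 : 0 ≤ κ / 2 := by positivity
    have h4 := mul_le_mul_of_nonneg_left (sub_le_sub hμ2 h2) h3
    linarith
  by_contra hcon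
  push Not at hcon
  have h5 : ∑ I, μ I * (Φ - κ / 2 * (p * ∑ v, ω v * ψ v * (N G X v).card - τ * Φ)) <
      ∑ I, μ I * Phi G κ ω (X \ I) := by
    have hex : ∃ I, μ I ≠ 0 := by
      by_contra hne
      push Not at hne
      rw [Finset.sum_congr rfl (fun I _ => hne I)] at a3
      simp at a3
    obtain ⟨I0, hI0⟩ := hex
    refine Finset.sum_lt_sum (fun I _ => ?_) ⟨I0, Finset.mem_univ _, ?_⟩
    · by_cases hI : μ I = 0
      · rw [hI]; simp
      · exact mul_le_mul_of_nonneg_left (hcon I (a2 I hI)).le (a1 I)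
    · exact mul_lt_mul_of_pos_left (hcon I0 (a2 I0 hI0)) (lt_of_le_of_ne (a1 I0) (Ne.symm hI0))
  rw [← Finset.sum_mul, a3, one_mul] at h5
  linarith

theorem Phi_nonneg {κ : ℝ} {ω : V → ℝ} (hω : ∀ v, 0 ≤ ω v) (X : Finset V) :
    0 ≤ Phi G κ ω X :=
  Finset.sum_nonneg fun v _ => mul_nonneg (hω v) (Real.exp_pos _).le

theorem steps {lam D p κ : ℝ} (hl : 0 < lam) (hdeg : ∀ u, ((N G univ u).card : ℝ) ≤ D)
    (hmach : ∀ (U0 : Finset V) (w : V → ℝ), (∀ v, 0 ≤ w v) → ∃ μ, Dist G lam U0 μ ∧
      p * ∑ v ∈ U0, w v ≤ ∑ I, μ I * ∑ v ∈ I, w v)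
    (hκ : 0 < κ) (L : ℕ) (hL : κ * L ≤ 1) (hp : 0 < p) (hD : 0 ≤ D)
    (hτ : D * ((D * lam) ^ (L + 1) / (L + 1).factorial) ≤ p * D / 16)
    (ω : V → ℝ) (hω : ∀ v, 0 ≤ ω v) (U : Finset V) (k : ℕ) :
    ∃ X ⊆ U, Col G (U \ X) k ∧ Phi G κ ω X ≤ 2 * (∑ v, ω v) * Real.exp (κ * D / 4) +
      Phi G κ ω U * Real.exp (-(k * (κ * p * D / 32))) := by
  have hΩ : 0 ≤ ∑ v, ω v := Finset.sum_nonneg fun v _ => hω v
  induction k with
  | zero =>
    refine ⟨U, Finset.Subset.refl _, ⟨fun _ => 0, by simp, by simp⟩, ?_⟩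
    simp only [Nat.cast_zero, zero_mul, neg_zero, Real.exp_zero, mul_one]
    have : 0 ≤ 2 * (∑ v, ω v) * Real.exp (κ * D / 4) := by positivity
    linarith
  | succ k ih =>
    obtain ⟨X, hX, hcol, hΦ⟩ := ih
    by_cases hcase : Phi G κ ω X ≤ 2 * (∑ v, ω v) * Real.exp (κ * D / 4)
    · refine ⟨X, hX, hcol.mono (Finset.Subset.refl _) (Nat.le_succ _), ?_⟩
      have : 0 ≤ Phi G κ ω U * Real.exp (-((k + 1 : ℕ) * (κ * p * D / 32))) :=
        mul_nonneg (Phi_nonneg hω U) (Real.exp_pos _).le
      linarith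
    · push Not at hcase
      obtain ⟨I, hI, hstep⟩ := step hl hdeg hmach hκ L hL ω hω X
      refine ⟨X \ I, Finset.sdiff_subset.trans hX, ?_, ?_⟩
      · have h1 := hcol.union (col_ind hI)
        refine h1.mono ?_ le_rfl
        intro v hv
        rw [Finset.mem_sdiff, Finset.mem_sdiff] at hv
        rw [Finset.mem_union, Finset.mem_sdiff]
        tauto
      · set Φ := Phi G κ ω X with hΦdef
        have hΦ0 : 0 ≤ Φ := Phi_nonneg hω X
        have h1 : D / 4 * (Φ - (∑ v, ω v) * Real.exp (κ * D / 4)) ≤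
            ∑ v, ω v * Real.exp (κ * (N G X v).card) * (N G X v).card := by
          rw [hΦdef, Phi, Finset.sum_mul, ← Finset.sum_sub_distrib, Finset.mul_sum]
          refine Finset.sum_le_sum fun v _ => ?_
          have h2 : ω v * Real.exp (κ * (N G X v).card) * (N G X v).card -
              D / 4 * (ω v * Real.exp (κ * (N G X v).card) - ω v * Real.exp (κ * D / 4)) =
              ω v * (Real.exp (κ * (N G X v).card) * ((N G X v).card - D / 4) +
                D / 4 * Real.exp (κ * D / 4)) := by ring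
          have h3 : 0 ≤ Real.exp (κ * (N G X v).card) * ((N G X v).card - D / 4) +
                D / 4 * Real.exp (κ * D / 4) := by
            by_cases h4 : D / 4 ≤ (N G X v).card
            · have h5 : 0 ≤ Real.exp (κ * (N G X v).card) * ((N G X v).card - D / 4) :=
                mul_nonneg (Real.exp_pos _).le (by linarith)
              have h6 : 0 ≤ D / 4 * Real.exp (κ * D / 4) :=
                mul_nonneg (by linarith) (Real.exp_pos _).le
              linarith
            · push Not at h4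
              have h5 : Real.exp (κ * (N G X v).card) ≤ Real.exp (κ * D / 4) := by
                rw [Real.exp_le_exp]
                have := mul_le_mul_of_nonneg_left h4.le hκ.le
                linarith
              have h6 : (0 : ℝ) ≤ (N G X v).card := Nat.cast_nonneg _
              have h7 : Real.exp (κ * (N G X v).card) * (D / 4 - (N G X v).card) ≤
                  Real.exp (κ * D / 4) * (D / 4) :=
                mul_le_mul h5 (by linarith) (by linarith) (Real.exp_pos _).le
              linarith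
          have h4 := mul_nonneg (hω v) h3
          linarith
        have h2 : D / 8 * Φ ≤ ∑ v, ω v * Real.exp (κ * (N G X v).card) * (N G X v).card := by
          refine le_trans ?_ h1
          have : (∑ v, ω v) * Real.exp (κ * D / 4) ≤ Φ / 2 := by linarith
          nlinarith
        have h3 : Phi G κ ω (X \ I) ≤ Φ * (1 - κ * p * D / 32) := by
          refine hstep.trans ?_
          have h4 := mul_le_mul_of_nonneg_left h2 hp.le
          have h5 := mul_le_mul_of_nonneg_right hτ hΦ0
          have h6 : p * D / 16 * Φ ≤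
              p * ∑ v, ω v * Real.exp (κ * (N G X v).card) * (N G X v).card -
              D * ((D * lam) ^ (L + 1) / (L + 1).factorial) * Φ := by linarith
          have h7 := mul_le_mul_of_nonneg_left h6 (by positivity : 0 ≤ κ / 2)
          linarith
        have h4 : 1 - κ * p * D / 32 ≤ Real.exp (-(κ * p * D / 32)) := by
          have := Real.add_one_le_exp (-(κ * p * D / 32))
          linarith
        have h5 : 0 ≤ κ * p * D / 32 := by positivity
        have h6 : Real.exp (-(κ * p * D / 32)) ≤ 1 := by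
          rw [Real.exp_le_one_iff]; linarith
        calc Phi G κ ω (X \ I) ≤ Φ * (1 - κ * p * D / 32) := h3
          _ ≤ Φ * Real.exp (-(κ * p * D / 32)) := mul_le_mul_of_nonneg_left h4 hΦ0
          _ ≤ (2 * (∑ v, ω v) * Real.exp (κ * D / 4) +
              Phi G κ ω U * Real.exp (-(k * (κ * p * D / 32)))) *
              Real.exp (-(κ * p * D / 32)) :=
              mul_le_mul_of_nonneg_right hΦ (Real.exp_pos _).le
          _ = 2 * (∑ v, ω v) * Real.exp (κ * D / 4) * Real.exp (-(κ * p * D / 32)) +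
              Phi G κ ω U * Real.exp (-((k + 1 : ℕ) * (κ * p * D / 32))) := by
              rw [add_mul, mul_assoc (Phi G κ ω U), ← Real.exp_add]
              congr 3
              push_cast
              ring
          _ ≤ _ := by
              have h7 : 0 ≤ 2 * (∑ v, ω v) * Real.exp (κ * D / 4) := by positivity
              have := mul_le_mul_of_nonneg_left h6 h7
              linarith

/-- one phase: the maximum degree is halved -/
theorem phase {lam D p κ : ℝ} (hl : 0 < lam) (hdeg : ∀ u, ((N G univ u).card : ℝ) ≤ D)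
    (hmach : ∀ (U0 : Finset V) (w : V → ℝ), (∀ v, 0 ≤ w v) → ∃ μ, Dist G lam U0 μ ∧
      p * ∑ v ∈ U0, w v ≤ ∑ I, μ I * ∑ v ∈ I, w v)
    (hκ : 0 < κ) (L : ℕ) (hL : κ * L ≤ 1) (hp : 0 < p) (hD : 0 ≤ D)
    (hτ : D * ((D * lam) ^ (L + 1) / (L + 1).factorial) ≤ p * D / 16)
    (K : ℕ) (hK : 32 ≤ K * p) (w : V → ℝ) (hw : ∀ v, 0 ≤ w v) (U : Finset V) :
    ∃ U' ⊆ U, ∃ R ⊆ U, Col G (U \ (U' ∪ R)) K ∧ (∀ v ∈ U', ((N G U' v).card : ℝ) ≤ D / 2) ∧
      ∑ v ∈ R, w v ≤ 3 * Real.exp (-(κ * D / 4)) * ∑ v ∈ U, w v := by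
  set ω : V → ℝ := fun v => if v ∈ U then w v else 0 with hωdef
  have hω : ∀ v, 0 ≤ ω v := fun v => by
    simp only [hωdef]
    split_ifs
    · exact hw v
    · exact le_rfl
  have hΩ : ∑ v, ω v = ∑ v ∈ U, w v := by
    simp only [hωdef, Finset.sum_ite_mem, Finset.univ_inter]
  obtain ⟨X, hX, hcol, hΦ⟩ := steps hl hdeg hmach hκ L hL hp hD hτ ω hω U K
  have hΩ0 : 0 ≤ ∑ v, ω v := Finset.sum_nonneg fun v _ => hω v
  have h0 : Phi G κ ω U ≤ (∑ v, ω v) * Real.exp (κ * D) := by
    rw [Phi, Finset.sum_mul]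
    refine Finset.sum_le_sum fun v _ => mul_le_mul_of_nonneg_left ?_ (hω v)
    rw [Real.exp_le_exp]
    refine mul_le_mul_of_nonneg_left ?_ hκ.le
    refine le_trans ?_ (hdeg v)
    exact_mod_cast Finset.card_le_card (Finset.filter_subset_filter _ (Finset.subset_univ _))
  have h1 : Phi G κ ω X ≤ 3 * (∑ v, ω v) * Real.exp (κ * D / 4) := by
    refine hΦ.trans ?_
    have h2 : Phi G κ ω U * Real.exp (-(K * (κ * p * D / 32))) ≤ ∑ v, ω v := by
      calc _ ≤ (∑ v, ω v) * Real.exp (κ * D) * Real.exp (-(K * (κ * p * D / 32))) :=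
            mul_le_mul_of_nonneg_right h0 (Real.exp_pos _).le
        _ = (∑ v, ω v) * Real.exp (κ * D - K * (κ * p * D / 32)) := by
            rw [mul_assoc, ← Real.exp_add]; ring_nf
        _ ≤ (∑ v, ω v) * 1 := by
            refine mul_le_mul_of_nonneg_left ?_ hΩ0
            rw [Real.exp_le_one_iff]
            have h3 : 0 ≤ κ * D := by positivity
            have h4 := mul_le_mul_of_nonneg_right hK h3
            linarith
        _ = _ := mul_one _
    have h3 : 1 ≤ Real.exp (κ * D / 4) := Real.one_le_exp (by positivity)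
    nlinarith
  refine ⟨X.filter (fun v => ((N G X v).card : ℝ) ≤ D / 2), (Finset.filter_subset _ _).trans hX,
    X.filter (fun v => ¬ ((N G X v).card : ℝ) ≤ D / 2), (Finset.filter_subset _ _).trans hX,
    ?_, ?_, ?_⟩
  · rw [Finset.filter_union_filter_not_eq]
    exact hcol
  · intro v hv
    rw [Finset.mem_filter] at hv
    refine le_trans ?_ hv.2
    exact_mod_cast Finset.card_le_card (Finset.filter_subset_filter _ (Finset.filter_subset _ _))
  · have h2 : (∑ v ∈ X.filter (fun v => ¬ ((N G X v).card : ℝ) ≤ D / 2), w v) *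
        Real.exp (κ * D / 2) ≤ Phi G κ ω X := by
      rw [Phi, Finset.sum_mul]
      refine le_trans (Finset.sum_le_sum (g := fun v => ω v * Real.exp (κ * (N G X v).card)) ?_)
        (Finset.sum_le_sum_of_subset_of_nonneg (Finset.subset_univ _)
          (fun v _ _ => mul_nonneg (hω v) (Real.exp_pos _).le))
      intro v hv
      rw [Finset.mem_filter, not_le] at hv
      have h3 : ω v = w v := by simp only [hωdef]; rw [if_pos (hX hv.1)]
      rw [h3]
      refine mul_le_mul_of_nonneg_left ?_ (hw v)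
      rw [Real.exp_le_exp]
      have := mul_le_mul_of_nonneg_left hv.2.le hκ.le
      linarith
    have h3 := h2.trans h1
    rw [hΩ] at h3
    have h4 : 0 < Real.exp (κ * D / 2) := Real.exp_pos _
    have h5 : (3 * Real.exp (-(κ * D / 4)) * ∑ v ∈ U, w v) * Real.exp (κ * D / 2) =
        3 * (∑ v ∈ U, w v) * Real.exp (κ * D / 4) := by
      have h6 : Real.exp (-(κ * D / 4)) * Real.exp (κ * D / 2) = Real.exp (κ * D / 4) := by
        rw [← Real.exp_add]; ring_nf
      rw [← h6]; ring
    rw [← h5] at h3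
    exact le_of_mul_le_mul_right h3 h4

/-! ## Iterating the phases -/

/-- the graph `G` restricted to `U` -/
def res (G : SimpleGraph V) (U : Finset V) : SimpleGraph V where
  Adj a b := G.Adj a b ∧ a ∈ U ∧ b ∈ U
  symm := ⟨fun _ _ h => ⟨h.1.symm, h.2.2, h.2.1⟩⟩
  loopless := ⟨fun _ h => G.irrefl h.1⟩

theorem res_rare {t s : ℕ} (h : Rare G t s) (U : Finset V) : Rare (res G U) t s := by
  intro x y hx hy hxy
  refine le_trans (Finset.card_le_card ?_) (h x y hx hy fun i j => (hxy i j).1)
  intro v hv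
  rw [Finset.mem_filter] at hv ⊢
  exact ⟨hv.1, fun i => (hv.2.1 i).1, fun i => (hv.2.2 i).1⟩

/-- the result of one phase, for all graphs with few common neighbours -/
def Mach (V : Type) [Fintype V] (t s : ℕ) (D : ℝ) (K : ℕ) (ε : ℝ) : Prop :=
  ∀ G : SimpleGraph V, Rare G t s → (∀ u, ((N G univ u).card : ℝ) ≤ D) →
    ∀ (U : Finset V) (w : V → ℝ), (∀ v, 0 ≤ w v) →
    ∃ U' ⊆ U, ∃ R ⊆ U, Col G (U \ (U' ∪ R)) K ∧ (∀ v ∈ U', ((N G U' v).card : ℝ) ≤ D / 2) ∧
      ∑ v ∈ R, w v ≤ ε * ∑ v ∈ U, w v

theorem iterate {t s : ℕ} {ε : ℝ} (hε : 0 ≤ ε) (J : ℕ) : ∀ (D : ℝ) (K : ℕ → ℕ),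
    (∀ j < J, Mach V t s (D / 2 ^ j) (K j) ε) → 0 ≤ D →
    ∀ G : SimpleGraph V, Rare G t s → ∀ (U : Finset V), (∀ v ∈ U, ((N G U v).card : ℝ) ≤ D) →
    ∀ w : V → ℝ, (∀ v, 0 ≤ w v) →
    ∃ R ⊆ U, Col G (U \ R) (∑ j ∈ range J, K j + (⌊D / 2 ^ J⌋₊ + 1)) ∧
      ∑ v ∈ R, w v ≤ J * ε * ∑ v ∈ U, w v := by
  induction J with
  | zero =>
    intro D K _ hD G _ U hU w _
    refine ⟨∅, Finset.empty_subset _, ?_, by simp⟩
    rw [Finset.sdiff_empty, Finset.range_zero, Finset.sum_empty, zero_add, pow_zero, div_one]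
    exact col_greedy _ _ U rfl fun v hv => Nat.le_floor (hU v hv)
  | succ J ih =>
    intro D K hmach hD G hR U hU w hw
    have h0 := hmach 0 (Nat.succ_pos _) (res G U) (res_rare hR U) (by
      intro u
      rw [pow_zero, div_one]
      by_cases hu : u ∈ U
      · refine le_trans ?_ (hU u hu)
        have h1 : N (res G U) univ u ⊆ N G U u := by
          intro v hv
          rw [mem_N] at hv
          exact mem_N.2 ⟨hv.2.2.2, hv.2.1⟩
        exact_mod_cast Finset.card_le_card h1
      · have h1 : N (res G U) univ u = ∅ := by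
          rw [Finset.eq_empty_iff_forall_notMem]
          intro v hv
          rw [mem_N] at hv
          exact hu hv.2.2.1
        rw [h1]
        simpa using hD) U w hw
    obtain ⟨U', hU', R1, hR1, hcol, hdeg, hw1⟩ := h0
    rw [pow_zero, div_one] at hdeg
    have hcol' : Col G (U \ (U' ∪ R1)) (K 0) := by
      obtain ⟨c, a, b⟩ := hcol
      refine ⟨c, a, fun u hu v hv huv => b u hu v hv ⟨huv, (Finset.mem_sdiff.1 hu).1,
        (Finset.mem_sdiff.1 hv).1⟩⟩
    have hdeg' : ∀ v ∈ U', ((N G U' v).card : ℝ) ≤ D / 2 := by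
      intro v hv
      refine le_trans ?_ (hdeg v hv)
      have h1 : N G U' v ⊆ N (res G U) U' v := by
        intro u hu
        rw [mem_N] at hu
        exact mem_N.2 ⟨hu.1, hu.2, hU' hv, hU' hu.1⟩
      exact_mod_cast Finset.card_le_card h1
    obtain ⟨R2, hR2, hcol2, hw2⟩ := ih (D / 2) (fun j => K (j + 1)) (by
      intro j hj
      have := hmach (j + 1) (by omega)
      rw [pow_succ'] at this
      rw [div_div]
      exact this) (by linarith) G hR U' hdeg' w hw
    refine ⟨R1 ∪ R2, Finset.union_subset hR1 (hR2.trans hU'), ?_, ?_⟩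
    · have h1 := hcol'.union hcol2
      refine h1.mono ?_ ?_
      · intro v hv
        rw [Finset.mem_sdiff, Finset.mem_union] at hv
        rw [Finset.mem_union, Finset.mem_sdiff, Finset.mem_sdiff, Finset.mem_union]
        tauto
      · rw [Finset.sum_range_succ' K J, div_div, ← pow_succ']
        omega
    · have h1 : ∑ v ∈ R1 ∪ R2, w v ≤ ∑ v ∈ R1, w v + ∑ v ∈ R2, w v := by
        have := Finset.sum_union_inter (s₁ := R1) (s₂ := R2) (f := w)
        have h2 : 0 ≤ ∑ v ∈ R1 ∩ R2, w v := Finset.sum_nonneg fun v _ => hw v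
        linarith
      have h2 : ∑ v ∈ U', w v ≤ ∑ v ∈ U, w v :=
        Finset.sum_le_sum_of_subset_of_nonneg hU' fun v _ _ => hw v
      have h3 : J * ε * ∑ v ∈ U', w v ≤ J * ε * ∑ v ∈ U, w v :=
        mul_le_mul_of_nonneg_left h2 (by positivity)
      push_cast
      linarith

end Pool.Agent.K1H34.UHC
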