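import Mathlib
import Pool.Agent.K1H34.UHC.Phase

set_option autoImplicit false

/-!
# The choice of the parameters
-/

namespace Pool.Agent.K1H34.UHC

open Finset Classical Filter Real

/-- polynomials are smaller than exponentials -/
theorem ev_pow (k : ℕ) (C : ℝ) {e : ℝ} (he : 0 < e) :
    ∀ᶠ y : ℝ in atTop, C * y ^ k ≤ Real.exp (e * y) := by
  have h := (isLittleO_pow_exp_pos_mul_atTop (k := k) he).bound
    (show (0 : ℝ) < 1 / (|C| + 1) by positivity)
  filter_upwards [h, eventually_ge_atTop 0] with y hy hy0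
  rw [Real.norm_of_nonneg (pow_nonneg hy0 k), Real.norm_of_nonneg (Real.exp_pos _).le] at hy
  have h1 : C * y ^ k ≤ (|C| + 1) * y ^ k :=
    mul_le_mul_of_nonneg_right (by linarith [le_abs_self C]) (pow_nonneg hy0 k)
  have h2 : (|C| + 1) * y ^ k ≤ (|C| + 1) * (1 / (|C| + 1) * Real.exp (e * y)) :=
    mul_le_mul_of_nonneg_left hy (by positivity)
  have h3 : (|C| + 1) * (1 / (|C| + 1) * Real.exp (e * y)) = Real.exp (e * y) := by
    field_simp
  linarith

/-- the exceptional proportion is small -/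
theorem ev_main (r s n : ℕ) (C : ℝ) (hn : 8 * (2 * r + 1) ≤ n) (hn0 : 0 < n) :
    ∀ᶠ y : ℝ in atTop,
      2 * (s : ℝ) * Real.exp ((3 / 4 + 1 / (4 * n)) * y) ^ (2 * r + 1) /
        (((1 / y) / 24) ^ ((r + 1) * (r + 1)) * ((1 / y) / 4) ^ (2 * r) * (1 / y) /
        (16 * Real.exp (y / 32) * Real.exp (-(3 * y / 4)) ^ (2 * r + 2))) +
      Real.exp y * (C * Real.exp (1 / (4 * n) * y) ^ (2 * r + 1)) /
        (Real.exp (3 * y / 8) * Real.exp ((3 / 4 + 1 / (4 * n)) * y)) ≤
      Real.exp (-(y / 32)) := by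
  have h1 := ev_pow ((r + 1) * (r + 1) + 2 * r + 1)
    (2 * (2 * s * 16 * 24 ^ ((r + 1) * (r + 1)) * 4 ^ (2 * r))) (show (0 : ℝ) < 1 / 2 by norm_num)
  have h2 := ev_pow 0 (2 * |C|) (show (0 : ℝ) < 1 / 32 by norm_num)
  filter_upwards [h1, h2, eventually_ge_atTop 1] with y h1 h2 hy
  have hy0 : 0 < y := by linarith
  have hnr : (0 : ℝ) < n := by exact_mod_cast hn0
  have hη : (1 / (4 * n) : ℝ) * (2 * r + 1) ≤ 1 / 32 := by
    rw [div_mul_eq_mul_div, one_mul, div_le_div_iff₀ (by positivity) (by norm_num)]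
    have : (8 * (2 * r + 1) : ℝ) ≤ n := by exact_mod_cast hn
    linarith
  have hη0 : (0 : ℝ) ≤ 1 / (4 * n) := by positivity
  -- first term
  have t1 : 2 * (s : ℝ) * Real.exp ((3 / 4 + 1 / (4 * n)) * y) ^ (2 * r + 1) /
        (((1 / y) / 24) ^ ((r + 1) * (r + 1)) * ((1 / y) / 4) ^ (2 * r) * (1 / y) /
        (16 * Real.exp (y / 32) * Real.exp (-(3 * y / 4)) ^ (2 * r + 2))) =
      (2 * s * 16 * 24 ^ ((r + 1) * (r + 1)) * 4 ^ (2 * r)) * y ^ ((r + 1) * (r + 1) + 2 * r + 1) *
      Real.exp ((1 / 32 - 3 / 4 + 1 / (4 * n) * (2 * r + 1)) * y) := by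
    have e1 : Real.exp ((1 / 32 - 3 / 4 + 1 / (4 * n) * (2 * r + 1)) * y) =
        Real.exp ((3 / 4 + 1 / (4 * n)) * y) ^ (2 * r + 1) *
        (Real.exp (y / 32) * Real.exp (-(3 * y / 4)) ^ (2 * r + 2)) := by
      rw [← Real.exp_nat_mul, ← Real.exp_nat_mul, ← Real.exp_add, ← Real.exp_add]
      congr 1
      push_cast
      ring
    rw [e1]
    simp only [div_pow, one_div, pow_add, inv_pow]
    field_simp
  have t1' : 2 * (s : ℝ) * Real.exp ((3 / 4 + 1 / (4 * n)) * y) ^ (2 * r + 1) /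
        (((1 / y) / 24) ^ ((r + 1) * (r + 1)) * ((1 / y) / 4) ^ (2 * r) * (1 / y) /
        (16 * Real.exp (y / 32) * Real.exp (-(3 * y / 4)) ^ (2 * r + 2))) ≤
      Real.exp (-(y / 32)) / 2 := by
    rw [t1]
    have e2 : (2 * s * 16 * 24 ^ ((r + 1) * (r + 1)) * 4 ^ (2 * r)) *
        y ^ ((r + 1) * (r + 1) + 2 * r + 1) ≤ Real.exp (1 / 2 * y) / 2 := by linarith
    have e3 : Real.exp ((1 / 32 - 3 / 4 + 1 / (4 * n) * (2 * r + 1)) * y) ≤
        Real.exp ((1 / 32 - 3 / 4 + 1 / 32) * y) := by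
      rw [Real.exp_le_exp]
      exact mul_le_mul_of_nonneg_right (by linarith) hy0.le
    calc _ ≤ Real.exp (1 / 2 * y) / 2 * Real.exp ((1 / 32 - 3 / 4 + 1 / 32) * y) :=
          mul_le_mul e2 e3 (Real.exp_pos _).le (by positivity)
      _ = Real.exp (1 / 2 * y + (1 / 32 - 3 / 4 + 1 / 32) * y) / 2 := by
          rw [Real.exp_add]; ring
      _ ≤ _ := by
          have : Real.exp (1 / 2 * y + (1 / 32 - 3 / 4 + 1 / 32) * y) ≤ Real.exp (-(y / 32)) := by
            rw [Real.exp_le_exp]; linarith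
          linarith
  -- second term
  have t2 : Real.exp y * (C * Real.exp (1 / (4 * n) * y) ^ (2 * r + 1)) /
        (Real.exp (3 * y / 8) * Real.exp ((3 / 4 + 1 / (4 * n)) * y)) =
      C * Real.exp ((1 - 3 / 8 - 3 / 4 - 1 / (4 * n) + 1 / (4 * n) * (2 * r + 1)) * y) := by
    have e1 : Real.exp ((1 - 3 / 8 - 3 / 4 - 1 / (4 * n) + 1 / (4 * n) * (2 * r + 1)) * y) *
        (Real.exp (3 * y / 8) * Real.exp ((3 / 4 + 1 / (4 * n)) * y)) =
        Real.exp y * Real.exp (1 / (4 * n) * y) ^ (2 * r + 1) := by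
      rw [← Real.exp_nat_mul, ← Real.exp_add, ← Real.exp_add, ← Real.exp_add]
      congr 1
      push_cast
      ring
    rw [div_eq_iff (by positivity), mul_assoc C, e1]
    ring
  have t2' : Real.exp y * (C * Real.exp (1 / (4 * n) * y) ^ (2 * r + 1)) /
        (Real.exp (3 * y / 8) * Real.exp ((3 / 4 + 1 / (4 * n)) * y)) ≤
      Real.exp (-(y / 32)) / 2 := by
    rw [t2]
    have e2 : C ≤ Real.exp (1 / 32 * y) / 2 := by
      rw [pow_zero, mul_one] at h2
      linarith [le_abs_self C]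
    have e3 : Real.exp ((1 - 3 / 8 - 3 / 4 - 1 / (4 * n) + 1 / (4 * n) * (2 * r + 1)) * y) ≤
        Real.exp ((1 - 3 / 8 - 3 / 4 + 1 / 32) * y) := by
      rw [Real.exp_le_exp]
      exact mul_le_mul_of_nonneg_right (by linarith) hy0.le
    calc _ ≤ Real.exp (1 / 32 * y) / 2 *
          Real.exp ((1 - 3 / 8 - 3 / 4 - 1 / (4 * n) + 1 / (4 * n) * (2 * r + 1)) * y) :=
          mul_le_mul_of_nonneg_right e2 (Real.exp_pos _).le
      _ ≤ Real.exp (1 / 32 * y) / 2 * Real.exp ((1 - 3 / 8 - 3 / 4 + 1 / 32) * y) :=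
          mul_le_mul_of_nonneg_left e3 (by positivity)
      _ = Real.exp (1 / 32 * y + (1 - 3 / 8 - 3 / 4 + 1 / 32) * y) / 2 := by
          rw [Real.exp_add]; ring
      _ ≤ _ := by
          have : Real.exp (1 / 32 * y + (1 - 3 / 8 - 3 / 4 + 1 / 32) * y) ≤
              Real.exp (-(y / 32)) := by
            rw [Real.exp_le_exp]; linarith
          linarith
  linarith

theorem aux_T {D y : ℝ} (hD : D ≠ 0) (hy : y ≠ 0) :
    1 / (16 * (20000 * D / y)) * D / 16 = D * (y / (5120000 * D)) := by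
  field_simp
  norm_num

theorem aux_T2 {D y : ℝ} (hD : D ≠ 0) (hy : y ≠ 0) :
    10240000 * D / y * (1 / (16 * (20000 * D / y))) = 32 := by
  field_simp
  norm_num

theorem tail_aux {x : ℝ} (hx : 0 ≤ x) (k : ℕ) :
    x ^ k / k.factorial ≤ Real.exp (x * 3 - k) := by
  have g2 := Real.pow_div_factorial_le_exp (x * Real.exp 1) (by positivity) k
  have g4 : x ^ k / k.factorial =
      (x * Real.exp 1) ^ k / k.factorial * Real.exp (-(k : ℝ)) := by
    have h1 : (x * Real.exp 1) ^ k = x ^ k * Real.exp k := by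
      rw [mul_pow, ← Real.exp_nat_mul, mul_one]
    have h2 : Real.exp (k : ℝ) * Real.exp (-(k : ℝ)) = 1 := by
      rw [← Real.exp_add, add_neg_cancel, Real.exp_zero]
    rw [h1, mul_div_right_comm, mul_assoc, h2, mul_one]
  rw [g4, sub_eq_add_neg, Real.exp_add]
  refine mul_le_mul_of_nonneg_right (g2.trans ?_) (Real.exp_pos _).le
  rw [Real.exp_le_exp]
  exact mul_le_mul_of_nonneg_left (by linarith [Real.exp_one_lt_d9]) hx

theorem tail_num {y : ℝ} (y1 : 1 ≤ y) (e17 : 6 ≤ Real.exp (1 / 12 * y))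
    (e18 : 4 * y ≤ Real.exp (1 / 3 * y)) (e19 : 5120000 ≤ Real.exp y) (L' : ℕ)
    (hL' : Real.exp (y / 3) < L' + 1) :
    (Real.exp y * Real.exp (-(3 * y / 4))) ^ (L' + 1) / (L' + 1).factorial ≤
      y / (5120000 * Real.exp y) := by
  have g1 : Real.exp y * Real.exp (-(3 * y / 4)) = Real.exp (1 / 4 * y) := by
    rw [← Real.exp_add]; ring_nf
  rw [g1]
  refine (tail_aux (Real.exp_pos _).le (L' + 1)).trans ?_
  have g9 : 1 / 3 * y = y / 3 := by ring
  rw [g9] at e18
  have g8 : Real.exp (1 / 4 * y) * 6 ≤ Real.exp (y / 3) := by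
    have := mul_le_mul_of_nonneg_left e17 (Real.exp_pos (1 / 4 * y)).le
    rw [← Real.exp_add] at this
    have g9 : 1 / 4 * y + 1 / 12 * y = y / 3 := by ring
    rwa [g9] at this
  have g5 : Real.exp (1 / 4 * y) * 3 - ((L' + 1 : ℕ) : ℝ) ≤ -(2 * y) := by
    push_cast
    linarith
  have g6 : Real.exp (Real.exp (1 / 4 * y) * 3 - ((L' + 1 : ℕ) : ℝ)) ≤ Real.exp (-(2 * y)) := by
    rw [Real.exp_le_exp]; exact g5
  refine g6.trans ?_
  rw [le_div_iff₀ (by positivity)]
  have g7 : Real.exp (-(2 * y)) * (5120000 * Real.exp y) = 5120000 * Real.exp (-y) := by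
    have : Real.exp (-(2 * y)) * Real.exp y = Real.exp (-y) := by
      rw [← Real.exp_add]; ring_nf
    rw [← this]; ring
  rw [g7]
  have g10 : 5120000 * Real.exp (-y) ≤ 1 := by
    have := mul_le_mul_of_nonneg_right e19 (Real.exp_pos (-y)).le
    rw [← Real.exp_add, add_neg_cancel, Real.exp_zero] at this
    exact this
  linarith

/-- **the machine** -/
theorem mach (r s : ℕ) : ∃ y0 : ℝ, ∀ y, y0 ≤ y → ∀ (V : Type) [Fintype V],
    Mach V (r + 1) s (Real.exp y) ⌈10240000 * Real.exp y / y⌉₊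
      (3 * Real.exp (-(Real.exp (2 * y / 3) / 4))) := by
  set n : ℕ := 8 * (2 * r + 1) with hn
  have hn0 : 0 < n := by omega
  have hnr : (0 : ℝ) < n := by exact_mod_cast hn0
  set M' : ℕ := 8 * n with hM'
  have hM0 : 1 ≤ M' := by omega
  have hMr : (0 : ℝ) < M' := by exact_mod_cast hM0
  set c : ℝ := 1 / (24 * M') with hc
  have hc0 : 0 < c := by positivity
  have hc1 : c ≤ 1 := by
    rw [hc, div_le_one (by positivity)]
    have : (1 : ℝ) ≤ M' := by exact_mod_cast hM0
    linarith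
  set q' := (r + 1) * (r + 1) with hq'
  set CX : ℝ := n * (1 / c) ^ n * (2 / c ^ q' * s + 1) with hCX
  have hCX0 : 0 ≤ CX := by positivity
  -- the asymptotic inequalities
  have e1 := ev_pow 0 16 (show (0 : ℝ) < 3 / 32 by norm_num)
  have e3 := ev_pow 1 (16384 * 2) (show (0 : ℝ) < 1 / 64 by norm_num)
  have e7 := ev_pow 1 2 (show (0 : ℝ) < 3 / 4 by norm_num)
  have e8 := ev_pow 1 64 (show (0 : ℝ) < 3 / 32 by norm_num)
  have e9 := ev_pow (q' + 1) (16 * ((r : ℝ) + 1) ^ 2 * 24 ^ q') (show (0 : ℝ) < 3 / 4 by norm_num)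
  have e10 := ev_main r s n CX le_rfl hn0
  have e11 := ev_pow 0 (8 * M') (show (0 : ℝ) < 3 / 4 by norm_num)
  have e12 := ev_pow 0 ((M'.factorial : ℝ) * 8 ^ M') (show (0 : ℝ) < 1 by norm_num)
  have e13 := ev_pow 0 (4 * ((r : ℝ) + 1) ^ 2 / c ^ q') (show (0 : ℝ) < 3 / 4 by norm_num)
  have e14 := ev_pow 1 1 (show (0 : ℝ) < 1 / 8 by norm_num)
  have e15 := ev_pow 0 8 (show (0 : ℝ) < 1 / 64 by norm_num)
  have e16 := ev_pow 1 4 (show (0 : ℝ) < 1 / 64 by norm_num)
  have e17 := ev_pow 0 6 (show (0 : ℝ) < 1 / 12 by norm_num)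
  have e18 := ev_pow 1 4 (show (0 : ℝ) < 1 / 3 by norm_num)
  have e19 := ev_pow 0 5120000 (show (0 : ℝ) < 1 by norm_num)
  obtain ⟨y0, hy0⟩ := Filter.eventually_atTop.1 (e1.and (e3.and (e7.and (e8.and (e9.and (e10.and
    (e11.and (e12.and (e13.and (e14.and (e15.and (e16.and (e17.and (e18.and (e19.and
    (eventually_ge_atTop (2000 : ℝ)))))))))))))))))
  refine ⟨y0, fun y hy => ?_⟩
  obtain ⟨e1, e3, e7, e8, e9, e10, e11, e12, e13, e14, e15, e16, e17, e18, e19, ybig⟩ := hy0 y hy
  clear hy0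
  have yp : 0 < y := by linarith
  simp only [pow_zero, mul_one, pow_one, one_mul] at e1 e3 e7 e8 e11 e12 e13 e14 e15 e16 e17 e18 e19
  intro V _ G hR hdeg U w hw
  set D := Real.exp y with hD
  have hDp : 0 < D := Real.exp_pos _
  set lam := Real.exp (-(3 * y / 4)) with hlam
  have hl : 0 < lam := Real.exp_pos _
  have hl1 : lam ≤ 1 := by rw [hlam, Real.exp_le_one_iff]; linarith
  set kk : ℕ := ⌈y / 2000⌉₊ with hkk
  have hkk1 : y / 2000 ≤ kk := Nat.le_ceil _
  have hkk2 : (kk : ℝ) < y / 2000 + 1 := Nat.ceil_lt_add_one (by positivity)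
  have hkk0 : 0 < kk := Nat.ceil_pos.2 (by positivity)
  have hkkr : (0 : ℝ) < kk := by exact_mod_cast hkk0
  set L : ℕ := ⌈y / 16⌉₊ with hL
  have hL1 : y / 16 ≤ L := Nat.le_ceil _
  have hL2 : (L : ℝ) < y / 16 + 1 := Nat.ceil_lt_add_one (by positivity)
  set z := Real.exp ((3 / 4 + 1 / (4 * n)) * y) with hz
  have hz0 : 0 < z := Real.exp_pos _
  have hη0 : (0 : ℝ) ≤ 1 / (4 * n) := by positivity
  have hz34 : Real.exp (3 / 4 * y) ≤ z := by
    rw [hz, Real.exp_le_exp]
    exact mul_le_mul_of_nonneg_right (by linarith) yp.le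
  set qq := Real.exp (1 / (4 * n) * y) with hqq
  have hqq1 : 1 ≤ qq := Real.one_le_exp (by positivity)
  -- free vertices of high free degree
  have hgs : ∀ H : Finset V, gs G lam H z ≤ (CX * qq ^ (2 * r + 1)) * H.card * Z G lam H := by
    intro H
    have h1 := gs_iter r s hR H (M' := M') (lam := lam) (qq := qq) (D := D) (ρ := c) (c := c) hl hM0
      (by rw [hc]; field_simp; norm_num) hdeg hc0 hc1 hqq1 hc0 n z
      (e11.trans hz34)
      (by
        have h2 : lam * z = Real.exp (1 / (4 * n) * y) := by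
          rw [hlam, hz, ← Real.exp_add]; congr 1; ring
        rw [h2, div_pow, ← Real.exp_nat_mul]
        have h3 : ((M' : ℕ) : ℝ) * (1 / (4 * n) * y) = 2 * y := by
          rw [hM']; push_cast; field_simp; norm_num
        rw [h3, le_div_iff₀ (by positivity)]
        calc D * (M'.factorial : ℝ) * 8 ^ M' = D * ((M'.factorial : ℝ) * 8 ^ M') := by ring
          _ ≤ D * Real.exp y := mul_le_mul_of_nonneg_left e12 hDp.le
          _ = Real.exp (2 * y) := by rw [hD, ← Real.exp_add]; ring_nf)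
      (by
        rw [div_le_iff₀ (by positivity)] at e13
        have := mul_le_mul_of_nonneg_left hz34 (show 0 ≤ c ^ q' by positivity)
        linarith)
      hz0
      (by
        rw [hz, hqq, ← Real.exp_nat_mul, ← Real.exp_add, hD, Real.exp_le_exp]
        have h3 : ((n : ℕ) : ℝ) * (1 / (4 * n) * y) = y / 4 := by field_simp
        rw [h3]
        have : 0 ≤ 1 / (4 * n) * y := by positivity
        linarith)
    refine h1.trans ?_
    have hZ := (Z_pos (G := G) hl H).le
    have h2 : (2 / c ^ q' * qq ^ (2 * r + 1) * s + 1) ≤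
        (2 / c ^ q' * s + 1) * qq ^ (2 * r + 1) := by
      have : 1 ≤ qq ^ (2 * r + 1) := one_le_pow₀ hqq1
      nlinarith
    have h3 : 0 ≤ (H.card : ℝ) * Z G lam H := by positivity
    calc n * (1 / c) ^ n * ((2 / c ^ q' * qq ^ (2 * r + 1) * s + 1) * H.card * Z G lam H)
        = (n * (1 / c) ^ n * (2 / c ^ q' * qq ^ (2 * r + 1) * s + 1)) *
          (H.card * Z G lam H) := by ring
      _ ≤ (n * (1 / c) ^ n * ((2 / c ^ q' * s + 1) * qq ^ (2 * r + 1))) *
          (H.card * Z G lam H) := by gcongr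
      _ = _ := by rw [hCX]; ring
  -- few bad vertices
  set a := Real.exp (-(y / 32)) with ha
  have ha0 : 0 ≤ a := (Real.exp_pos _).le
  set β := Real.exp (7 * y / 8) with hβ
  set gam : ℝ := 8 / kk with hgam
  have hLam0 : 0 < Real.exp (y / 32) := Real.exp_pos _
  have hgood : ∀ H : Finset V, ((H.filter (fun v => β * Wv G lam H v + gam * En G lam H v <
      Z G lam H)).card : ℝ) ≤ a * H.card := by
    intro H
    have h1 := bad_bound r s kk L hR H lam (Real.exp (y / 32)) y (1 / 128) (1 / y) D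
      (Real.exp (3 * y / 8)) z (CX * qq ^ (2 * r + 1)) β gam hl hl1 hdeg (hgs H)
      (by
        rw [hβ, hlam, ← Real.exp_add]
        have : 7 * y / 8 + -(3 * y / 4) = 3 / 32 * y + y / 32 := by ring
        rw [this, Real.exp_add]
        exact mul_le_mul_of_nonneg_right e1 hLam0.le)
      (by rw [hgam]; field_simp; norm_num) (by positivity) (Real.exp_pos _) hkk0 hz0 hLam0
      (by norm_num) (by norm_num) (by linarith)
      (by
        have h2 : (1 / (1 / 128 : ℝ)) ^ (2 * kk) ≤ 16384 * Real.exp (y / 128) := by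
          have h3 : (1 / (1 / 128 : ℝ)) = Real.exp (Real.log 128) := by
            rw [Real.exp_log (by norm_num)]; norm_num
          rw [h3, ← Real.exp_nat_mul]
          have h4 : Real.log 128 ≤ 5 := by
            have : (128 : ℝ) = 2 ^ (7 : ℕ) := by norm_num
            rw [this, Real.log_pow]
            have := Real.log_two_lt_d9
            push_cast
            linarith
          have h5 : Real.exp (2 * Real.log 128) = 16384 := by
            rw [two_mul, Real.exp_add, Real.exp_log (by norm_num)]; norm_num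
          rw [← h5, ← Real.exp_add, Real.exp_le_exp]
          have h6 : 0 ≤ Real.log 128 := Real.log_nonneg (by norm_num)
          push_cast
          have h7 : 2 * (kk : ℝ) * Real.log 128 ≤ 2 * (y / 2000 + 1) * Real.log 128 :=
            mul_le_mul_of_nonneg_right (by linarith) h6
          have h8 : 2 * (y / 2000) * Real.log 128 ≤ 2 * (y / 2000) * 5 :=
            mul_le_mul_of_nonneg_left h4 (by positivity)
          linarith
        have h3 : (2 * (2 * (kk : ℝ) + 1)) ≤ y := by linarith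
        have h4 : Real.exp (y * (1 / 128)) = Real.exp (y / 128) := by ring_nf
        rw [h4]
        calc Real.exp (y / 128) * (1 / (1 / 128 : ℝ)) ^ (2 * kk) * (2 * (2 * (kk : ℝ) + 1)) ≤
              Real.exp (y / 128) * (16384 * Real.exp (y / 128)) * y := by
              gcongr
          _ = (16384 * y) * (Real.exp (y / 128) * Real.exp (y / 128)) := by ring
          _ < (16384 * 2 * y) * (Real.exp (y / 128) * Real.exp (y / 128)) := by
              apply mul_lt_mul_of_pos_right _ (by positivity)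
              linarith
          _ ≤ Real.exp (1 / 64 * y) * (Real.exp (y / 128) * Real.exp (y / 128)) :=
              mul_le_mul_of_nonneg_right e3 (by positivity)
          _ = Real.exp (y / 32) := by
              rw [← Real.exp_add, ← Real.exp_add]; ring_nf)
      (by
        have h2 : (2 : ℝ) ^ L = Real.exp (L * Real.log 2) := by
          rw [Real.exp_nat_mul, Real.exp_log (by norm_num)]
        rw [h2, Real.exp_lt_exp]
        have h3 := Real.log_two_gt_d9
        nlinarith)
      (by linarith)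
      (by positivity)
      (by
        rw [mul_one_div, div_le_iff₀ yp]
        linarith)
      (by
        rw [div_le_one yp]; linarith)
      (by
        rw [le_div_iff₀ yp]
        have h2 : lam * Real.exp (3 / 4 * y) = 1 := by
          rw [hlam, ← Real.exp_add, Real.exp_eq_one_iff]; ring
        have h3 := mul_le_mul_of_nonneg_left e7 hl.le
        linarith)
      (by
        rw [le_div_iff₀ yp]
        have h2 : D * Real.exp (3 * y / 8) * Real.exp (y / 32) * lam ^ 2 =
            Real.exp (-(3 / 32 * y)) := by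
          rw [hD, hlam, ← Real.exp_nat_mul, ← Real.exp_add, ← Real.exp_add, ← Real.exp_add]
          congr 1
          push_cast
          ring
        have h3 : 64 * D * Real.exp (3 * y / 8) * Real.exp (y / 32) * lam ^ 2 * y =
            (64 * y) * (D * Real.exp (3 * y / 8) * Real.exp (y / 32) * lam ^ 2) := by ring
        rw [h3, h2]
        calc 64 * y * Real.exp (-(3 / 32 * y)) ≤ Real.exp (3 / 32 * y) * Real.exp (-(3 / 32 * y)) :=
              mul_le_mul_of_nonneg_right e8 (Real.exp_pos _).le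
          _ = 1 := by rw [← Real.exp_add, Real.exp_eq_one_iff]; ring)
      (by
        have h2 : lam * Real.exp (3 / 4 * y) = 1 := by
          rw [hlam, ← Real.exp_add, Real.exp_eq_one_iff]; ring
        have h3 : 1 / y * (1 / y / 24) ^ q' = 1 / (24 ^ q' * y ^ (q' + 1)) := by
          rw [div_pow, div_pow, one_pow, pow_succ]
          field_simp
        rw [h3, le_div_iff₀ (by positivity)]
        have h4 := mul_le_mul_of_nonneg_left e9 hl.le
        calc 16 * ((r : ℝ) + 1) ^ 2 * lam * (24 ^ q' * y ^ (q' + 1)) =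
              lam * (16 * ((r : ℝ) + 1) ^ 2 * 24 ^ q' * y ^ (q' + 1)) := by ring
          _ ≤ _ := h4
          _ = 1 := h2)
    refine h1.trans (mul_le_mul_of_nonneg_right ?_ (Nat.cast_nonneg _))
    exact e10
  -- the distribution
  set T : ℝ := 20000 * D / y with hT
  have hT0 : 0 < T := by positivity
  have hTle : β + gam * D ≤ T := by
    have h1 : gam ≤ 16000 / y := by
      rw [hgam, div_le_div_iff₀ hkkr yp]
      linarith
    have h2 : β ≤ 4000 * D / y := by
      rw [le_div_iff₀ yp]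
      have h3 : D = β * Real.exp (1 / 8 * y) := by
        rw [hD, hβ, ← Real.exp_add]; ring_nf
      rw [h3]
      have h4 := mul_le_mul_of_nonneg_left e14 (Real.exp_pos (7 * y / 8)).le
      rw [← hβ] at h4
      have h5 : 0 < β * Real.exp (1 / 8 * y) := by positivity
      nlinarith
    have h3 : gam * D ≤ 16000 / y * D := mul_le_mul_of_nonneg_right h1 hDp.le
    calc β + gam * D ≤ 4000 * D / y + 16000 / y * D := add_le_add h2 h3
      _ = T := by rw [hT]; ring
  have hfrac := frac (G := G) hl (Real.exp_pos (7 * y / 8)).le (by positivity : 0 ≤ gam) ha0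
    hTle hT0 hdeg hgood
  have hmach := weighted (G := G) (R := Real.exp (y / 64)) hl hT0 (Real.one_lt_exp_iff.2 (by positivity))
    (by
      have h1 : Real.exp (-(y / 32)) * Real.exp (y / 64) * Real.exp (1 / 64 * y) = 1 := by
        rw [← Real.exp_add, ← Real.exp_add, Real.exp_eq_one_iff]; ring
      have h2 : 0 ≤ Real.exp (-(y / 32)) * Real.exp (y / 64) := by positivity
      have h3 := mul_le_mul_of_nonneg_left e15 h2
      rw [ha]
      linarith)
    (by
      have h1 : Real.exp (y / 64) = Real.exp (1 / 64 * y) := by ring_nf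
      rw [h1]
      have h2 : T * (4 * y) ≤ T * Real.exp (1 / 64 * y) := mul_le_mul_of_nonneg_left e16 hT0.le
      refine le_trans ?_ h2
      rw [hT]
      have h3 : 20000 * D / y * (4 * y) = 80000 * D := by field_simp; norm_num
      rw [h3]; linarith)
    hdeg hfrac
  -- one phase
  set L' : ℕ := ⌊Real.exp (y / 3)⌋₊ with hL'
  have hL'1 : 1 ≤ L' := Nat.le_floor (by
    rw [Nat.cast_one]; exact Real.one_le_exp (by positivity))
  have hL'r : (0 : ℝ) < L' := by exact_mod_cast hL'1
  have hL'2 : (L' : ℝ) ≤ Real.exp (y / 3) := Nat.floor_le (Real.exp_pos _).le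
  have hL'3 : Real.exp (y / 3) < L' + 1 := Nat.lt_floor_add_one _
  obtain ⟨U', hU', R, hRU, h1, h2, h3⟩ := phase (G := G) (κ := 1 / L') (p := 1 / (16 * T)) hl hdeg
    hmach (by positivity) L' (by rw [one_div, inv_mul_cancel₀ hL'r.ne']) (by positivity) hDp.le
    (by
      have g1 := tail_num (by linarith : (1 : ℝ) ≤ y) e17 e18 e19 L' hL'3
      have g8 : 1 / (16 * T) * D / 16 = D * (y / (5120000 * D)) := by
        rw [hT]
        exact aux_T hDp.ne' yp.ne'
      rw [g8]
      exact mul_le_mul_of_nonneg_left g1 hDp.le)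
    ⌈10240000 * D / y⌉₊
    (by
      have g1 : 10240000 * D / y ≤ ⌈10240000 * D / y⌉₊ := Nat.le_ceil _
      have g2 : 10240000 * D / y * (1 / (16 * T)) = 32 := by
        rw [hT]; exact aux_T2 hDp.ne' yp.ne'
      rw [← g2]
      exact mul_le_mul_of_nonneg_right g1 (by positivity))
    w hw U
  refine ⟨U', hU', R, hRU, h1, h2, h3.trans ?_⟩
  refine mul_le_mul_of_nonneg_right ?_ (Finset.sum_nonneg fun v _ => hw v)
  refine mul_le_mul_of_nonneg_left ?_ (by norm_num)
  rw [Real.exp_le_exp, neg_le_neg_iff]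
  have g1 : Real.exp (2 * y / 3) ≤ 1 / L' * D := by
    rw [one_div, ← div_eq_inv_mul, le_div_iff₀ hL'r]
    calc Real.exp (2 * y / 3) * L' ≤ Real.exp (2 * y / 3) * Real.exp (y / 3) :=
          mul_le_mul_of_nonneg_left hL'2 (Real.exp_pos _).le
      _ = D := by rw [← Real.exp_add, hD]; ring_nf
  linarith

end Pool.Agent.K1H34.UHC
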