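import Mathlib
import Pool.Agent.K1H34.UHC.Num

set_option autoImplicit false

/-!
# One constant for all three-colourable graphs
-/

namespace Pool.Agent.K1H34.UHC

open Finset Classical Filter Real

/-- graphs without `K_{m,m,m}` -/
theorem rare_of_free {W V : Type} [Fintype W] [Fintype V] (F : SimpleGraph W)
    (c : F.Coloring (Fin 3)) (G : SimpleGraph V) (h : F.Free G) :
    Rare G (Fintype.card W + 1) (Fintype.card W) := by
  intro x y hx hy hxy
  by_contra hcon
  push Not at hcon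
  set S := univ.filter (fun v => (∀ i, G.Adj v (x i)) ∧ ∀ i, G.Adj v (y i)) with hS
  obtain ⟨e⟩ : Nonempty (W ↪ {v // v ∈ S}) := by
    rw [Function.Embedding.nonempty_iff_card_le]
    simpa using hcon.le
  have hz : ∀ w, (∀ i, G.Adj (e w : V) (x i)) ∧ ∀ i, G.Adj (e w : V) (y i) := fun w =>
    (Finset.mem_filter.1 (e w).2).2
  set idx : W → Fin (Fintype.card W + 1) := fun w => (Fintype.equivFin W w).castSucc with hidx
  have hidxi : Function.Injective idx := fun a b hab =>
    (Fintype.equivFin W).injective (Fin.castSucc_injective _ hab)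
  set g : W → V := fun w => if c w = 0 then x (idx w) else if c w = 1 then y (idx w) else e w
    with hg
  have hc3 : ∀ w, c w = 0 ∨ c w = 1 ∨ c w = 2 := by
    intro w
    generalize c w = k
    fin_cases k <;> simp
  have g0 : ∀ w, c w = 0 → g w = x (idx w) := fun w hw => by simp [hg, hw]
  have g1 : ∀ w, c w = 1 → g w = y (idx w) := fun w hw => by simp [hg, hw]
  have g2 : ∀ w, c w = 2 → g w = e w := fun w hw => by simp [hg, hw]
  have hadj : ∀ a b, F.Adj a b → G.Adj (g a) (g b) := by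
    intro a b hab
    have hne : c a ≠ c b := c.valid hab
    rcases hc3 a with ha | ha | ha <;> rcases hc3 b with hb | hb | hb
    · exact absurd (ha.trans hb.symm) hne
    · rw [g0 a ha, g1 b hb]; exact hxy _ _
    · rw [g0 a ha, g2 b hb]; exact ((hz b).1 _).symm
    · rw [g1 a ha, g0 b hb]; exact (hxy _ _).symm
    · exact absurd (ha.trans hb.symm) hne
    · rw [g1 a ha, g2 b hb]; exact ((hz b).2 _).symm
    · rw [g2 a ha, g0 b hb]; exact (hz a).1 _
    · rw [g2 a ha, g1 b hb]; exact (hz a).2 _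
    · exact absurd (ha.trans hb.symm) hne
  have hinj : Function.Injective g := by
    intro a b hab
    rcases hc3 a with ha | ha | ha <;> rcases hc3 b with hb | hb | hb
    · rw [g0 a ha, g0 b hb] at hab
      exact hidxi (hx hab)
    · rw [g0 a ha, g1 b hb] at hab
      exact absurd (hab ▸ hxy (idx a) (idx b)) G.irrefl
    · rw [g0 a ha, g2 b hb] at hab
      exact absurd (hab ▸ (hz b).1 (idx a)) G.irrefl
    · rw [g1 a ha, g0 b hb] at hab
      exact absurd (hab ▸ hxy (idx b) (idx a)) G.irrefl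
    · rw [g1 a ha, g1 b hb] at hab
      exact hidxi (hy hab)
    · rw [g1 a ha, g2 b hb] at hab
      exact absurd (hab ▸ (hz b).2 (idx a)) G.irrefl
    · rw [g2 a ha, g0 b hb] at hab
      exact absurd (hab ▸ (hz a).1 (idx b)) G.irrefl
    · rw [g2 a ha, g1 b hb] at hab
      exact absurd (hab ▸ (hz a).2 (idx b)) G.irrefl
    · rw [g2 a ha, g2 b hb] at hab
      exact e.injective (Subtype.ext hab)
  exact h ⟨⟨⟨g, fun {a b} hab => hadj a b hab⟩, hinj⟩⟩

theorem Mach.mono {V : Type} [Fintype V] {t s K : ℕ} {D ε ε' : ℝ} (h : Mach V t s D K ε)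
    (hε : ε ≤ ε') : Mach V t s D K ε' := by
  intro G hR hdeg U w hw
  obtain ⟨U', hU', R, hRU, h1, h2, h3⟩ := h G hR hdeg U w hw
  exact ⟨U', hU', R, hRU, h1, h2, h3.trans
    (mul_le_mul_of_nonneg_right hε (Finset.sum_nonneg fun v _ => hw v))⟩

theorem sum_halves (J : ℕ) : ∑ j ∈ range J, (1 / 2 : ℝ) ^ j ≤ 2 := by
  have h := geom_sum_eq (by norm_num : (1 / 2 : ℝ) ≠ 1) J
  rw [h]
  have h2 : (0 : ℝ) ≤ (1 / 2) ^ J := by positivity
  have h3 : ((1 / 2 : ℝ) ^ J - 1) / (1 / 2 - 1) = 2 - 2 * (1 / 2) ^ J := by ring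
  rw [h3]
  linarith

/-- **one constant** -/
theorem uniform (r s : ℕ) : ∃ y0 : ℝ, ∀ y, y0 ≤ y → ∀ (V : Type) [Fintype V]
    (G : SimpleGraph V), Rare G (r + 1) s → (∀ u, ((N G univ u).card : ℝ) ≤ Real.exp y) →
    ∀ w : V → ℝ, (∀ v, 0 ≤ w v) →
    ∃ (R : Finset V) (k : ℕ), (k : ℝ) ≤ 50000000 * Real.exp y / y ∧ Col G (univ \ R) k ∧
      ∑ v ∈ R, w v ≤ Real.exp (-(Real.exp (y / 2))) * ∑ v, w v := by
  obtain ⟨y0, hy0⟩ := mach r s
  have e1 := ev_pow 1 2 (show (0 : ℝ) < 1 / 10 by norm_num)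
  have e2 := ev_pow 2 10 (show (0 : ℝ) < 1 by norm_num)
  have e3 := ev_pow 0 8 (show (0 : ℝ) < 1 / 10 by norm_num)
  have e4 := ev_pow 1 6 (show (0 : ℝ) < 1 / 2 by norm_num)
  obtain ⟨y1, hy1⟩ := Filter.eventually_atTop.1 (e1.and (e2.and (e3.and (e4.and
    ((eventually_ge_atTop (2000 : ℝ)).and (eventually_ge_atTop (2 * y0)))))))
  refine ⟨y1, fun y hy V _ G hR hdeg w hw => ?_⟩
  obtain ⟨e1, e2, e3, e4, ybig, yy0⟩ := hy1 y hy
  simp only [pow_zero, mul_one, pow_one, one_mul] at e1 e2 e3 e4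
  have yp : 0 < y := by linarith
  set D := Real.exp y with hD
  have hDp : 0 < D := Real.exp_pos _
  set J : ℕ := Nat.clog 2 ⌈y⌉₊ with hJ
  have hJ1 : y ≤ 2 ^ J := by
    have h1 : ⌈y⌉₊ ≤ 2 ^ J := Nat.le_pow_clog (by norm_num) _
    have h2 : (⌈y⌉₊ : ℝ) ≤ 2 ^ J := by exact_mod_cast h1
    exact (Nat.le_ceil y).trans h2
  have hJ2 : ∀ j < J, (2 : ℝ) ^ j ≤ 2 * y := by
    intro j hj
    have h1 : 2 ^ j < ⌈y⌉₊ := Nat.pow_lt_of_lt_clog (by omega)
    have h2 : ((2 : ℝ)) ^ j < ⌈y⌉₊ := by exact_mod_cast h1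
    have h3 := Nat.ceil_lt_add_one yp.le
    linarith
  have hJ3 : (J : ℝ) ≤ 2 * y + 1 := by
    rcases Nat.eq_zero_or_pos J with h | h
    · rw [h]; push_cast; linarith
    · have h1 := hJ2 (J - 1) (by omega)
      have h2 : J - 1 < 2 ^ (J - 1) := Nat.lt_two_pow_self
      have h3 : J ≤ 2 ^ (J - 1) := by omega
      have h4 : (J : ℝ) ≤ 2 ^ (J - 1) := by exact_mod_cast h3
      linarith
  -- the logarithms of the degrees
  set yj : ℕ → ℝ := fun j => y - j * Real.log 2 with hyj
  have hexp : ∀ j, Real.exp (yj j) = D / 2 ^ j := by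
    intro j
    simp only [hyj]
    rw [Real.exp_sub, Real.exp_nat_mul, Real.exp_log (by norm_num)]
  have hyj1 : ∀ j < J, 9 / 10 * y ≤ yj j := by
    intro j hj
    simp only [hyj]
    have h1 : Real.exp (j * Real.log 2) ≤ Real.exp (1 / 10 * y) := by
      rw [Real.exp_nat_mul, Real.exp_log (by norm_num)]
      exact (hJ2 j hj).trans e1
    rw [Real.exp_le_exp] at h1
    linarith
  set ε := 3 * Real.exp (-(Real.exp (3 * y / 5) / 4)) with hε
  set K : ℕ → ℕ := fun j => ⌈10240000 * Real.exp (yj j) / yj j⌉₊ with hK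
  have hmach : ∀ j < J, Mach V (r + 1) s (D / 2 ^ j) (K j) ε := by
    intro j hj
    have h1 := hy0 (yj j) (by linarith [hyj1 j hj]) V
    rw [← hexp j]
    refine h1.mono ?_
    rw [hε]
    refine mul_le_mul_of_nonneg_left ?_ (by norm_num)
    rw [Real.exp_le_exp, neg_le_neg_iff]
    refine div_le_div_of_nonneg_right ?_ (by norm_num)
    rw [Real.exp_le_exp]
    linarith [hyj1 j hj]
  obtain ⟨R, _, h1, h2⟩ := iterate (t := r + 1) (s := s) (ε := ε) (by positivity) J D K hmach
    hDp.le G hR univ (fun v _ => hdeg v) w hw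
  refine ⟨R, _, ?_, h1, ?_⟩
  · -- the number of colours
    push_cast
    have k1 : ∀ j ∈ range J, (K j : ℝ) ≤ 20480000 * D / y * (1 / 2) ^ j + 1 := by
      intro j hj
      rw [Finset.mem_range] at hj
      have h3 := hyj1 j hj
      have h4 : 0 < yj j := by linarith
      have h5 : (K j : ℝ) < 10240000 * Real.exp (yj j) / yj j + 1 :=
        Nat.ceil_lt_add_one (by positivity)
      have h6 : 10240000 * Real.exp (yj j) / yj j ≤ 20480000 * D / y * (1 / 2) ^ j := by
        rw [hexp, div_le_iff₀ h4]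
        have h7 : 20480000 * D / y * (1 / 2) ^ j * yj j =
            10240000 * (D / 2 ^ j) * (2 * yj j / y) := by
          rw [one_div, inv_pow]; field_simp; norm_num
        rw [h7]
        have h8 : 1 ≤ 2 * yj j / y := by
          rw [le_div_iff₀ yp]; linarith
        have h9 : 0 ≤ 10240000 * (D / 2 ^ j) := by positivity
        nlinarith
      linarith
    have k2 : ∑ j ∈ range J, (K j : ℝ) ≤ 40960000 * D / y + J := by
      refine (Finset.sum_le_sum k1).trans ?_
      rw [Finset.sum_add_distrib, ← Finset.mul_sum, Finset.sum_const, Finset.card_range,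
        nsmul_eq_mul, mul_one]
      have h3 : 20480000 * D / y * ∑ j ∈ range J, (1 / 2 : ℝ) ^ j ≤ 20480000 * D / y * 2 :=
        mul_le_mul_of_nonneg_left (sum_halves J) (by positivity)
      have h4 : 20480000 * D / y * 2 = 40960000 * D / y := by ring
      linarith
    have k3 : ((⌊D / 2 ^ J⌋₊ : ℕ) : ℝ) ≤ D / y := by
      refine (Nat.floor_le (by positivity)).trans ?_
      exact div_le_div_of_nonneg_left hDp.le yp hJ1
    have k4 : 2 * y + 2 ≤ D / y := by
      rw [le_div_iff₀ yp]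
      nlinarith
    have k5 : 40960000 * D / y + (2 * y + 1) + (D / y + 1) ≤ 50000000 * D / y := by
      have h3 : 50000000 * D / y = 40960000 * D / y + 9040000 * (D / y) := by ring
      have h4 : 0 ≤ D / y := by positivity
      linarith
    linarith
  · refine h2.trans (mul_le_mul_of_nonneg_right ?_ (Finset.sum_nonneg fun v _ => hw v))
    have h3 : Real.exp (y / 2) * 8 ≤ Real.exp (3 * y / 5) := by
      have h4 : 3 * y / 5 = y / 2 + 1 / 10 * y := by ring
      rw [h4, Real.exp_add]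
      exact mul_le_mul_of_nonneg_left e3 (Real.exp_pos _).le
    have h4 : ε ≤ 3 * Real.exp (-(2 * Real.exp (y / 2))) := by
      rw [hε]
      refine mul_le_mul_of_nonneg_left ?_ (by norm_num)
      rw [Real.exp_le_exp]
      linarith
    have h5 : (J : ℝ) * 3 ≤ Real.exp (Real.exp (y / 2)) := by
      have h6 : (J : ℝ) * 3 ≤ 6 * y + 3 := by linarith
      have h7 : Real.exp (1 / 2 * y) = Real.exp (y / 2) := by ring_nf
      rw [h7] at e4
      have h8 := Real.add_one_le_exp (Real.exp (y / 2))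
      have h9 : Real.exp (y / 2) + Real.exp (y / 2) ^ 2 / 2 ≤ Real.exp (Real.exp (y / 2)) := by
        have := Real.quadratic_le_exp_of_nonneg (Real.exp_pos (y / 2)).le
        linarith
      nlinarith [Real.exp_pos (y / 2)]
    calc (J : ℝ) * ε ≤ J * (3 * Real.exp (-(2 * Real.exp (y / 2)))) :=
          mul_le_mul_of_nonneg_left h4 (Nat.cast_nonneg _)
      _ = (J * 3) * Real.exp (-(2 * Real.exp (y / 2))) := by ring
      _ ≤ Real.exp (Real.exp (y / 2)) * Real.exp (-(2 * Real.exp (y / 2))) :=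
          mul_le_mul_of_nonneg_right h5 (Real.exp_pos _).le
      _ = _ := by rw [← Real.exp_add]; ring_nf

/-- **one constant for all three-colourable graphs** -/
theorem main {W : Type} [Fintype W] (F : SimpleGraph W) (hF : F.Colorable 3) :
    ∃ D0 : ℝ, ∀ D : ℝ, D0 ≤ D → ∀ (V : Type) [Fintype V] (G : SimpleGraph V),
      F.Free G → (∀ v, ((G.neighborSet v).ncard : ℝ) ≤ D) → ∀ w : V → ℝ, (∀ v, 0 ≤ w v) →
      ∃ U : Set V, (G.induce U).Colorable ⌊50000000 * D / Real.log D⌋₊ ∧
        ∑ v ∈ univ.filter (fun v => v ∉ U), w v ≤ Real.exp (-Real.sqrt D) * ∑ v, w v := by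
  obtain ⟨c⟩ := hF
  obtain ⟨y0, hy0⟩ := uniform (Fintype.card W) (Fintype.card W)
  refine ⟨max (Real.exp y0) (Real.exp 1), fun D hD V _ G hfree hdeg w hw => ?_⟩
  have hD1 : Real.exp 1 ≤ D := (le_max_right _ _).trans hD
  have hDp : 0 < D := lt_of_lt_of_le (Real.exp_pos _) hD1
  have hlog : Real.exp (Real.log D) = D := Real.exp_log hDp
  have hy : y0 ≤ Real.log D := by
    rw [Real.le_log_iff_exp_le hDp]
    exact (le_max_left _ _).trans hD
  have hly : 0 < Real.log D := by
    have : 1 ≤ Real.log D := by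
      rw [Real.le_log_iff_exp_le hDp]; exact hD1
    linarith
  obtain ⟨R, k, h1, h2, h3⟩ := hy0 (Real.log D) hy V G (rare_of_free F c G hfree) (by
    intro u
    rw [hlog]
    refine le_trans ?_ (hdeg u)
    rw [← Set.ncard_coe_finset]
    have h4 : ((N G univ u : Finset V) : Set V) = G.neighborSet u := by
      ext v
      simp [mem_N, SimpleGraph.mem_neighborSet]
    rw [h4]) w hw
  rw [hlog] at h1
  refine ⟨{v | v ∉ R}, ?_, ?_⟩
  · obtain ⟨c', a, b⟩ := h2
    have hk : k ≤ ⌊50000000 * D / Real.log D⌋₊ := Nat.le_floor h1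
    refine SimpleGraph.Colorable.mono hk ⟨SimpleGraph.Coloring.mk
      (fun v => (⟨c' v, a v (by
        have := v.2
        rw [Set.mem_ofPred_eq] at this
        rw [Finset.mem_sdiff]; exact ⟨mem_univ _, this⟩)⟩ : Fin k)) ?_⟩
    intro u v huv h4
    have hu := u.2
    have hv := v.2
    rw [Set.mem_ofPred_eq] at hu hv
    refine b u (by rw [Finset.mem_sdiff]; exact ⟨mem_univ _, hu⟩) v
      (by rw [Finset.mem_sdiff]; exact ⟨mem_univ _, hv⟩) huv ?_
    exact congrArg Fin.val h4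
  · have h4 : ∑ v ∈ univ.filter (fun v => v ∉ {v : V | v ∉ R}), w v = ∑ v ∈ R, w v := by
      refine sum_congr ?_ (fun _ _ => rfl)
      ext v; simp
    refine le_trans (le_of_eq ?_) (le_trans h3 ?_)
    · convert h4
    · have h5 : Real.exp (Real.log D / 2) = Real.sqrt D := by
        rw [Real.sqrt_eq_rpow, Real.rpow_def_of_pos hDp]; ring_nf
      rw [h5]

end Pool.Agent.K1H34.UHC
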