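import Mathlib
import Pool.Agent.K1H34.UHC.Main

set_option autoImplicit false

/-!
# One constant for all three-colourable graphs, up to a tiny proportion of the vertices

There is a constant `c` such that for every `3`-colourable `F`, all large `Δ` and all `F`-free graphs
`G` of maximum degree at most `Δ` the graph `G` can be coloured with `c Δ / log Δ` colours, up to a
proportion of at most `exp (-√Δ)` of the vertices, where the vertices may be weighted in any way. In
particular `χ(G) ≤ c Δ / log Δ` if `G` has fewer than `exp √Δ` vertices.

Idea. Let `F` be contained in `K(s, t, t)`, and take an independent set `I` at random from the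
hard-core model with fugacity `λ = Δ^(-3/4)`. The number of independent sets that avoid a set of
vertices is controlled by telescoping ratios, which gives a local lemma for this model without any
assumption on independence. Every `K(t, t)` of `G` is in less than `s` neighbourhoods, so for all but
few vertices `v` the free part of `N(v)` (the vertices without a neighbour in `I`) has few copies of
`K(t, t)`, hence few edges, or it is small; the few exceptional vertices are again dealt with in the
same way, with fewer and fewer exceptions, through a weighting of the vertices. The occupancy of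
`N(v)` is then at least of order `λ |N(v)| log Δ / Δ` on average, for all weightings simultaneously,
and a potential function turns this into a colouring.
-/

namespace Pool.Agent.K1H34.UHC.Uniform

/-- There is a constant `c` such that for every finite graph `F` with a proper `3`-colouring there
is `Δ₀` such that for every `Δ ≥ Δ₀` and every finite `F`-free graph `G` of maximum degree at most
`Δ` the following holds. For every weighting `w ≥ 0` of the vertices there is a set `U` of vertices
such that `χ(G[U]) ≤ c Δ / log Δ` and the weight outside of `U` is at most `exp (-√Δ)` times the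
total weight; and if `G` has fewer than `exp √Δ` vertices, then `χ(G) ≤ c Δ / log Δ`. -/
theorem result : ∃ c : ℝ, 0 < c ∧ ∀ (W : Type) [Fintype W] (F : SimpleGraph W), F.Colorable 3 →
    ∃ Δ₀ : ℝ, ∀ Δ : ℝ, Δ₀ ≤ Δ → ∀ (V : Type) [Fintype V] (G : SimpleGraph V),
      F.Free G → (∀ v, ((G.neighborSet v).ncard : ℝ) ≤ Δ) →
      (∀ w : V → ℝ, (∀ v, 0 ≤ w v) →
        ∃ U : Set V, (G.induce U).Colorable ⌊c * Δ / Real.log Δ⌋₊ ∧
          ∑ v : V, (Uᶜ).indicator w v ≤ Real.exp (-Real.sqrt Δ) * ∑ v : V, w v) ∧
      ((Fintype.card V : ℝ) < Real.exp (Real.sqrt Δ) →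
        G.Colorable ⌊c * Δ / Real.log Δ⌋₊) := by
  classical
  refine ⟨50000000, by norm_num, fun W _ F hF => ?_⟩
  obtain ⟨D0, h0⟩ := Pool.Agent.K1H34.UHC.main F hF
  refine ⟨D0, fun Δ hΔ V _ G hG hd => ?_⟩
  have key := h0 Δ hΔ V G hG hd
  constructor
  · intro w hw
    obtain ⟨U, h1, h2⟩ := key w hw
    refine ⟨U, h1, le_trans (le_of_eq ?_) h2⟩
    rw [Finset.sum_filter]
    refine Finset.sum_congr rfl fun v _ => ?_
    rw [Set.indicator_apply]
    rfl
  · intro hn
    obtain ⟨U, h1, h2⟩ := key (fun _ => 1) (fun _ => zero_le_one)
    have h3 : U = Set.univ := by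
      by_contra hU
      obtain ⟨v, hv⟩ := (Set.ne_univ_iff_exists_notMem U).1 hU
      have h4 : (1 : ℝ) ≤ ∑ v ∈ Finset.univ.filter (fun v => v ∉ U), (1 : ℝ) := by
        rw [Finset.sum_const, nsmul_eq_mul, mul_one]
        exact_mod_cast Finset.card_pos.2 ⟨v, by simpa using hv⟩
      have h5 : Real.exp (-Real.sqrt Δ) * ∑ v : V, (1 : ℝ) < 1 := by
        rw [Finset.sum_const, nsmul_eq_mul, mul_one, Finset.card_univ, Real.exp_neg,
          inv_mul_lt_iff₀ (Real.exp_pos _), mul_one]
        exact hn
      linarith
    subst h3
    obtain ⟨C⟩ := h1
    exact ⟨SimpleGraph.Coloring.mk (fun v => C ⟨v, Set.mem_univ v⟩) (by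
      intro u v huv
      exact C.valid (by simpa using huv))⟩

end Pool.Agent.K1H34.UHC.Uniform
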